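import Mathlib
import Pool.Agent.Lib.MP_be2ccc_co.Decomp
import Pool.Agent.Lib.BV.LSieve

/-!
# Almost all weights: definitions

`S2 s` (sum of two squares) is defined in `Decomp`. `Pool.BV.ee x = exp (2 π i x)`.
-/

set_option autoImplicit false

namespace Pool.Agent.Lib.MP_be2ccc_co.AW

open Finset

/-- the nontrivial character modulo `4` -/
def chi (n : ℕ) : ℤ := ZMod.χ₄ (n : ZMod 4)

/-- `∑_{D ∣ m} χ(D)`, a quarter of the number of representations as a sum of two squares -/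
def rs (m : ℕ) : ℤ := ∑ D ∈ m.divisors, chi D

/-- truncated version -/
def rz (z m : ℕ) : ℤ := ∑ D ∈ m.divisors.filter (fun D => D ≤ z), chi D

/-- number of divisors in `(z, y]` -/
def dz (z y m : ℕ) : ℕ := (m.divisors.filter (fun D => z < D ∧ D ≤ y)).card

/-- `∑_{D ≤ z, q ∣ D, (D, W) = 1} χ(D) / D` -/
noncomputable def lam (W z q : ℕ) : ℝ :=
  ∑ D ∈ (Icc 1 z).filter (fun D => q ∣ D ∧ D.Coprime W), (chi D : ℝ) / D

/-- `∑_{d ∣ W} 1 / d` -/
noncomputable def Kw (W : ℕ) : ℝ := ∑ d ∈ W.divisors, (1 : ℝ) / d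

/-- the shift belonging to `(u, v)` -/
def sh (W c d u v : ℕ) : ℕ := (c + 2 * W * u) ^ 2 + (d + 2 * W * v) ^ 2

/-- the double Weyl sum with frequency `θ` -/
noncomputable def Gs (W c d U : ℕ) (θ : ℝ) : ℂ :=
  ∑ u ∈ range U, ∑ v ∈ range U, Pool.BV.ee (-(sh W c d u v : ℝ) * θ)

/-- `∑_{u, v < U} rz z (n - sh u v)` -/
def Tn (W c d U z n : ℕ) : ℤ := ∑ u ∈ range U, ∑ v ∈ range U, rz z (n - sh W c d u v)

end Pool.Agent.Lib.MP_be2ccc_co.AW
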