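import Mathlib
import Pool.Agent.Lib.MP_be2ccc_co.AW.Base

/-!
# Partial sums of 1 - 1/3 + 1/5 - ...
-/

set_option autoImplicit false

namespace Pool.Agent.Lib.MP_be2ccc_co.AW

open Finset Pool.BV

/-- `∑_{i ≤ I} χ(i) / i` -/
noncomputable def Sc (I : ℕ) : ℝ := ∑ i ∈ Icc 1 I, (chi i : ℝ) / i

private theorem Sc_succ (I : ℕ) : Sc (I + 1) = Sc I + (chi (I + 1) : ℝ) / ((I : ℝ) + 1) := by
  unfold Sc
  rw [Finset.sum_Icc_succ_top (by omega)]
  push_cast
  rfl

private theorem chi_even (n : ℕ) (h : n % 2 = 0) : chi n = 0 := by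
  unfold chi
  rw [ZMod.χ₄_nat_eq_if_mod_four]
  simp [h]

private theorem chi_one (n : ℕ) (h : n % 4 = 1) : chi n = 1 := by
  unfold chi
  exact ZMod.χ₄_nat_one_mod_four h

private theorem chi_three (n : ℕ) (h : n % 4 = 3) : chi n = -1 := by
  unfold chi
  exact ZMod.χ₄_nat_three_mod_four h

private theorem Sc_block (d : ℕ) : ∀ I : ℕ,
    ((I % 4 = 0 ∨ I % 4 = 3) → 0 ≤ Sc (I + d) - Sc I ∧ Sc (I + d) - Sc I ≤ 1 / ((I : ℝ) + 1)) ∧
    ((I % 4 = 1 ∨ I % 4 = 2) → -(1 / ((I : ℝ) + 1)) ≤ Sc (I + d) - Sc I ∧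
      Sc (I + d) - Sc I ≤ 0) := by
  induction d with
  | zero =>
    intro I
    have : (0 : ℝ) < 1 / ((I : ℝ) + 1) := by positivity
    rw [add_zero, sub_self]
    exact ⟨fun _ => ⟨le_rfl, this.le⟩, fun _ => ⟨by linarith, le_rfl⟩⟩
  | succ d ih =>
    intro I
    have h1 := ih (I + 1)
    have e : I + (d + 1) = I + 1 + d := by ring
    rw [e]
    have hs := Sc_succ I
    have hpos : (0 : ℝ) < 1 / ((I : ℝ) + 1) := by positivity
    have hpos' : (0 : ℝ) < 1 / (((I + 1 : ℕ) : ℝ) + 1) := by positivity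
    have hle : 1 / (((I + 1 : ℕ) : ℝ) + 1) ≤ 1 / ((I : ℝ) + 1) := by
      apply one_div_le_one_div_of_le (by positivity)
      push_cast
      linarith
    constructor
    · rintro (h | h)
      · have hc := chi_one (I + 1) (by omega)
        rw [hc] at hs
        push_cast at hs
        obtain ⟨h2, h3⟩ := h1.2 (Or.inl (by omega))
        constructor <;> linarith
      · have hc := chi_even (I + 1) (by omega)
        rw [hc] at hs
        push_cast at hs
        rw [zero_div, add_zero] at hs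
        obtain ⟨h2, h3⟩ := h1.1 (Or.inl (by omega))
        constructor <;> linarith
    · rintro (h | h)
      · have hc := chi_even (I + 1) (by omega)
        rw [hc] at hs
        push_cast at hs
        rw [zero_div, add_zero] at hs
        obtain ⟨h2, h3⟩ := h1.2 (Or.inr (by omega))
        constructor <;> linarith
      · have hc := chi_three (I + 1) (by omega)
        rw [hc] at hs
        push_cast at hs
        rw [neg_div] at hs
        obtain ⟨h2, h3⟩ := h1.1 (Or.inr (by omega))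
        constructor <;> linarith

private theorem Sc_zero : Sc 0 = 0 := by
  unfold Sc
  simp

theorem Sc_nonneg (I : ℕ) : 0 ≤ Sc I := by
  have h := ((Sc_block I 0).1 (Or.inl rfl)).1
  rw [Sc_zero, zero_add, sub_zero] at h
  exact h

theorem Sc_le_one (I : ℕ) : Sc I ≤ 1 := by
  have h := ((Sc_block I 0).1 (Or.inl rfl)).2
  rw [Sc_zero, zero_add, sub_zero] at h
  simpa using h

theorem Sc_lower (I : ℕ) (hI : 1 ≤ I) : 2 / 3 ≤ Sc I := by
  have h1 : Sc 1 = 1 := by
    have h := Sc_succ 0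
    rw [Sc_zero, chi_one (0 + 1) (by norm_num)] at h
    norm_num at h
    exact h
  have h2 : Sc 2 = 1 := by
    have h := Sc_succ 1
    rw [h1, chi_even (1 + 1) (by norm_num)] at h
    norm_num at h
    exact h
  have h3 : Sc 3 = 2 / 3 := by
    have h := Sc_succ 2
    rw [h2, chi_three (2 + 1) (by norm_num)] at h
    norm_num at h
    exact h
  rcases lt_or_ge I 3 with h | h
  · interval_cases I
    · rw [h1]; norm_num
    · rw [h2]; norm_num
  · obtain ⟨d, rfl⟩ := Nat.exists_eq_add_of_le h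
    have h4 := ((Sc_block d 3).1 (Or.inr rfl)).1
    rw [h3] at h4
    linarith

/-- alternating series: a block sum is at most its first term -/
theorem Sc_sub (I J : ℕ) (h : I ≤ J) : |Sc I - Sc J| ≤ 1 / ((I : ℝ) + 1) := by
  obtain ⟨d, rfl⟩ := Nat.exists_eq_add_of_le h
  have hb := Sc_block d I
  have hpos : (0 : ℝ) < 1 / ((I : ℝ) + 1) := by positivity
  rw [abs_sub_comm, abs_le]
  have h4 : I % 4 < 4 := Nat.mod_lt _ (by norm_num)
  by_cases hc : I % 4 = 0 ∨ I % 4 = 3
  · obtain ⟨h1, h2⟩ := hb.1 hc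
    exact ⟨by linarith, h2⟩
  · obtain ⟨h1, h2⟩ := hb.2 (by omega)
    exact ⟨h1, by linarith⟩

end Pool.Agent.Lib.MP_be2ccc_co.AW
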