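import Mathlib
import Pool.Agent.Lib.MP_be2ccc_co.AW.Base

/-!
# The first moment of the number of divisors in a short range
-/

set_option autoImplicit false

namespace Pool.Agent.Lib.MP_be2ccc_co.AW

open Finset Pool.BV

private lemma first_count (W z N a D : ℕ) (hz : 0 < z) (hD : z < D)
    (hcop : a.Coprime (2 * W)) :
    ((range N).filter (fun l => D ∣ a + 4 * W * l)).card ≤ N / z + 1 := by
  classical
  have hD0 : 0 < D := by omega
  by_cases hc : D.Coprime (4 * W)
  · have h1 : ((range N).filter (fun l => D ∣ a + 4 * W * l)).card ≤ (range (N / D + 1)).card := by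
      refine Finset.card_le_card_of_injOn (fun l => l / D) (fun l hl => ?_)
        (fun l hl l' hl' he => ?_)
      · have h3 := mem_range.1 (mem_filter.1 (Finset.mem_coe.1 hl)).1
        exact Finset.mem_coe.2 (mem_range.2 (Nat.lt_succ_of_le (Nat.div_le_div_right h3.le)))
      · have h3 := (mem_filter.1 (Finset.mem_coe.1 hl)).2
        have h4 := (mem_filter.1 (Finset.mem_coe.1 hl')).2
        have h5 : (D : ℤ) ∣ (4 * W) * ((l : ℤ) - l') := by
          have h6 := dvd_sub (Int.natCast_dvd_natCast.2 h3) (Int.natCast_dvd_natCast.2 h4)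
          push_cast at h6
          have h7 : (a : ℤ) + 4 * W * l - (a + 4 * W * l') = (4 * W) * ((l : ℤ) - l') := by ring
          rwa [h7] at h6
        have h6 : IsCoprime (D : ℤ) (4 * W) := by
          have h7 := Nat.isCoprime_iff_coprime.2 hc
          exact_mod_cast h7
        have h7 := h6.dvd_of_dvd_mul_left h5
        have h8 : l ≡ l' [MOD D] := by
          rw [← Int.natCast_modEq_iff]
          exact (Int.modEq_iff_dvd.2 (by
            have := (dvd_neg (α := ℤ)).2 h7
            rwa [neg_sub] at this))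
        have h9 : l % D = l' % D := h8
        have he' : l / D = l' / D := he
        rw [← Nat.div_add_mod l D, ← Nat.div_add_mod l' D, h9, he']
    rw [card_range] at h1
    refine h1.trans (Nat.add_le_add_right ?_ 1)
    exact Nat.div_le_div_left hD.le hz
  · have h1 : (range N).filter (fun l => D ∣ a + 4 * W * l) = ∅ := by
      rw [Finset.filter_eq_empty_iff]
      intro l _ hdvd
      obtain ⟨p, hp, hpD, hpW⟩ := Nat.Prime.not_coprime_iff_dvd.1 hc
      have hp2 : p ∣ 2 * W := by
        rcases (Nat.Prime.dvd_mul hp).1 hpW with h | h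
        · have h3 : p ∣ 2 ^ 2 := by simpa using h
          exact (hp.dvd_of_dvd_pow h3).trans (dvd_mul_right 2 W)
        · exact h.trans (dvd_mul_left W 2)
      have hpa : p ∣ a := by
        have h3 : p ∣ a + 4 * W * l := hpD.trans hdvd
        exact (Nat.dvd_add_left (hpW.trans (dvd_mul_right _ _))).1 h3
      exact (Nat.Prime.not_coprime_iff_dvd.2 ⟨p, hp, hpa, hp2⟩) hcop
    rw [h1, card_empty]
    exact Nat.zero_le _

/-- For each `D ∈ (z, y]` coprime to `4 W` at most `N / D + 1` of the `l < N` have
`D ∣ n₀ - s + 4 W l`; other `D` divide none of these numbers. -/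
theorem first_class (W z y N n₀ s : ℕ) (hz : 0 < z) (hs : s < n₀)
    (hcop : (n₀ - s).Coprime (2 * W)) :
    ∑ l ∈ range N, dz z y (n₀ + 4 * W * l - s) ≤ (y - z) * (N / z + 1) := by
  classical
  have h1 : ∀ l ∈ range N, dz z y (n₀ + 4 * W * l - s) ≤
      ∑ D ∈ Ioc z y, if D ∣ (n₀ - s) + 4 * W * l then 1 else 0 := by
    intro l _
    rw [← Finset.card_filter]
    unfold dz
    refine card_le_card ?_
    intro D hD
    rw [mem_filter, Nat.mem_divisors] at hD
    rw [mem_filter, mem_Ioc]
    refine ⟨hD.2, ?_⟩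
    have h2 : n₀ + 4 * W * l - s = (n₀ - s) + 4 * W * l := by omega
    rw [← h2]
    exact hD.1.1
  refine (Finset.sum_le_sum h1).trans ?_
  rw [Finset.sum_comm]
  have h2 : ∀ D ∈ Ioc z y, ∑ l ∈ range N, (if D ∣ (n₀ - s) + 4 * W * l then 1 else 0) ≤
      N / z + 1 := by
    intro D hD
    rw [← Finset.card_filter]
    exact first_count W z N (n₀ - s) D hz (mem_Ioc.1 hD).1 hcop
  refine (Finset.sum_le_sum h2).trans ?_
  rw [Finset.sum_const, Nat.card_Ioc, smul_eq_mul]

end Pool.Agent.Lib.MP_be2ccc_co.AW
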