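import Mathlib
import Pool.Agent.Lib.MP_be2ccc_co.AW.Base

/-!
# The hyperbola method
-/

set_option autoImplicit false

namespace Pool.Agent.Lib.MP_be2ccc_co.AW

open Finset Pool.BV

private theorem chi_cases (n : ℕ) : chi n = 0 ∨ chi n = 1 ∨ chi n = -1 := by
  have h4 : n % 4 < 4 := Nat.mod_lt _ (by norm_num)
  by_cases h1 : n % 4 = 1
  · right; left; exact ZMod.χ₄_nat_one_mod_four h1
  · by_cases h3 : n % 4 = 3
    · right; right; exact ZMod.χ₄_nat_three_mod_four h3
    · left
      unfold chi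
      rw [ZMod.χ₄_nat_eq_if_mod_four]
      have : n % 2 = 0 := by omega
      simp [this]

private theorem chi_mul (m n : ℕ) : chi (m * n) = chi m * chi n := by
  unfold chi
  push_cast
  rw [map_mul]

private theorem chi_compl (m D : ℕ) (hm : m % 4 = 1) (hD : D ∣ m) : chi (m / D) = chi D := by
  have h1 : chi m = 1 := ZMod.χ₄_nat_one_mod_four hm
  have h2 : chi D * chi (m / D) = 1 := by
    rw [← chi_mul, Nat.mul_div_cancel' hD, h1]
  rcases chi_cases D with h | h | h <;> rcases chi_cases (m / D) with h' | h' | h' <;>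
    rw [h, h'] at h2 <;> rw [h, h'] <;> omega

private theorem sum_ge_neg_card (S : Finset ℕ) : -(S.card : ℤ) ≤ ∑ D ∈ S, chi D := by
  have h1 : -(S.card : ℤ) = ∑ _D ∈ S, (-1 : ℤ) := by simp
  rw [h1]
  refine Finset.sum_le_sum fun D _ => ?_
  rcases chi_cases D with h | h | h <;> rw [h] <;> norm_num

/-- Divisors `D ≤ z` have `m / D > y`, divisors `D > y` have `m / D ≤ y`; `χ(m / D) = χ(D)` since
`m ≡ 1 (mod 4)`. -/
theorem rs_ge (m z y : ℕ) (hm : m % 4 = 1) (h1 : z * y < m) (h2 : m ≤ y * y) (hzy : z ≤ y) :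
    2 * rz z m - 2 * (dz z y m : ℤ) ≤ rs m := by
  have hm0 : m ≠ 0 := by omega
  -- the sum over the large divisors
  set L := m.divisors.filter (fun D => y < D) with hL
  set A := m.divisors.filter (fun D => D ≤ z) with hA
  set B := m.divisors.filter (fun D => z < D ∧ D ≤ y) with hB
  set B' := m.divisors.filter (fun D => z < D ∧ D ≤ y ∧ y < m / D) with hB'
  have hsplit : rs m = ∑ D ∈ A, chi D + ∑ D ∈ B, chi D + ∑ D ∈ L, chi D := by
    unfold rs
    rw [← Finset.sum_filter_add_sum_filter_not m.divisors (fun D => D ≤ z)]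
    rw [← Finset.sum_filter_add_sum_filter_not (m.divisors.filter (fun D => ¬ D ≤ z))
      (fun D => D ≤ y)]
    rw [Finset.filter_filter, Finset.filter_filter, ← add_assoc]
    congr 1
    · congr 1
      refine Finset.sum_congr ?_ fun _ _ => rfl
      ext D
      simp only [hB, Finset.mem_filter, not_le]
    · refine Finset.sum_congr ?_ fun _ _ => rfl
      ext D
      simp only [hL, Finset.mem_filter, not_le]
      constructor
      · rintro ⟨h3, h4, h5⟩
        exact ⟨h3, h5⟩
      · rintro ⟨h3, h4⟩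
        exact ⟨h3, by omega, h4⟩
  have hlarge : ∑ D ∈ L, chi D = ∑ D ∈ A, chi D + ∑ D ∈ B', chi D := by
    have hdisj : Disjoint A B' := by
      rw [Finset.disjoint_left]
      intro D hD hD'
      rw [hA, Finset.mem_filter] at hD
      rw [hB', Finset.mem_filter] at hD'
      omega
    rw [← Finset.sum_union hdisj]
    refine Finset.sum_nbij' (fun D => m / D) (fun D => m / D) ?_ ?_ ?_ ?_ ?_
    · intro D hD
      rw [hL, Finset.mem_filter, Nat.mem_divisors] at hD
      obtain ⟨⟨hD1, -⟩, hD2⟩ := hD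
      have hDpos : 0 < D := by omega
      have hle : m / D ≤ y := by
        by_contra hc
        rw [not_le] at hc
        have h3 : D * (m / D) = m := Nat.mul_div_cancel' hD1
        have h4 : (y + 1) * (y + 1) ≤ D * (m / D) := Nat.mul_le_mul hD2 hc
        nlinarith
      have hdd : m / (m / D) = D := Nat.div_div_self hD1 hm0
      rw [Finset.mem_union, hA, hB', Finset.mem_filter, Finset.mem_filter, Nat.mem_divisors, hdd]
      by_cases hz : m / D ≤ z
      · exact Or.inl ⟨⟨Nat.div_dvd_of_dvd hD1, hm0⟩, hz⟩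
      · exact Or.inr ⟨⟨Nat.div_dvd_of_dvd hD1, hm0⟩, by omega, hle, hD2⟩
    · intro D hD
      rw [Finset.mem_union, hA, hB', Finset.mem_filter, Finset.mem_filter, Nat.mem_divisors] at hD
      rw [hL, Finset.mem_filter, Nat.mem_divisors]
      rcases hD with ⟨⟨hD1, -⟩, hD2⟩ | ⟨⟨hD1, -⟩, -, -, hD3⟩
      · refine ⟨⟨Nat.div_dvd_of_dvd hD1, hm0⟩, ?_⟩
        by_contra hc
        rw [not_lt] at hc
        have h3 : D * (m / D) = m := Nat.mul_div_cancel' hD1
        have h4 : D * (m / D) ≤ z * y := Nat.mul_le_mul hD2 hc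
        omega
      · exact ⟨⟨Nat.div_dvd_of_dvd hD1, hm0⟩, hD3⟩
    · intro D hD
      rw [hL, Finset.mem_filter, Nat.mem_divisors] at hD
      exact Nat.div_div_self hD.1.1 hm0
    · intro D hD
      rw [Finset.mem_union, hA, hB', Finset.mem_filter, Finset.mem_filter, Nat.mem_divisors] at hD
      rcases hD with hD | hD
      · exact Nat.div_div_self hD.1.1 hm0
      · exact Nat.div_div_self hD.1.1 hm0
    · intro D hD
      rw [hL, Finset.mem_filter, Nat.mem_divisors] at hD
      exact (chi_compl m D hm hD.1.1).symm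
  have hB1 := sum_ge_neg_card B
  have hB2 := sum_ge_neg_card B'
  have hcard : B'.card ≤ B.card := by
    refine Finset.card_le_card ?_
    intro D hD
    rw [hB', Finset.mem_filter] at hD
    rw [hB, Finset.mem_filter]
    exact ⟨hD.1, hD.2.1, hD.2.2.1⟩
  have hrz : rz z m = ∑ D ∈ A, chi D := rfl
  have hdz : dz z y m = B.card := rfl
  rw [hrz, hdz, hsplit, hlarge]
  have : (B'.card : ℤ) ≤ B.card := by exact_mod_cast hcard
  linarith

end Pool.Agent.Lib.MP_be2ccc_co.AW
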