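import Mathlib
import Pool.Agent.Lib.MP_be2ccc_co.AW.Base

/-!
# Nonvanishing of the divisor sum detects sums of two squares
-/

set_option autoImplicit false

namespace Pool.Agent.Lib.MP_be2ccc_co.AW

open Finset Pool.BV

/-- `chi` as an arithmetic function -/
private def chiA : ArithmeticFunction ℤ := ⟨chi, by simp [chi]⟩

private theorem chiA_mult : chiA.IsMultiplicative := by
  refine ⟨?_, ?_⟩
  · show chi 1 = 1
    unfold chi
    simp
  · intro m n _
    show chi (m * n) = chi m * chi n
    unfold chi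
    push_cast
    rw [map_mul]

private theorem rs_eq (m : ℕ) : rs m = (chiA * (ArithmeticFunction.zeta : ArithmeticFunction ℤ)) m := by
  rw [ArithmeticFunction.coe_mul_zeta_apply]
  rfl

private theorem rs_prime_pow (q e : ℕ) (hq : q.Prime) (hq4 : q % 4 = 3) (he : Odd e) :
    rs (q ^ e) = 0 := by
  unfold rs
  rw [Nat.sum_divisors_prime_pow hq]
  have h1 : chi q = -1 := by
    unfold chi
    rw [ZMod.χ₄_nat_three_mod_four hq4]
  have h2 : ∀ i, chi (q ^ i) = (-1) ^ i := by
    intro i
    rw [← h1]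
    unfold chi
    push_cast
    rw [map_pow]
  rw [Finset.sum_congr rfl (fun i _ => h2 i), neg_one_geom_sum, if_pos]
  exact he.add_one

/-- `rs` is multiplicative and vanishes at odd powers of primes `≡ 3 (mod 4)`; use
`Nat.eq_sq_add_sq_iff` for the criterion. -/
theorem S2_of_rs (m : ℕ) (h : rs m ≠ 0) : S2 m := by
  by_contra hS
  apply h
  rcases Nat.eq_zero_or_pos m with hm | hm
  · subst hm
    unfold rs
    simp
  have h1 : ¬ ∃ x y : ℕ, m = x ^ 2 + y ^ 2 := hS
  rw [Nat.eq_sq_add_sq_iff] at h1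
  push Not at h1
  obtain ⟨q, hq, hq4, hodd⟩ := h1
  rw [Nat.not_even_iff_odd] at hodd
  have hqp : q.Prime := Nat.prime_of_mem_primeFactors hq
  have h2 : (chiA * (ArithmeticFunction.zeta : ArithmeticFunction ℤ)).IsMultiplicative :=
    chiA_mult.mul ArithmeticFunction.isMultiplicative_zeta.natCast
  have h3 : q ^ m.factorization q * (m / q ^ m.factorization q) = m :=
    Nat.ordProj_mul_ordCompl_eq_self m q
  have h4 : Nat.Coprime (q ^ m.factorization q) (m / q ^ m.factorization q) :=
    (Nat.coprime_ordCompl hqp hm.ne').pow_left _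
  rw [rs_eq, ← h3, h2.map_mul_of_coprime h4, ← rs_eq, rs_prime_pow q _ hqp hq4, zero_mul]
  rw [Nat.factorization_def _ hqp]
  exact hodd

end Pool.Agent.Lib.MP_be2ccc_co.AW
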