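import Mathlib
import Pool.Agent.Lib.MP_be2ccc_co.AW.Base

/-!
# The large sieve, dual form
-/

set_option autoImplicit false

namespace Pool.Agent.Lib.MP_be2ccc_co.AW

open Finset Pool.BV

/-- Dual form of `Pool.BV.large_sieve_c` (duality: Cauchy-Schwarz). -/
theorem dual_ls {J : Type} [DecidableEq J] (s : Finset J) (x : J → ℝ) {δ : ℝ} (hδ : 0 < δ)
    (hδ1 : δ ≤ 1) (hsp : ∀ i ∈ s, ∀ j ∈ s, i ≠ j → ∀ t : ℤ, δ ≤ |x i - x j - t|)
    (A : Finset ℕ) {N : ℝ} (hN : 0 < N) (hA : ∀ n ∈ A, (n : ℝ) ≤ N) (b : J → ℂ) :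
    ∑ n ∈ A, ‖∑ i ∈ s, b i * ee (n * x i)‖ ^ 2 ≤
      (δ⁻¹ + 4 * Real.pi * N) * ∑ i ∈ s, ‖b i‖ ^ 2 := by
  set F : ℕ → ℂ := fun n => ∑ i ∈ s, b i * ee (n * x i) with hF
  set a : ℕ → ℂ := fun n => (starRingEnd ℂ) (F n) with ha
  set G : J → ℂ := fun i => ∑ n ∈ A, a n * ee (n * x i) with hG
  set X : ℝ := ∑ n ∈ A, ‖F n‖ ^ 2 with hX
  set C : ℝ := δ⁻¹ + 4 * Real.pi * N with hC
  set B : ℝ := ∑ i ∈ s, ‖b i‖ ^ 2 with hB
  have hC0 : 0 ≤ C := by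
    have := Real.pi_pos
    positivity
  have hX0 : 0 ≤ X := Finset.sum_nonneg fun n _ => by positivity
  have hB0 : 0 ≤ B := Finset.sum_nonneg fun n _ => by positivity
  have h1 : ∑ i ∈ s, ‖G i‖ ^ 2 ≤ C * ∑ n ∈ A, ‖a n‖ ^ 2 :=
    large_sieve_c s x hδ hδ1 hsp A a hN hA
  have h2 : ∑ n ∈ A, ‖a n‖ ^ 2 = X := by
    refine Finset.sum_congr rfl fun n _ => ?_
    rw [ha]
    simp
  rw [h2] at h1
  have h3 : (X : ℂ) = ∑ i ∈ s, b i * G i := by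
    have e1 : (X : ℂ) = ∑ n ∈ A, a n * F n := by
      rw [hX, Complex.ofReal_sum]
      refine Finset.sum_congr rfl fun n _ => ?_
      rw [ha, mul_comm, Complex.mul_conj, Complex.normSq_eq_norm_sq]
    rw [e1]
    simp only [hF, hG, Finset.mul_sum]
    rw [Finset.sum_comm]
    refine Finset.sum_congr rfl fun i _ => Finset.sum_congr rfl fun n _ => ?_
    ring
  have h4 : X ≤ ∑ i ∈ s, ‖b i‖ * ‖G i‖ := by
    have e1 : X = ‖(X : ℂ)‖ := by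
      rw [Complex.norm_real, Real.norm_of_nonneg hX0]
    rw [e1, h3]
    refine (norm_sum_le _ _).trans (le_of_eq ?_)
    exact Finset.sum_congr rfl fun i _ => norm_mul _ _
  have h5 : (∑ i ∈ s, ‖b i‖ * ‖G i‖) ^ 2 ≤ B * ∑ i ∈ s, ‖G i‖ ^ 2 :=
    Finset.sum_mul_sq_le_sq_mul_sq s _ _
  have h6 : X ^ 2 ≤ B * (C * X) := by
    calc X ^ 2 ≤ (∑ i ∈ s, ‖b i‖ * ‖G i‖) ^ 2 := by
          gcongr
      _ ≤ B * ∑ i ∈ s, ‖G i‖ ^ 2 := h5
      _ ≤ B * (C * X) := by gcongr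
  rcases hX0.eq_or_lt with h | h
  · rw [← h]
    positivity
  · have h7 : X * X ≤ (C * B) * X := by nlinarith
    exact le_of_mul_le_mul_right h7 h

theorem Dual_spacing (W Q : ℕ) (q q' a a' : ℕ) (hq : 1 ≤ q) (hqQ : q ≤ Q) (hqc : q.Coprime (2 * W))
    (hq' : 1 ≤ q') (hqQ' : q' ≤ Q) (hqc' : q'.Coprime (2 * W)) (ha : a < q) (hac : a.Coprime q)
    (ha' : a' < q') (hac' : a'.Coprime q') (hne : ¬ (q = q' ∧ a = a')) (t : ℤ) :
    ((Q : ℝ) ^ 2)⁻¹ ≤ |4 * W * (a : ℝ) / q - 4 * W * (a' : ℝ) / q' - t| := by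
  have hq0 : (0 : ℝ) < q := by exact_mod_cast hq
  have hq0' : (0 : ℝ) < q' := by exact_mod_cast hq'
  have e1 : 4 * W * (a : ℝ) / q - 4 * W * (a' : ℝ) / q' - t =
      ((4 * W * (a * q' - a' * q) - t * (q * q') : ℤ) : ℝ) / (q * q') := by
    push_cast
    field_simp
  have hz : (4 * W * (a * q' - a' * q) - t * (q * q') : ℤ) ≠ 0 := by
    intro h0
    have c4 : ∀ p : ℕ, p.Coprime (2 * W) → IsCoprime (p : ℤ) ((4 * W : ℕ) : ℤ) := by
      intro p hp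
      rw [Nat.isCoprime_iff_coprime]
      have h2 : p.Coprime 2 := Nat.Coprime.coprime_dvd_right (dvd_mul_right 2 W) hp
      have h3 : p.Coprime W := Nat.Coprime.coprime_dvd_right (dvd_mul_left W 2) hp
      have h4 : p.Coprime 4 := by
        have := Nat.Coprime.mul_right h2 h2
        exact this
      exact Nat.Coprime.mul_right h4 h3
    have k1 : (q : ℤ) ∣ q' := by
      have d1 : (q : ℤ) ∣ ((4 * W : ℕ) : ℤ) * (a * q') := by
        refine ⟨((4 * W : ℕ) : ℤ) * a' + t * q', ?_⟩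
        push_cast
        linarith
      have d2 := (c4 q hqc).dvd_of_dvd_mul_left d1
      exact (Nat.isCoprime_iff_coprime.mpr hac.symm).dvd_of_dvd_mul_left d2
    have k2 : (q' : ℤ) ∣ q := by
      have d1 : (q' : ℤ) ∣ ((4 * W : ℕ) : ℤ) * (a' * q) := by
        refine ⟨((4 * W : ℕ) : ℤ) * a - t * q, ?_⟩
        push_cast
        linarith
      have d2 := (c4 q' hqc').dvd_of_dvd_mul_left d1
      exact (Nat.isCoprime_iff_coprime.mpr hac'.symm).dvd_of_dvd_mul_left d2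
    have hqq : q = q' := Nat.dvd_antisymm (by exact_mod_cast k1) (by exact_mod_cast k2)
    subst hqq
    refine hne ⟨rfl, ?_⟩
    have hqz : (q : ℤ) ≠ 0 := by
      have : q ≠ 0 := by omega
      exact_mod_cast this
    have d1 : (q : ℤ) ∣ ((4 * W : ℕ) : ℤ) * ((a : ℤ) - a') := by
      refine ⟨t, ?_⟩
      have : (q : ℤ) * (((4 * W : ℕ) : ℤ) * ((a : ℤ) - a')) = q * (q * t) := by
        push_cast
        linarith
      exact mul_left_cancel₀ hqz this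
    have d2 := (c4 q hqc).dvd_of_dvd_mul_left d1
    have d3 : (a : ℤ) - a' = 0 := by
      refine Int.eq_zero_of_abs_lt_dvd d2 ?_
      rw [abs_lt]
      constructor <;> omega
    omega
  rw [e1, abs_div, abs_of_pos (by positivity : (0 : ℝ) < q * q')]
  have h1 : (1 : ℝ) ≤ |((4 * W * (a * q' - a' * q) - t * (q * q') : ℤ) : ℝ)| := by
    rw [← Int.cast_abs]
    exact_mod_cast Int.one_le_abs hz
  have h2 : (q : ℝ) * q' ≤ (Q : ℝ) ^ 2 := by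
    rw [sq]
    have a1 : (q : ℝ) ≤ Q := by exact_mod_cast hqQ
    have a2 : (q' : ℝ) ≤ Q := by exact_mod_cast hqQ'
    gcongr
  calc ((Q : ℝ) ^ 2)⁻¹ ≤ ((q : ℝ) * q')⁻¹ := inv_anti₀ (by positivity) h2
    _ = 1 / ((q : ℝ) * q') := (one_div _).symm
    _ ≤ _ := by gcongr

/-- The points `4 W a / q` (`q ≤ Q` coprime to `2 W`, `a` reduced) are `1/Q²`-spaced modulo one. -/
theorem ls_frac (W Q N n₀ : ℕ) (hN : 0 < N) (S : Finset ℕ)
    (hS : ∀ q ∈ S, 1 ≤ q ∧ q ≤ Q ∧ q.Coprime (2 * W)) (β : ℕ → ℕ → ℂ) :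
    ∑ l ∈ range N, ‖∑ q ∈ S, ∑ a ∈ (range q).filter (fun a => a.Coprime q),
        β q a * ee (((n₀ + 4 * W * l : ℕ) : ℝ) * ((a : ℝ) / q))‖ ^ 2 ≤
      ((Q : ℝ) ^ 2 + 4 * Real.pi * N) *
        ∑ q ∈ S, ∑ a ∈ (range q).filter (fun a => a.Coprime q), ‖β q a‖ ^ 2 := by
  classical
  rcases S.eq_empty_or_nonempty with rfl | ⟨q₀, hq₀⟩
  · simp
  have hQ : 1 ≤ Q := (hS q₀ hq₀).1.trans (hS q₀ hq₀).2.1
  have hQ' : (1 : ℝ) ≤ Q := by exact_mod_cast hQ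
  set s : Finset (Σ _ : ℕ, ℕ) := S.sigma fun q => (range q).filter (fun a => a.Coprime q) with hs
  have hmem : ∀ i ∈ s, i.1 ∈ S ∧ i.2 < i.1 ∧ i.2.Coprime i.1 := by
    intro i hi
    rw [hs, Finset.mem_sigma, Finset.mem_filter, Finset.mem_range] at hi
    exact ⟨hi.1, hi.2.1, hi.2.2⟩
  have key := dual_ls s (fun i : (Σ _ : ℕ, ℕ) => 4 * W * (i.2 : ℝ) / i.1)
    (δ := ((Q : ℝ) ^ 2)⁻¹) (by positivity) (inv_le_one_of_one_le₀ (by nlinarith)) ?_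
    (range N) (N := N) (by exact_mod_cast hN)
    (fun n hn => by exact_mod_cast (Finset.mem_range.mp hn).le)
    (fun i => β i.1 i.2 * ee ((n₀ : ℝ) * ((i.2 : ℝ) / i.1)))
  · rw [inv_inv] at key
    have e1 : ∀ l ∈ range N, ‖∑ q ∈ S, ∑ a ∈ (range q).filter (fun a => a.Coprime q),
        β q a * ee (((n₀ + 4 * W * l : ℕ) : ℝ) * ((a : ℝ) / q))‖ ^ 2 =
        ‖∑ i ∈ s, β i.1 i.2 * ee ((n₀ : ℝ) * ((i.2 : ℝ) / i.1)) *
          ee (l * (4 * W * (i.2 : ℝ) / i.1))‖ ^ 2 := by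
      intro l _
      rw [hs, Finset.sum_sigma]
      congr 2
      refine Finset.sum_congr rfl fun q _ => Finset.sum_congr rfl fun a _ => ?_
      have e2 : ((n₀ + 4 * W * l : ℕ) : ℝ) * ((a : ℝ) / q) =
          (n₀ : ℝ) * ((a : ℝ) / q) + l * (4 * W * (a : ℝ) / q) := by
        push_cast
        ring
      rw [e2, ee_add, ← mul_assoc]
    rw [Finset.sum_congr rfl e1]
    refine key.trans (le_of_eq ?_)
    rw [hs, Finset.sum_sigma]
    congr 1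
    refine Finset.sum_congr rfl fun q _ => Finset.sum_congr rfl fun a _ => ?_
    rw [norm_mul, norm_ee, mul_one]
  · intro i hi j hj hij t
    obtain ⟨hi1, hi2, hi3⟩ := hmem i hi
    obtain ⟨hj1, hj2, hj3⟩ := hmem j hj
    obtain ⟨a1, a2, a3⟩ := hS _ hi1
    obtain ⟨b1, b2, b3⟩ := hS _ hj1
    refine Dual_spacing W Q i.1 j.1 i.2 j.2 a1 a2 a3 b1 b2 b3 hi2 hi3 hj2 hj3 ?_ t
    rintro ⟨h1, h2⟩
    apply hij
    obtain ⟨i1, i2⟩ := i
    obtain ⟨j1, j2⟩ := j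
    simp only at h1 h2
    rw [h1, h2]

end Pool.Agent.Lib.MP_be2ccc_co.AW
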