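import Mathlib
import Pool.Agent.Lib.MP_be2ccc_co.AW.Base

/-!
# Additive characters
-/

set_option autoImplicit false

namespace Pool.Agent.Lib.MP_be2ccc_co.AW

open Finset Pool.BV

private theorem ee_nat_mul (a : ℕ) (x : ℝ) : ee ((a : ℝ) * x) = ee x ^ a := by
  unfold ee
  rw [← Complex.exp_nat_mul]
  congr 1
  push_cast
  ring

theorem dvd_expand (D : ℕ) (hD : 0 < D) (k : ℤ) :
    (if (D : ℤ) ∣ k then (1 : ℂ) else 0) = (1 / (D : ℂ)) * ∑ a ∈ range D, ee ((a : ℝ) * k / D) := by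
  have hD' : (D : ℝ) ≠ 0 := by positivity
  have hDc : (D : ℂ) ≠ 0 := by exact_mod_cast hD.ne'
  have h1 : ∀ a : ℕ, ee ((a : ℝ) * k / D) = ee ((k : ℝ) / D) ^ a := by
    intro a
    rw [← ee_nat_mul]
    congr 1
    ring
  rw [Finset.sum_congr rfl (fun a _ => h1 a)]
  split_ifs with h
  · obtain ⟨l, rfl⟩ := h
    have h2 : ee ((((D : ℤ) * l : ℤ) : ℝ) / D) = 1 := by
      have h3 : (((D : ℤ) * l : ℤ) : ℝ) / D = (l : ℝ) := by
        push_cast
        field_simp
      rw [h3]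
      exact ee_int l
    rw [h2]
    simp only [one_pow, Finset.sum_const, Finset.card_range, nsmul_eq_mul, mul_one]
    field_simp
  · have hne : ee ((k : ℝ) / D) ≠ 1 := by
      intro h2
      unfold ee at h2
      rw [Complex.exp_eq_one_iff] at h2
      obtain ⟨n, hn⟩ := h2
      apply h
      refine ⟨n, ?_⟩
      have hpi : (2 * (Real.pi : ℂ) * Complex.I) ≠ 0 := Complex.two_pi_I_ne_zero
      have h3 : (((k : ℝ) / D : ℝ) : ℂ) = n := by
        apply mul_right_cancel₀ hpi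
        linear_combination hn
      have h4 : ((k : ℝ) / D : ℝ) = (n : ℝ) := by exact_mod_cast h3
      have h5 : (k : ℝ) = D * n := by
        rw [div_eq_iff hD'] at h4
        linarith
      exact_mod_cast h5
    have hpow : ee ((k : ℝ) / D) ^ D = 1 := by
      rw [← ee_nat_mul]
      have h3 : (D : ℝ) * ((k : ℝ) / D) = (k : ℝ) := by field_simp
      rw [h3]
      exact ee_int k
    rw [geom_sum_eq hne, hpow, sub_self, zero_div, mul_zero]

private theorem core (D : ℕ) (hD : 0 < D) (F : ℝ → ℂ) :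
    ∑ a ∈ range D, F ((a : ℝ) / D) =
      ∑ q ∈ D.divisors, ∑ a ∈ (range q).filter (fun a => a.Coprime q), F ((a : ℝ) / q) := by
  rw [Finset.sum_sigma']
  refine Finset.sum_nbij' (fun a => (⟨D / Nat.gcd a D, a / Nat.gcd a D⟩ : (_ : ℕ) × ℕ))
    (fun s => s.2 * (D / s.1)) ?_ ?_ ?_ ?_ ?_
  · intro a ha
    rw [Finset.mem_range] at ha
    have hg : 0 < Nat.gcd a D := Nat.gcd_pos_of_pos_right a hD
    rw [Finset.mem_sigma, Nat.mem_divisors, Finset.mem_filter, Finset.mem_range]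
    refine ⟨⟨Nat.div_dvd_of_dvd (Nat.gcd_dvd_right a D), hD.ne'⟩, ?_,
      Nat.coprime_div_gcd_div_gcd hg⟩
    show a / Nat.gcd a D < D / Nat.gcd a D
    have h1 := Nat.div_mul_cancel (Nat.gcd_dvd_left a D)
    have h2 := Nat.div_mul_cancel (Nat.gcd_dvd_right a D)
    by_contra hc
    rw [not_lt] at hc
    have := Nat.mul_le_mul_right (Nat.gcd a D) hc
    omega
  · rintro ⟨q, a⟩ hs
    rw [Finset.mem_sigma, Nat.mem_divisors, Finset.mem_filter, Finset.mem_range] at hs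
    obtain ⟨⟨hq, -⟩, ha, -⟩ := hs
    rw [Finset.mem_range]
    simp only at hq ha ⊢
    have h1 : q * (D / q) = D := Nat.mul_div_cancel' hq
    have hpos : 0 < D / q := Nat.div_pos (Nat.le_of_dvd hD hq) (Nat.pos_of_dvd_of_pos hq hD)
    calc a * (D / q) < q * (D / q) := Nat.mul_lt_mul_of_pos_right ha hpos
      _ = D := h1
  · intro a ha
    simp only
    rw [Nat.div_div_self (Nat.gcd_dvd_right a D) hD.ne']
    exact Nat.div_mul_cancel (Nat.gcd_dvd_left a D)
  · rintro ⟨q, a⟩ hs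
    rw [Finset.mem_sigma, Nat.mem_divisors, Finset.mem_filter, Finset.mem_range] at hs
    obtain ⟨⟨hq, -⟩, ha, hc⟩ := hs
    simp only at hq ha hc ⊢
    have h1 : q * (D / q) = D := Nat.mul_div_cancel' hq
    have hpos : 0 < D / q := Nat.div_pos (Nat.le_of_dvd hD hq) (Nat.pos_of_dvd_of_pos hq hD)
    have hg : Nat.gcd (a * (D / q)) D = D / q := by
      conv_lhs => rw [← h1]
      rw [Nat.mul_div_cancel_left _ (Nat.pos_of_dvd_of_pos hq hD), Nat.gcd_mul_right,
        Nat.Coprime.gcd_eq_one hc, one_mul]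
    rw [hg, Nat.div_div_self hq hD.ne', Nat.mul_div_cancel _ hpos]
  · intro a ha
    simp only
    have hg : 0 < Nat.gcd a D := Nat.gcd_pos_of_pos_right a hD
    have h1 := Nat.div_mul_cancel (Nat.gcd_dvd_left a D)
    have h2 := Nat.div_mul_cancel (Nat.gcd_dvd_right a D)
    have hg' : ((Nat.gcd a D : ℕ) : ℝ) ≠ 0 := by exact_mod_cast hg.ne'
    congr 1
    have h3 : (a : ℝ) = ((a / Nat.gcd a D : ℕ) : ℝ) * (Nat.gcd a D : ℕ) := by exact_mod_cast h1.symm
    have h4 : (D : ℝ) = ((D / Nat.gcd a D : ℕ) : ℝ) * (Nat.gcd a D : ℕ) := by exact_mod_cast h2.symm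
    rw [h3, h4, mul_div_mul_right _ _ hg']

/-- Grouping by reduced fractions. -/
theorem regroup (z : ℕ) (c : ℕ → ℂ) (F : ℝ → ℂ) :
    ∑ D ∈ Icc 1 z, c D * ∑ a ∈ range D, F ((a : ℝ) / D) =
      ∑ q ∈ Icc 1 z, (∑ D ∈ (Icc 1 z).filter (fun D => q ∣ D), c D) *
        ∑ a ∈ (range q).filter (fun a => a.Coprime q), F ((a : ℝ) / q) := by
  have h1 : ∀ D ∈ Icc 1 z, c D * ∑ a ∈ range D, F ((a : ℝ) / D) =
      ∑ q ∈ Icc 1 z, if q ∣ D then
        c D * ∑ a ∈ (range q).filter (fun a => a.Coprime q), F ((a : ℝ) / q) else 0 := by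
    intro D hD
    rw [Finset.mem_Icc] at hD
    rw [core D (by omega) F, Finset.mul_sum, ← Finset.sum_filter]
    refine Finset.sum_congr ?_ fun _ _ => rfl
    ext q
    rw [Nat.mem_divisors, Finset.mem_filter, Finset.mem_Icc]
    constructor
    · rintro ⟨hq, -⟩
      have := Nat.le_of_dvd (by omega) hq
      have := Nat.pos_of_dvd_of_pos hq (by omega)
      exact ⟨⟨by omega, by omega⟩, hq⟩
    · rintro ⟨-, hq⟩
      exact ⟨hq, by omega⟩
  rw [Finset.sum_congr rfl h1, Finset.sum_comm]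
  refine Finset.sum_congr rfl fun q _ => ?_
  rw [← Finset.sum_filter, Finset.sum_mul]

end Pool.Agent.Lib.MP_be2ccc_co.AW
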