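import Mathlib
import Pool.Agent.Lib.MP_be2ccc_co.AW.Four

/-!
# The truncated sum as an exponential sum
-/

set_option autoImplicit false

namespace Pool.Agent.Lib.MP_be2ccc_co.AW

open Finset Pool.BV

private theorem rz_eq (W z m : ℕ) (hm : 0 < m) (hcop : m.Coprime W) :
    (rz z m : ℂ) = ∑ D ∈ Icc 1 z, (if D.Coprime W then ((chi D : ℂ) / D) else 0) *
      ∑ a ∈ range D, ee ((m : ℝ) * ((a : ℝ) / D)) := by
  have h1 : rz z m = ∑ D ∈ (Icc 1 z).filter (fun D => D ∣ m), chi D := by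
    unfold rz
    refine Finset.sum_congr ?_ fun _ _ => rfl
    ext D
    rw [Finset.mem_filter, Finset.mem_filter, Nat.mem_divisors, Finset.mem_Icc]
    constructor
    · rintro ⟨⟨h1, -⟩, h2⟩
      have := Nat.pos_of_dvd_of_pos h1 hm
      exact ⟨⟨by omega, h2⟩, h1⟩
    · rintro ⟨⟨-, h2⟩, h1⟩
      exact ⟨⟨h1, hm.ne'⟩, h2⟩
  rw [h1, Finset.sum_filter]
  push_cast
  refine Finset.sum_congr rfl fun D hD => ?_
  rw [Finset.mem_Icc] at hD
  have h2 := dvd_expand D (by omega) (m : ℤ)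
  have hDc : (D : ℂ) ≠ 0 := by
    have : D ≠ 0 := by omega
    exact_mod_cast this
  have h3 : ∑ a ∈ range D, ee ((m : ℝ) * ((a : ℝ) / D)) =
      (D : ℂ) * (if (D : ℤ) ∣ (m : ℤ) then (1 : ℂ) else 0) := by
    rw [h2, ← mul_assoc, mul_one_div_cancel hDc, one_mul]
    refine Finset.sum_congr rfl fun a _ => ?_
    congr 1
    push_cast
    ring
  rw [h3]
  by_cases hdvd : D ∣ m
  · have hc : D.Coprime W := Nat.Coprime.coprime_dvd_left hdvd hcop
    have hdvd' : (D : ℤ) ∣ (m : ℤ) := by exact_mod_cast hdvd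
    rw [if_pos hdvd, if_pos hc, if_pos hdvd', mul_one, div_mul_cancel₀ _ hDc]
  · have hdvd' : ¬ (D : ℤ) ∣ (m : ℤ) := by
      intro h
      exact hdvd (by exact_mod_cast h)
    rw [if_neg hdvd, if_neg hdvd', mul_zero, mul_zero]

/-- Since `n - sh u v` is coprime to `W`, only `D` coprime to `W` matter; then `dvd_expand` and
`regroup`. -/
theorem Tn_eq (W c d U z n : ℕ) (hpos : ∀ u < U, ∀ v < U, sh W c d u v < n)
    (hcop : ∀ u < U, ∀ v < U, (n - sh W c d u v).Coprime W) :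
    (Tn W c d U z n : ℂ) = ∑ q ∈ Icc 1 z, (lam W z q : ℂ) *
      ∑ a ∈ (range q).filter (fun a => a.Coprime q),
        ee ((n : ℝ) * ((a : ℝ) / q)) * Gs W c d U ((a : ℝ) / q) := by
  have h1 : (Tn W c d U z n : ℂ) = ∑ u ∈ range U, ∑ v ∈ range U, ∑ D ∈ Icc 1 z,
      (if D.Coprime W then ((chi D : ℂ) / D) else 0) *
      ∑ a ∈ range D, ee (((n - sh W c d u v : ℕ) : ℝ) * ((a : ℝ) / D)) := by
    unfold Tn
    push_cast
    refine Finset.sum_congr rfl fun u hu => Finset.sum_congr rfl fun v hv => ?_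
    rw [Finset.mem_range] at hu hv
    rw [rz_eq W z _ (by have := hpos u hu v hv; omega) (hcop u hu v hv)]
  have h2 : (Tn W c d U z n : ℂ) = ∑ D ∈ Icc 1 z,
      (if D.Coprime W then ((chi D : ℂ) / D) else 0) *
      ∑ a ∈ range D, (ee ((n : ℝ) * ((a : ℝ) / D)) * Gs W c d U ((a : ℝ) / D)) := by
    rw [h1]
    have h3 : ∀ u ∈ range U, ∑ v ∈ range U, ∑ D ∈ Icc 1 z,
        (if D.Coprime W then ((chi D : ℂ) / D) else 0) *
        ∑ a ∈ range D, ee (((n - sh W c d u v : ℕ) : ℝ) * ((a : ℝ) / D)) =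
        ∑ D ∈ Icc 1 z, ∑ v ∈ range U, (if D.Coprime W then ((chi D : ℂ) / D) else 0) *
        ∑ a ∈ range D, ee (((n - sh W c d u v : ℕ) : ℝ) * ((a : ℝ) / D)) :=
      fun u _ => Finset.sum_comm
    rw [Finset.sum_congr rfl h3, Finset.sum_comm]
    refine Finset.sum_congr rfl fun D _ => ?_
    have h4 : ∀ u ∈ range U, ∑ v ∈ range U, (if D.Coprime W then ((chi D : ℂ) / D) else 0) *
        ∑ a ∈ range D, ee (((n - sh W c d u v : ℕ) : ℝ) * ((a : ℝ) / D)) =
        (if D.Coprime W then ((chi D : ℂ) / D) else 0) * ∑ v ∈ range U,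
        ∑ a ∈ range D, ee (((n - sh W c d u v : ℕ) : ℝ) * ((a : ℝ) / D)) :=
      fun u _ => (Finset.mul_sum _ _ _).symm
    rw [Finset.sum_congr rfl h4, ← Finset.mul_sum]
    congr 1
    have h5 : ∀ a ∈ range D, ee ((n : ℝ) * ((a : ℝ) / D)) * Gs W c d U ((a : ℝ) / D) =
        ∑ u ∈ range U, ∑ v ∈ range U, ee (((n - sh W c d u v : ℕ) : ℝ) * ((a : ℝ) / D)) := by
      intro a _
      unfold Gs
      rw [Finset.mul_sum]
      refine Finset.sum_congr rfl fun u hu => ?_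
      rw [Finset.mul_sum]
      refine Finset.sum_congr rfl fun v hv => ?_
      rw [Finset.mem_range] at hu hv
      rw [← ee_add]
      congr 1
      rw [Nat.cast_sub (hpos u hu v hv).le]
      ring
    rw [Finset.sum_congr rfl h5]
    rw [Finset.sum_comm]
    have h6 : ∀ u ∈ range U, ∑ v ∈ range U, ∑ a ∈ range D,
        ee (((n - sh W c d u v : ℕ) : ℝ) * ((a : ℝ) / D)) = ∑ a ∈ range D, ∑ v ∈ range U,
        ee (((n - sh W c d u v : ℕ) : ℝ) * ((a : ℝ) / D)) := fun u _ => Finset.sum_comm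
    rw [Finset.sum_comm (s := range D)]
    rw [Finset.sum_comm]
    exact Finset.sum_congr rfl h6
  rw [h2, regroup z (fun D => (if D.Coprime W then ((chi D : ℂ) / D) else 0))
    (fun x => ee ((n : ℝ) * x) * Gs W c d U x)]
  refine Finset.sum_congr rfl fun q _ => ?_
  congr 1
  unfold lam
  push_cast
  rw [← Finset.sum_filter, Finset.filter_filter]

end Pool.Agent.Lib.MP_be2ccc_co.AW
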