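import Mathlib
import Pool.Agent.Lib.MP_be2ccc_co.AW.Base

/-!
# Mean square of the Weyl sums over all numerators
-/

set_option autoImplicit false

namespace Pool.Agent.Lib.MP_be2ccc_co.AW

open Finset Pool.BV

private lemma countq_conj (x : ℝ) : (starRingEnd ℂ) (ee x) = ee (-x) := by
  unfold ee
  rw [← Complex.exp_conj]
  congr 1
  simp only [map_mul, Complex.conj_I, Complex.conj_ofReal, map_ofNat]
  push_cast
  ring

private lemma countq_pow (x : ℝ) (a : ℕ) : ee (x * a) = ee x ^ a := by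
  unfold ee
  rw [← Complex.exp_nat_mul]
  congr 1
  push_cast
  ring

private lemma countq_orth (q : ℕ) (hq : 0 < q) (m : ℤ) :
    ∑ a ∈ range q, ee ((m : ℝ) * ((a : ℝ) / q)) = if (q : ℤ) ∣ m then (q : ℂ) else 0 := by
  have hq0 : (q : ℝ) ≠ 0 := by exact_mod_cast hq.ne'
  have h1 : ∀ a ∈ range q, ee ((m : ℝ) * ((a : ℝ) / q)) = ee ((m : ℝ) / q) ^ a := by
    intro a _
    rw [← countq_pow]
    congr 1
    field_simp
  rw [Finset.sum_congr rfl h1]
  split_ifs with h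
  · obtain ⟨r, hr⟩ := h
    have h2 : ee ((m : ℝ) / q) = 1 := by
      have h3 : (m : ℝ) / q = (r : ℝ) := by
        rw [hr]
        push_cast
        field_simp
      rw [h3]
      exact ee_int r
    rw [h2]
    simp
  · have h2 : ee ((m : ℝ) / q) ≠ 1 := by
      intro h3
      apply h
      unfold ee at h3
      rw [Complex.exp_eq_one_iff] at h3
      obtain ⟨r, hr⟩ := h3
      have h4 : (2 * Real.pi * Complex.I : ℂ) ≠ 0 := Complex.two_pi_I_ne_zero
      have h5 : (((m : ℝ) / q : ℝ) : ℂ) = (r : ℂ) := by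
        have h6 : (2 * Real.pi * Complex.I : ℂ) * (((m : ℝ) / q : ℝ) : ℂ) =
            (2 * Real.pi * Complex.I : ℂ) * r := by
          linear_combination hr
        exact mul_left_cancel₀ h4 h6
      have h7 : (m : ℝ) / q = (r : ℝ) := by exact_mod_cast h5
      rw [div_eq_iff hq0] at h7
      refine ⟨r, ?_⟩
      have h8 : (m : ℝ) = (q : ℝ) * r := by rw [h7]; ring
      exact_mod_cast h8
    have h3 : ee ((m : ℝ) / q) ^ q = 1 := by
      rw [← countq_pow]
      have h4 : (m : ℝ) / q * q = (m : ℝ) := by field_simp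
      rw [h4]
      exact ee_int m
    have h4 := geom_sum_mul (ee ((m : ℝ) / q)) q
    rw [h3, sub_self] at h4
    exact (mul_eq_zero.1 h4).resolve_right (sub_ne_zero.2 h2)

private lemma countq_sq (q : ℕ) (hq : 0 < q) (U : ℕ) (x : ℕ → ℕ) :
    ∑ a ∈ range q, ‖∑ u ∈ range U, ee (-((x u : ℕ) : ℝ) * ((a : ℝ) / q))‖ ^ 2 =
      q * ((((range U) ×ˢ (range U)).filter (fun p => (q : ℤ) ∣ (x p.2 : ℤ) - x p.1)).card : ℝ) := by
  have h1 : ∀ a ∈ range q, ((‖∑ u ∈ range U, ee (-((x u : ℕ) : ℝ) * ((a : ℝ) / q))‖ ^ 2 : ℝ) : ℂ) =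
      ∑ p ∈ (range U) ×ˢ (range U), ee ((((x p.2 : ℤ) - x p.1 : ℤ) : ℝ) * ((a : ℝ) / q)) := by
    intro a _
    rw [← Complex.normSq_eq_norm_sq, ← Complex.mul_conj, map_sum, sum_mul_sum,
      Finset.sum_product]
    refine sum_congr rfl fun u _ => sum_congr rfl fun v _ => ?_
    rw [countq_conj, ← ee_add]
    congr 1
    push_cast
    ring
  have h2 : ((∑ a ∈ range q, ‖∑ u ∈ range U, ee (-((x u : ℕ) : ℝ) * ((a : ℝ) / q))‖ ^ 2 : ℝ) : ℂ) =
      ((q * ((((range U) ×ˢ (range U)).filter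
        (fun p => (q : ℤ) ∣ (x p.2 : ℤ) - x p.1)).card : ℝ) : ℝ) : ℂ) := by
    rw [Complex.ofReal_sum, Finset.sum_congr rfl h1, Finset.sum_comm,
      Finset.sum_congr rfl fun p _ => countq_orth q hq _, ← Finset.sum_filter, Finset.sum_const,
      nsmul_eq_mul]
    push_cast
    ring
  exact_mod_cast h2

/-- solutions with a given difference -/
private lemma countq_diff (q : ℕ) (hq : Odd q) (W c U w : ℕ) (hcop : q.Coprime W) :
    (((range U).filter (fun v => (q : ℤ) ∣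
      ((c + 2 * W * (v + w) : ℕ) : ℤ) ^ 2 - ((c + 2 * W * v : ℕ) : ℤ) ^ 2)).card : ℝ) ≤
      U * (Nat.gcd q w : ℝ) / q + 1 := by
  have hq0 : 0 < q := hq.pos
  obtain ⟨d, hd⟩ : ∃ d : ℕ, d = Nat.gcd q w := ⟨_, rfl⟩
  have hd0 : 0 < d := by rw [hd]; exact Nat.gcd_pos_of_pos_left _ hq0
  obtain ⟨q', hq'⟩ : ∃ q' : ℕ, q = d * q' := by
    rw [hd]; exact Nat.gcd_dvd_left q w
  obtain ⟨w', hw'⟩ : ∃ w' : ℕ, w = d * w' := by
    rw [hd]; exact Nat.gcd_dvd_right q w
  have hcop' : Nat.Coprime q' w' := by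
    have h1 : Nat.gcd (d * q') (d * w') = d := by rw [← hq', ← hw', ← hd]
    rw [Nat.gcd_mul_left] at h1
    exact Nat.eq_of_mul_eq_mul_left hd0 (by rw [h1, mul_one])
  have hq'0 : 0 < q' := by
    rcases Nat.eq_zero_or_pos q' with h | h
    · rw [h, mul_zero] at hq'; omega
    · exact h
  have hodd : Nat.Coprime q' 2 := by
    have h1 : Odd (d * q') := hq' ▸ hq
    exact (Nat.coprime_two_right.2 (Nat.odd_mul.1 h1).2)
  have hcopW : Nat.Coprime q' W := Nat.Coprime.coprime_dvd_left ⟨d, by rw [hq', mul_comm]⟩ hcop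
  -- the congruence
  have h1 : ∀ v : ℕ, (q : ℤ) ∣
      ((c + 2 * W * (v + w) : ℕ) : ℤ) ^ 2 - ((c + 2 * W * v : ℕ) : ℤ) ^ 2 →
      (q' : ℤ) ∣ (c : ℤ) + W * (2 * v + w) := by
    intro v hv
    have h2 : ((c + 2 * W * (v + w) : ℕ) : ℤ) ^ 2 - ((c + 2 * W * v : ℕ) : ℤ) ^ 2 =
        d * ((2 * 2 * W * w') * ((c : ℤ) + W * (2 * v + w))) := by
      rw [hw']
      push_cast
      ring
    rw [h2, hq'] at hv
    push_cast at hv
    have h3 : (q' : ℤ) ∣ (2 * 2 * W * w') * ((c : ℤ) + W * (2 * v + w)) := by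
      have hd' : (d : ℤ) ≠ 0 := by exact_mod_cast hd0.ne'
      rw [hw'] at hv ⊢
      push_cast at hv ⊢
      exact Int.dvd_of_mul_dvd_mul_left hd' hv
    have h4 : IsCoprime (q' : ℤ) (2 * 2 * W * w') := by
      have h5 : Nat.Coprime q' (2 * 2 * W * w') :=
        Nat.Coprime.mul_right (Nat.Coprime.mul_right (Nat.Coprime.mul_right hodd hodd) hcopW) hcop'
      have h6 := Nat.isCoprime_iff_coprime.2 h5
      exact_mod_cast h6
    exact h4.dvd_of_dvd_mul_left h3
  have h2 : ((range U).filter (fun v => (q : ℤ) ∣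
      ((c + 2 * W * (v + w) : ℕ) : ℤ) ^ 2 - ((c + 2 * W * v : ℕ) : ℤ) ^ 2)).card ≤
      (range (U / q' + 1)).card := by
    refine Finset.card_le_card_of_injOn (fun v => v / q') (fun v hv => ?_) (fun v hv v' hv' he => ?_)
    · have h3 := mem_range.1 (mem_filter.1 (Finset.mem_coe.1 hv)).1
      exact Finset.mem_coe.2 (mem_range.2 (Nat.lt_succ_of_le (Nat.div_le_div_right h3.le)))
    · have h3 := h1 v (mem_filter.1 (Finset.mem_coe.1 hv)).2
      have h4 := h1 v' (mem_filter.1 (Finset.mem_coe.1 hv')).2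
      have h5 : (q' : ℤ) ∣ (2 * W) * ((v : ℤ) - v') := by
        have h6 := dvd_sub h3 h4
        have h7 : (c : ℤ) + W * (2 * v + w) - (c + W * (2 * v' + w)) = (2 * W) * ((v : ℤ) - v') := by
          ring
        rwa [h7] at h6
      have h6 : IsCoprime (q' : ℤ) (2 * W) := by
        have h7 := Nat.isCoprime_iff_coprime.2 (Nat.Coprime.mul_right hodd hcopW)
        exact_mod_cast h7
      have h7 := h6.dvd_of_dvd_mul_left h5
      have h8 : v ≡ v' [MOD q'] := by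
        rw [← Int.natCast_modEq_iff]
        exact (Int.modEq_iff_dvd.2 (by
          have := (dvd_neg (α := ℤ)).2 h7
          rwa [neg_sub] at this))
      have h9 : v % q' = v' % q' := h8
      have he' : v / q' = v' / q' := he
      rw [← Nat.div_add_mod v q', ← Nat.div_add_mod v' q', h9, he']
  rw [card_range] at h2
  have h3 : (((range U).filter (fun v => (q : ℤ) ∣
      ((c + 2 * W * (v + w) : ℕ) : ℤ) ^ 2 - ((c + 2 * W * v : ℕ) : ℤ) ^ 2)).card : ℝ) ≤
      ((U / q' + 1 : ℕ) : ℝ) := by exact_mod_cast h2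
  refine h3.trans ?_
  push_cast
  have h4 : ((U / q' : ℕ) : ℝ) ≤ (U : ℝ) / q' := Nat.cast_div_le
  have h5 : (U : ℝ) * (Nat.gcd q w : ℝ) / q = (U : ℝ) / q' := by
    rw [← hd]
    have h6 : (q : ℝ) = d * q' := by exact_mod_cast hq'
    have h7 : (d : ℝ) ≠ 0 := by exact_mod_cast hd0.ne'
    have h8 : (q' : ℝ) ≠ 0 := by exact_mod_cast hq'0.ne'
    rw [h6]
    field_simp
  rw [h5]
  linarith

private lemma countq_divisors (m : ℕ) (hm : 0 < m) : (m.divisors.card : ℝ) ≤ 2 * Real.sqrt m := by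
  have h1 : m.divisors ⊆ (Icc 1 (Nat.sqrt m)) ∪ (Icc 1 (Nat.sqrt m)).image (fun e => m / e) := by
    intro q hq
    have hqm := Nat.dvd_of_mem_divisors hq
    have hq0 : 0 < q := Nat.pos_of_mem_divisors hq
    rw [Finset.mem_union]
    by_cases h : q ≤ Nat.sqrt m
    · left
      exact Finset.mem_Icc.2 ⟨hq0, h⟩
    · right
      rw [Finset.mem_image]
      refine ⟨m / q, Finset.mem_Icc.2 ⟨Nat.div_pos (Nat.le_of_dvd hm hqm) hq0, ?_⟩, ?_⟩
      · by_contra hcon
        push Not at h hcon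
        have h2 : (Nat.sqrt m + 1) * (Nat.sqrt m + 1) ≤ q * (m / q) :=
          Nat.mul_le_mul h hcon
        rw [Nat.mul_div_cancel' hqm] at h2
        have h3 := Nat.lt_succ_sqrt m
        have h4 : m < (Nat.sqrt m + 1) * (Nat.sqrt m + 1) := h3
        omega
      · exact Nat.div_div_self hqm hm.ne'
  have h2 : m.divisors.card ≤ 2 * Nat.sqrt m := by
    refine (Finset.card_le_card h1).trans ?_
    refine (Finset.card_union_le _ _).trans ?_
    have h3 := Finset.card_image_le (s := Icc 1 (Nat.sqrt m)) (f := fun e => m / e)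
    rw [Nat.card_Icc] at h3 ⊢
    omega
  calc (m.divisors.card : ℝ) ≤ ((2 * Nat.sqrt m : ℕ) : ℝ) := by exact_mod_cast h2
    _ = 2 * (Nat.sqrt m : ℝ) := by push_cast; ring
    _ ≤ 2 * Real.sqrt m := by
        refine mul_le_mul_of_nonneg_left ?_ (by norm_num)
        exact Real.nat_sqrt_le_real_sqrt

private lemma countq_gcd (q U : ℕ) (hq : 0 < q) :
    ∑ w ∈ Ico 1 U, (Nat.gcd q w : ℝ) ≤ U * (2 * Real.sqrt q) := by
  have h1 : ∀ w ∈ Ico 1 U, (Nat.gcd q w : ℝ) ≤
      ∑ d ∈ q.divisors, if d ∣ w then (d : ℝ) else 0 := by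
    intro w hw
    have h2 : Nat.gcd q w ∈ q.divisors := Nat.mem_divisors.2 ⟨Nat.gcd_dvd_left q w, hq.ne'⟩
    have h3 := Finset.single_le_sum (f := fun d : ℕ => if d ∣ w then (d : ℝ) else 0)
      (fun d _ => by split_ifs <;> positivity) h2
    rwa [if_pos (Nat.gcd_dvd_right q w)] at h3
  refine (Finset.sum_le_sum h1).trans ?_
  rw [Finset.sum_comm]
  have h2 : ∀ d ∈ q.divisors, ∑ w ∈ Ico 1 U, (if d ∣ w then (d : ℝ) else 0) ≤ U := by
    intro d hd
    have hd0 : 0 < d := Nat.pos_of_mem_divisors hd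
    rw [← Finset.sum_filter, Finset.sum_const, nsmul_eq_mul]
    have h3 : ((Ico 1 U).filter (fun w => d ∣ w)).card ≤ U / d := by
      have h4 : (Ico 1 U).filter (fun w => d ∣ w) ⊆ (Ioc 0 U).filter (fun w => d ∣ w) := by
        intro w hw
        rw [mem_filter, mem_Ico] at hw
        rw [mem_filter, mem_Ioc]
        exact ⟨⟨by omega, by omega⟩, hw.2⟩
      have h5 := card_le_card h4
      rwa [Nat.Ioc_filter_dvd_card_eq_div] at h5
    have h4 : (((Ico 1 U).filter (fun w => d ∣ w)).card : ℝ) ≤ (U : ℝ) / d :=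
      (by exact_mod_cast h3 : (((Ico 1 U).filter (fun w => d ∣ w)).card : ℝ) ≤
        ((U / d : ℕ) : ℝ)).trans Nat.cast_div_le
    have hdR : (0 : ℝ) < d := by exact_mod_cast hd0
    calc (((Ico 1 U).filter (fun w => d ∣ w)).card : ℝ) * d ≤ (U : ℝ) / d * d :=
          mul_le_mul_of_nonneg_right h4 hdR.le
      _ = U := by field_simp
  refine (Finset.sum_le_sum h2).trans ?_
  rw [Finset.sum_const, nsmul_eq_mul, mul_comm]
  exact mul_le_mul_of_nonneg_left (countq_divisors q hq) (by positivity)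

private lemma countq_card (q : ℕ) (hq : Odd q) (W c U : ℕ) (hcop : q.Coprime W) :
    ((((range U) ×ˢ (range U)).filter (fun p : ℕ × ℕ => (q : ℤ) ∣
      (((c + 2 * W * p.2) ^ 2 : ℕ) : ℤ) - (((c + 2 * W * p.1) ^ 2 : ℕ) : ℤ))).card : ℝ) ≤
      3 * U + 4 * (U : ℝ) ^ 2 / Real.sqrt q := by
  classical
  have hq0 : 0 < q := hq.pos
  have hqR : (0 : ℝ) < q := by exact_mod_cast hq0
  obtain ⟨N, hN⟩ : ∃ N : ℕ → ℕ, N = fun w => ((range U).filter (fun v => (q : ℤ) ∣
      ((c + 2 * W * (v + w) : ℕ) : ℤ) ^ 2 - ((c + 2 * W * v : ℕ) : ℤ) ^ 2)).card := ⟨_, rfl⟩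
  have hsub : ((range U) ×ˢ (range U)).filter (fun p : ℕ × ℕ => (q : ℤ) ∣
      (((c + 2 * W * p.2) ^ 2 : ℕ) : ℤ) - (((c + 2 * W * p.1) ^ 2 : ℕ) : ℤ)) ⊆
      (range U).image (fun u => (u, u)) ∪
      (((Ico 1 U).biUnion (fun w => ((range U).filter (fun v => (q : ℤ) ∣
        ((c + 2 * W * (v + w) : ℕ) : ℤ) ^ 2 - ((c + 2 * W * v : ℕ) : ℤ) ^ 2)).image
          (fun v => (v, v + w)))) ∪
      ((Ico 1 U).biUnion (fun w => ((range U).filter (fun v => (q : ℤ) ∣
        ((c + 2 * W * (v + w) : ℕ) : ℤ) ^ 2 - ((c + 2 * W * v : ℕ) : ℤ) ^ 2)).image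
          (fun v => (v + w, v))))) := by
    rintro ⟨u, v⟩ hp
    rw [mem_filter, mem_product, mem_range, mem_range] at hp
    obtain ⟨⟨hu, hv⟩, hdvd⟩ := hp
    simp only at hu hv hdvd
    rw [mem_union, mem_union]
    rcases lt_trichotomy u v with h | h | h
    · refine Or.inr (Or.inl (mem_biUnion.2 ⟨v - u, mem_Ico.2 ⟨by omega, by omega⟩,
        mem_image.2 ⟨u, mem_filter.2 ⟨mem_range.2 hu, ?_⟩, ?_⟩⟩))
      · rw [show u + (v - u) = v by omega]
        push_cast at hdvd ⊢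
        exact hdvd
      · rw [show u + (v - u) = v by omega]
    · exact Or.inl (mem_image.2 ⟨u, mem_range.2 hu, by rw [h]⟩)
    · refine Or.inr (Or.inr (mem_biUnion.2 ⟨u - v, mem_Ico.2 ⟨by omega, by omega⟩,
        mem_image.2 ⟨v, mem_filter.2 ⟨mem_range.2 hv, ?_⟩, ?_⟩⟩))
      · rw [show v + (u - v) = u by omega]
        push_cast at hdvd ⊢
        have := (dvd_neg (α := ℤ)).2 hdvd
        rwa [neg_sub] at this
      · rw [show v + (u - v) = u by omega]
  have h1 := card_le_card hsub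
  have h2 : (((range U) ×ˢ (range U)).filter (fun p : ℕ × ℕ => (q : ℤ) ∣
      (((c + 2 * W * p.2) ^ 2 : ℕ) : ℤ) - (((c + 2 * W * p.1) ^ 2 : ℕ) : ℤ))).card ≤
      U + (∑ w ∈ Ico 1 U, N w + ∑ w ∈ Ico 1 U, N w) := by
    refine h1.trans ((card_union_le _ _).trans (Nat.add_le_add ?_ ((card_union_le _ _).trans
      (Nat.add_le_add ?_ ?_))))
    · exact card_image_le.trans (by rw [card_range])
    · refine card_biUnion_le.trans (Finset.sum_le_sum fun w _ => ?_)
      rw [hN]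
      exact card_image_le
    · refine card_biUnion_le.trans (Finset.sum_le_sum fun w _ => ?_)
      rw [hN]
      exact card_image_le
  have h3 : ∑ w ∈ Ico 1 U, (N w : ℝ) ≤ U + 2 * (U : ℝ) ^ 2 / Real.sqrt q := by
    calc ∑ w ∈ Ico 1 U, (N w : ℝ) ≤ ∑ w ∈ Ico 1 U, (U * (Nat.gcd q w : ℝ) / q + 1) := by
          refine Finset.sum_le_sum fun w _ => ?_
          rw [hN]
          exact countq_diff q hq W c U w hcop
      _ = U / q * ∑ w ∈ Ico 1 U, (Nat.gcd q w : ℝ) + ((U - 1 : ℕ) : ℝ) := by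
          rw [Finset.sum_add_distrib, Finset.sum_const, nsmul_eq_mul, mul_one, Nat.card_Ico,
            Finset.mul_sum]
          congr 1
          exact Finset.sum_congr rfl fun w _ => by ring
      _ ≤ U / q * (U * (2 * Real.sqrt q)) + U := by
          refine add_le_add (mul_le_mul_of_nonneg_left (countq_gcd q U hq0) (by positivity)) ?_
          exact_mod_cast Nat.sub_le U 1
      _ = U + 2 * (U : ℝ) ^ 2 / Real.sqrt q := by
          have h4 : (q : ℝ) = Real.sqrt q * Real.sqrt q := (Real.mul_self_sqrt hqR.le).symm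
          have h5 : Real.sqrt q ≠ 0 := (Real.sqrt_pos.2 hqR).ne'
          have h6 : (U : ℝ) / q * (U * (2 * Real.sqrt q)) = 2 * (U : ℝ) ^ 2 / Real.sqrt q := by
            rw [eq_div_iff h5]
            calc (U : ℝ) / q * (U * (2 * Real.sqrt q)) * Real.sqrt q =
                  2 * (U : ℝ) ^ 2 * ((Real.sqrt q * Real.sqrt q) / q) := by ring
              _ = 2 * (U : ℝ) ^ 2 := by rw [← h4, div_self hqR.ne', mul_one]
          rw [h6]
          ring
  have h4 : ((((range U) ×ˢ (range U)).filter (fun p : ℕ × ℕ => (q : ℤ) ∣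
      (((c + 2 * W * p.2) ^ 2 : ℕ) : ℤ) - (((c + 2 * W * p.1) ^ 2 : ℕ) : ℤ))).card : ℝ) ≤
      U + (∑ w ∈ Ico 1 U, (N w : ℝ) + ∑ w ∈ Ico 1 U, (N w : ℝ)) := by
    exact_mod_cast h2
  refine h4.trans ?_
  have h5 : 4 * (U : ℝ) ^ 2 / Real.sqrt q = 2 * (U : ℝ) ^ 2 / Real.sqrt q +
      2 * (U : ℝ) ^ 2 / Real.sqrt q := by ring
  rw [h5]
  linarith

/-- The left side is `q` times the number of `(u, u')` with
`q ∣ (c + 2 W u)² - (c + 2 W u')² = 2 W (u - u') (2 c + 2 W (u + u'))`; for fixed difference `w ≠ 0`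
there are at most `U (q, w) / q + 1` such `u'`, and `∑_{w < U} (q, w) ≤ U τ(q) ≤ 2 U √q`. -/
theorem count_q (q : ℕ) (hq : Odd q) (W c U : ℕ) (hcop : q.Coprime W) :
    ∑ a ∈ range q, ‖∑ u ∈ range U, ee (-(((c + 2 * W * u) ^ 2 : ℕ) : ℝ) * ((a : ℝ) / q))‖ ^ 2 ≤
      q * (3 * U + 4 * (U : ℝ) ^ 2 / Real.sqrt q) := by
  rw [countq_sq q hq.pos U (fun u => (c + 2 * W * u) ^ 2)]
  exact mul_le_mul_of_nonneg_left (countq_card q hq W c U hcop) (by positivity)

end Pool.Agent.Lib.MP_be2ccc_co.AW
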