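import Mathlib
import Pool.Agent.Lib.MP_be2ccc_co.AW.Alt

/-!
# Moebius inversion and Euler products
-/

set_option autoImplicit false

namespace Pool.Agent.Lib.MP_be2ccc_co.AW

open Finset Pool.BV

private lemma mob_chi_mul (a b : ℕ) : chi (a * b) = chi a * chi b := by
  unfold chi
  rw [Nat.cast_mul, map_mul]

private lemma mob_sum (W : ℕ) (hW : W ≠ 0) (n : ℕ) :
    ∑ d ∈ W.divisors.filter (fun d => d ∣ n), (ArithmeticFunction.moebius d : ℝ) =
      if Nat.Coprime n W then 1 else 0 := by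
  have h1 : W.divisors.filter (fun d => d ∣ n) = (Nat.gcd n W).divisors := by
    ext d
    simp only [mem_filter, Nat.mem_divisors]
    constructor
    · rintro ⟨⟨h1, _⟩, h2⟩
      exact ⟨Nat.dvd_gcd h2 h1, fun h => hW (Nat.eq_zero_of_gcd_eq_zero_right h)⟩
    · rintro ⟨h1, _⟩
      exact ⟨⟨h1.trans (Nat.gcd_dvd_right n W), hW⟩, h1.trans (Nat.gcd_dvd_left n W)⟩
  rw [h1]
  have h2 := ArithmeticFunction.coe_mul_zeta_apply (f := ArithmeticFunction.moebius)
    (x := Nat.gcd n W)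
  rw [ArithmeticFunction.moebius_mul_coe_zeta, ArithmeticFunction.one_apply] at h2
  have h3 : ((∑ d ∈ (Nat.gcd n W).divisors, ArithmeticFunction.moebius d : ℤ) : ℝ) =
      ((if Nat.gcd n W = 1 then 1 else 0 : ℤ) : ℝ) := by rw [← h2]
  push_cast at h3
  exact h3

theorem mob (W J : ℕ) (hW : W ≠ 0) :
    ∑ j ∈ (Icc 1 J).filter (fun j => j.Coprime W), (chi j : ℝ) / j =
      ∑ d ∈ W.divisors, (ArithmeticFunction.moebius d : ℝ) * ((chi d : ℝ) / d) * Sc (J / d) := by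
  classical
  have h1 : ∑ j ∈ (Icc 1 J).filter (fun j => j.Coprime W), (chi j : ℝ) / j =
      ∑ j ∈ Icc 1 J, ∑ d ∈ W.divisors, if d ∣ j then
        (ArithmeticFunction.moebius d : ℝ) * ((chi j : ℝ) / j) else 0 := by
    rw [Finset.sum_filter]
    refine Finset.sum_congr rfl fun j _ => ?_
    rw [← Finset.sum_filter, ← Finset.sum_mul, mob_sum W hW j]
    split_ifs <;> simp
  rw [h1, Finset.sum_comm]
  refine Finset.sum_congr rfl fun d hd => ?_
  have hd0 : 0 < d := Nat.pos_of_mem_divisors hd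
  have hdR : (d : ℝ) ≠ 0 := by exact_mod_cast hd0.ne'
  unfold Sc
  rw [← Finset.sum_filter, Finset.mul_sum]
  refine (Finset.sum_bij (fun i _ => d * i) (fun i hi => ?_) (fun i _ i' _ h => ?_)
    (fun j hj => ?_) (fun i hi => ?_)).symm
  · rw [mem_Icc] at hi
    rw [mem_filter, mem_Icc]
    refine ⟨⟨Nat.mul_pos hd0 hi.1, ?_⟩, dvd_mul_right d i⟩
    rw [mul_comm]
    exact (Nat.le_div_iff_mul_le hd0).1 hi.2
  · exact Nat.eq_of_mul_eq_mul_left hd0 h
  · rw [mem_filter, mem_Icc] at hj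
    obtain ⟨⟨hj1, hj2⟩, i, rfl⟩ := hj
    refine ⟨i, mem_Icc.2 ⟨Nat.pos_of_mul_pos_left hj1 |> fun h => h, ?_⟩, rfl⟩
    rw [Nat.le_div_iff_mul_le hd0, mul_comm]
    exact hj2
  · rw [mem_Icc] at hi
    have hiR : (i : ℝ) ≠ 0 := by
      have : 0 < i := hi.1
      exact_mod_cast this.ne'
    rw [mob_chi_mul]
    push_cast
    field_simp

private noncomputable def mob_chi : ArithmeticFunction ℝ := ⟨fun n => (chi n : ℝ) / n, by simp⟩

private lemma mob_chi_mult : mob_chi.IsMultiplicative := by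
  refine ⟨?_, ?_⟩
  · show (chi 1 : ℝ) / ((1 : ℕ) : ℝ) = 1
    have : chi 1 = 1 := by decide
    rw [this]
    simp
  · intro m n _
    show (chi (m * n) : ℝ) / ((m * n : ℕ) : ℝ) = (chi m : ℝ) / m * ((chi n : ℝ) / n)
    rw [mob_chi_mul]
    push_cast
    rw [mul_div_mul_comm]

private noncomputable def mob_inv : ArithmeticFunction ℝ := ⟨fun n => (n : ℝ)⁻¹, by simp⟩

private lemma mob_inv_mult : mob_inv.IsMultiplicative := by
  refine ⟨by simp [mob_inv], ?_⟩
  intro m n _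
  simp [mob_inv, mul_comm]

private lemma mob_Kw (W : ℕ) (hW : Squarefree W) :
    Kw W = ∏ p ∈ W.primeFactors, (1 + (p : ℝ)⁻¹) := by
  have h := mob_inv_mult.prodPrimeFactors_one_add_of_squarefree hW
  unfold Kw
  have h1 : ∀ d : ℕ, mob_inv d = (d : ℝ)⁻¹ := fun d => rfl
  simp only [h1] at h
  rw [h]
  exact Finset.sum_congr rfl fun d _ => by rw [one_div]

/-- Both sides are products over `p ∣ W`: `∏ (1 - χ(p)/p) ≥ ∏ (1 - 1/p) ≥ ∏ (1 + 1/p)^(-2)` and
`Kw W = ∏ (1 + 1/p)` since `W` is squarefree. -/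
theorem euler_lower (W : ℕ) (hW : Squarefree W) (hodd : Odd W) :
    1 / Kw W ^ 2 ≤ ∑ d ∈ W.divisors, (ArithmeticFunction.moebius d : ℝ) * ((chi d : ℝ) / d) := by
  have h1 := mob_chi_mult.prodPrimeFactors_one_sub_of_squarefree mob_chi hW
  have h2 : ∀ d : ℕ, mob_chi d = (chi d : ℝ) / d := fun d => rfl
  simp only [h2] at h1
  rw [← h1, mob_Kw W hW, one_div, ← Finset.prod_pow, ← Finset.prod_inv_distrib]
  refine Finset.prod_le_prod (fun p _ => by positivity) (fun p hp => ?_)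
  have hp2 : (2 : ℝ) ≤ p := by exact_mod_cast (Nat.prime_of_mem_primeFactors hp).two_le
  have hchi : (chi p : ℝ) ≤ 1 := by
    have h3 : chi p ≤ 1 := by
      unfold chi
      have h4 : ∀ x : ZMod 4, ZMod.χ₄ x ≤ 1 := by decide
      exact h4 _
    exact_mod_cast h3
  obtain ⟨x, hx⟩ : ∃ x : ℝ, x = (p : ℝ)⁻¹ := ⟨_, rfl⟩
  have hx2 : x ≤ 1 / 2 := by
    rw [hx, inv_eq_one_div]
    exact one_div_le_one_div_of_le (by norm_num) hp2
  have hx0 : 0 < x := by rw [hx]; positivity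
  have h5 : 1 - x ≤ 1 - (chi p : ℝ) / p := by
    rw [div_eq_mul_inv, ← hx]
    nlinarith
  refine le_trans ?_ h5
  rw [← hx, inv_eq_one_div, div_le_iff₀ (by positivity)]
  nlinarith [mul_pos hx0 hx0, mul_pos hx0 (mul_pos hx0 hx0)]

end Pool.Agent.Lib.MP_be2ccc_co.AW
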