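import Mathlib
import Pool.Agent.Lib.MP_be2ccc_co.AW.Mob

/-!
# The coefficients
-/

set_option autoImplicit false

namespace Pool.Agent.Lib.MP_be2ccc_co.AW

open Finset Pool.BV

private theorem lam_chi_even (D : ℕ) (h : ¬ D.Coprime 2) : chi D = 0 := by
  unfold chi
  rw [ZMod.χ₄_nat_eq_if_mod_four, if_pos]
  rw [Nat.coprime_two_right, Nat.not_odd_iff_even] at h
  exact Nat.even_iff.1 h

private theorem lam_chi_mul (a b : ℕ) : chi (a * b) = chi a * chi b := by
  unfold chi
  rw [Nat.cast_mul, map_mul]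

private theorem lam_chi_abs (a : ℕ) : |(chi a : ℝ)| ≤ 1 := by
  have h : chi a = 0 ∨ chi a = 1 ∨ chi a = -1 := by
    unfold chi
    rw [ZMod.χ₄_nat_eq_if_mod_four]
    split_ifs <;> simp
  rcases h with h | h | h <;> rw [h] <;> norm_num

private theorem lam_mu_abs (d : ℕ) : |(ArithmeticFunction.moebius d : ℝ)| ≤ 1 := by
  exact_mod_cast ArithmeticFunction.abs_moebius_le_one (n := d)

theorem lam_eq_zero (W z q : ℕ) (h : ¬ q.Coprime (2 * W)) : lam W z q = 0 := by
  unfold lam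
  apply sum_eq_zero
  intro D hD
  rw [mem_filter] at hD
  obtain ⟨-, hqD, hDW⟩ := hD
  have h1 : ¬ D.Coprime 2 := by
    intro h2
    exact h (Nat.Coprime.coprime_dvd_left hqD (Nat.Coprime.mul_right h2 hDW))
  rw [lam_chi_even D h1]
  simp

private theorem lam_reindex (W z q : ℕ) (hq : 0 < q) (h : q.Coprime (2 * W)) :
    lam W z q = (chi q : ℝ) / q *
      ∑ j ∈ (Icc 1 (z / q)).filter (fun j => j.Coprime W), (chi j : ℝ) / j := by
  have hqW : q.Coprime W := Nat.Coprime.coprime_mul_left_right h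
  unfold lam
  rw [mul_sum]
  symm
  apply sum_bij (fun j _ => q * j)
  · intro j hj
    rw [mem_filter, mem_Icc] at hj
    rw [mem_filter, mem_Icc]
    obtain ⟨⟨h1, h2⟩, h3⟩ := hj
    refine ⟨⟨Nat.mul_pos hq h1, ?_⟩, dvd_mul_right q j, Nat.Coprime.mul_left hqW h3⟩
    calc q * j ≤ q * (z / q) := Nat.mul_le_mul_left q h2
      _ ≤ z := Nat.mul_div_le z q
  · intro a _ b _ hab
    exact Nat.eq_of_mul_eq_mul_left hq hab
  · intro D hD
    rw [mem_filter, mem_Icc] at hD
    obtain ⟨⟨h1, h2⟩, ⟨j, rfl⟩, h3⟩ := hD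
    refine ⟨j, ?_, rfl⟩
    rw [mem_filter, mem_Icc]
    refine ⟨⟨Nat.pos_of_ne_zero ?_, (Nat.le_div_iff_mul_le hq).2 (by rw [mul_comm]; exact h2)⟩,
      Nat.Coprime.coprime_mul_left h3⟩
    rintro rfl
    simp at h1
  · intro j hj
    rw [lam_chi_mul]
    push_cast
    rw [div_mul_div_comm]

private theorem lam_Kw_nonneg (W : ℕ) : 0 ≤ Kw W := by
  unfold Kw
  exact sum_nonneg (fun d _ => by positivity)

/-- `∑_{j ≤ J, (j, W) = 1} χ(j)/j = ∑_{d ∣ W} μ(d) χ(d)/d S(J/d)` with partial sums `S` of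
`1 - 1/3 + 1/5 - ...` in `[0, 1]`. -/
theorem lam_abs (W z q : ℕ) (hW : W ≠ 0) (hq : 0 < q) : |lam W z q| ≤ Kw W / q := by
  by_cases h : q.Coprime (2 * W)
  · rw [lam_reindex W z q hq h, mob W (z / q) hW, abs_mul]
    have h1 : |(chi q : ℝ) / q| ≤ 1 / q := by
      rw [abs_div, Nat.abs_cast]
      gcongr
      exact lam_chi_abs q
    have h2 : |∑ d ∈ W.divisors, (ArithmeticFunction.moebius d : ℝ) * ((chi d : ℝ) / d) *
        Sc (z / q / d)| ≤ Kw W := by
      unfold Kw
      refine (abs_sum_le_sum_abs _ _).trans (sum_le_sum fun d _ => ?_)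
      rw [abs_mul, abs_mul, abs_div, Nat.abs_cast, abs_of_nonneg (Sc_nonneg _)]
      have e1 := lam_mu_abs d
      have e2 := lam_chi_abs d
      have e3 := Sc_le_one (z / q / d)
      have e4 := Sc_nonneg (z / q / d)
      calc |(ArithmeticFunction.moebius d : ℝ)| * (|(chi d : ℝ)| / d) * Sc (z / q / d)
          ≤ 1 * (1 / d) * 1 := by gcongr
        _ = 1 / d := by ring
    calc |(chi q : ℝ) / q| * |∑ d ∈ W.divisors, (ArithmeticFunction.moebius d : ℝ) *
        ((chi d : ℝ) / d) * Sc (z / q / d)| ≤ 1 / q * Kw W := by gcongr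
      _ = Kw W / q := by ring
  · rw [lam_eq_zero W z q h, abs_zero]
    exact div_nonneg (lam_Kw_nonneg W) (Nat.cast_nonneg q)

/-- `S(z) ≥ 2/3`, `|S(I) - S(J)| ≤ 1/(I+1)` for `I ≤ J`, and
`∏_{p ∣ W} (1 - χ(p)/p) ≥ ∏_{p ∣ W} (1 - 1/p) ≥ ∏_{p ∣ W} (1 + 1/p)^(-2) = Kw W ^ (-2)`. -/
theorem lam_one (W z : ℕ) (hW : Squarefree W) (hodd : Odd W) (hz : 0 < z) :
    2 / 3 / Kw W ^ 2 - (W : ℝ) / z ≤ lam W z 1 := by
  have hW0 : W ≠ 0 := hW.ne_zero
  have hchi1 : chi 1 = 1 := by
    unfold chi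
    simp
  have h0 := lam_reindex W z 1 one_pos (Nat.coprime_one_left _)
  rw [Nat.div_one, mob W z hW0, hchi1] at h0
  set E : ℝ := ∑ d ∈ W.divisors, (ArithmeticFunction.moebius d : ℝ) * ((chi d : ℝ) / d) with hE
  have hEl := euler_lower W hW hodd
  rw [← hE] at hEl
  have hz' : (0 : ℝ) < z := by exact_mod_cast hz
  have h1 : lam W z 1 = E * Sc z + ∑ d ∈ W.divisors,
      (ArithmeticFunction.moebius d : ℝ) * ((chi d : ℝ) / d) * (Sc (z / d) - Sc z) := by
    rw [h0, hE, sum_mul, ← sum_add_distrib]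
    simp only [Int.cast_one, Nat.cast_one, div_one, one_mul]
    apply sum_congr rfl
    intro d _
    ring
  have h2 : |∑ d ∈ W.divisors,
      (ArithmeticFunction.moebius d : ℝ) * ((chi d : ℝ) / d) * (Sc (z / d) - Sc z)| ≤
      (W : ℝ) / z := by
    calc |∑ d ∈ W.divisors,
        (ArithmeticFunction.moebius d : ℝ) * ((chi d : ℝ) / d) * (Sc (z / d) - Sc z)|
        ≤ ∑ d ∈ W.divisors, (1 : ℝ) / z := by
          refine (abs_sum_le_sum_abs _ _).trans (sum_le_sum fun d hd => ?_)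
          have hd0 : 0 < d := Nat.pos_of_mem_divisors hd
          have hd' : (0 : ℝ) < d := by exact_mod_cast hd0
          rw [abs_mul, abs_mul, abs_div, Nat.abs_cast]
          have e1 := lam_mu_abs d
          have e2 := lam_chi_abs d
          have e3 := Sc_sub (z / d) z (Nat.div_le_self z d)
          have e4 : (z : ℝ) / d ≤ ((z / d : ℕ) : ℝ) + 1 := by
            have h5 : z < d * (z / d + 1) := by
              have := Nat.lt_mul_div_succ z hd0
              simpa using this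
            rw [div_le_iff₀ hd']
            have h6 : (z : ℝ) < (d : ℝ) * (((z / d : ℕ) : ℝ) + 1) := by exact_mod_cast h5
            linarith
          have e5 : 1 / (((z / d : ℕ) : ℝ) + 1) ≤ d / z := by
            have h7 : (0 : ℝ) < (z : ℝ) / d := div_pos hz' hd'
            calc 1 / (((z / d : ℕ) : ℝ) + 1) ≤ 1 / ((z : ℝ) / d) :=
                  one_div_le_one_div_of_le h7 e4
              _ = d / z := by rw [one_div_div]
          calc |(ArithmeticFunction.moebius d : ℝ)| * (|(chi d : ℝ)| / d) * |Sc (z / d) - Sc z|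
              ≤ 1 * (1 / d) * (d / z) := by
                have e6 := e3.trans e5
                gcongr
            _ = 1 / z := by field_simp
      _ = (W.divisors.card : ℝ) / z := by
          rw [sum_const, nsmul_eq_mul]
          ring
      _ ≤ (W : ℝ) / z := by
          gcongr
          exact Nat.card_divisors_le_self W
  have h3 : 2 / 3 / Kw W ^ 2 ≤ E * Sc z := by
    have h4 := Sc_lower z hz
    have h5 : 0 ≤ 1 / Kw W ^ 2 := by positivity
    calc 2 / 3 / Kw W ^ 2 = (1 / Kw W ^ 2) * (2 / 3) := by ring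
      _ ≤ E * Sc z := mul_le_mul hEl h4 (by norm_num) (h5.trans hEl)
  have h4 := (abs_le.1 h2).1
  rw [h1]
  linarith

end Pool.Agent.Lib.MP_be2ccc_co.AW
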