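import Mathlib
import Pool.Agent.Lib.MP_be2ccc_co.AW.Base

/-!
# Weyl's inequality for quadratic polynomials
-/

set_option autoImplicit false

namespace Pool.Agent.Lib.MP_be2ccc_co.AW

open Finset Pool.BV

/-- the weight of a residue class -/
private noncomputable def wt (q U r : ℕ) : ℝ :=
  if r = 0 then (U : ℝ) else (q : ℝ) / (2 * min (r : ℝ) ((q : ℝ) - r))

private theorem wt_sum (m U : ℕ) :
    ∑ r ∈ range (2 * m + 1), wt (2 * m + 1) U r ≤
      U + ((2 * m + 1 : ℕ) : ℝ) * (1 + Real.log ((2 * m + 1 : ℕ) : ℝ)) := by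
  have hq : (0 : ℝ) < ((2 * m + 1 : ℕ) : ℝ) := by positivity
  rw [Finset.sum_range_succ', two_mul m, Finset.sum_range_add]
  have h0 : wt (m + m + 1) U 0 = U := by simp [wt]
  have h1 : ∀ r ∈ range m, wt (m + m + 1) U (r + 1) = ((m + m + 1 : ℕ) : ℝ) / 2 * ((r : ℝ) + 1)⁻¹ := by
    intro r hr
    have hr' : r < m := Finset.mem_range.mp hr
    have hr2 : (r : ℝ) + 1 ≤ m := by exact_mod_cast hr'
    rw [wt, if_neg (Nat.succ_ne_zero r), min_eq_left]
    · push_cast; field_simp
    · push_cast; linarith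
  have h2 : ∑ r ∈ range m, wt (m + m + 1) U (m + r + 1) =
      ∑ r ∈ range m, ((m + m + 1 : ℕ) : ℝ) / 2 * ((r : ℝ) + 1)⁻¹ := by
    rw [← Finset.sum_range_reflect]
    refine Finset.sum_congr rfl fun r hr => ?_
    have hr' : r < m := Finset.mem_range.mp hr
    have hr2 : (r : ℝ) + 1 ≤ m := by exact_mod_cast hr'
    have he : m + (m - 1 - r) + 1 = m + m - r := by omega
    have hc : ((m + m - r : ℕ) : ℝ) = m + m - r := by
      rw [Nat.cast_sub (by omega)]; push_cast; ring
    rw [he, wt, if_neg (by omega), min_eq_right]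
    · rw [hc]; push_cast
      have : (m : ℝ) + m + 1 - (m + m - r) = r + 1 := by ring
      rw [this]; field_simp
    · rw [hc]; push_cast; linarith
  rw [h0, Finset.sum_congr rfl h1, h2, ← Finset.mul_sum]
  have h3 : ∑ r ∈ range m, ((r : ℝ) + 1)⁻¹ ≤ 1 + Real.log ((m + m + 1 : ℕ) : ℝ) := by
    rcases Nat.eq_zero_or_pos m with rfl | hm
    · simp
    · have h4 := harmonic_le_one_add_log m
      have h5 : ((harmonic m : ℚ) : ℝ) = ∑ r ∈ range m, ((r : ℝ) + 1)⁻¹ := by
        rw [harmonic]; push_cast; rfl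
      rw [h5] at h4
      refine h4.trans ?_
      have : Real.log (m : ℝ) ≤ Real.log ((m + m + 1 : ℕ) : ℝ) := by
        apply Real.log_le_log
        · exact_mod_cast hm
        · push_cast; nlinarith [(Nat.cast_nonneg m : (0 : ℝ) ≤ m)]
      linarith
  have h6 := mul_le_mul_of_nonneg_left h3 (show (0 : ℝ) ≤ ((m + m + 1 : ℕ) : ℝ) by positivity)
  nlinarith [h6]

private theorem wt_nonneg (q U r : ℕ) (hr : r < q) : 0 ≤ wt q U r := by
  unfold wt
  split_ifs
  · positivity
  · have : (r : ℝ) < q := by exact_mod_cast hr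
    apply div_nonneg (by positivity)
    apply mul_nonneg (by norm_num)
    exact le_min (by positivity) (by linarith)

private theorem ee_nat_mul (n : ℕ) (x : ℝ) : ee (n * x) = ee x ^ n := by
  induction n with
  | zero => simp [ee_zero]
  | succ n ih =>
    rw [pow_succ, ← ih, ← ee_add]
    congr 1
    push_cast
    ring

private theorem sin_ge (x : ℝ) (h0 : 0 ≤ x) (h1 : x ≤ 1) : 2 * min x (1 - x) ≤ Real.sin (Real.pi * x) := by
  rcases le_total x (1 / 2) with h | h
  · rw [min_eq_left (by linarith)]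
    have := Real.mul_le_sin (x := Real.pi * x) (by positivity) (by nlinarith [Real.pi_pos])
    have h2 : 2 / Real.pi * (Real.pi * x) = 2 * x := by field_simp
    linarith
  · rw [min_eq_right (by linarith)]
    have := Real.mul_le_sin (x := Real.pi * (1 - x)) (mul_nonneg Real.pi_pos.le (by linarith))
      (by nlinarith [Real.pi_pos])
    have h2 : 2 / Real.pi * (Real.pi * (1 - x)) = 2 * (1 - x) := by field_simp
    have h3 : Real.sin (Real.pi * (1 - x)) = Real.sin (Real.pi * x) := by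
      rw [show Real.pi * (1 - x) = Real.pi - Real.pi * x by ring, Real.sin_pi_sub]
    rw [h2, h3] at this
    linarith

private theorem norm_ee_sub_one (x : ℝ) : ‖ee x - 1‖ = 2 * |Real.sin (Real.pi * x)| := by
  have h1 : ee x = Complex.exp (Complex.I * ((2 * Real.pi * x : ℝ) : ℂ)) := by
    unfold ee
    congr 1
    push_cast
    ring
  rw [h1, Complex.norm_exp_I_mul_ofReal_sub_one, norm_mul, Real.norm_eq_abs, Real.norm_eq_abs,
    abs_of_pos (by norm_num : (0 : ℝ) < 2)]
  congr 3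
  ring

/-- geometric sum bound -/
private theorem geo (q U L : ℕ) (hq : 0 < q) (hL : L ≤ U) (a : ℤ) :
    ‖∑ v ∈ range L, ee ((a * v : ℤ) / (q : ℝ))‖ ≤ wt q U (a % q).toNat := by
  have hq' : (0 : ℝ) < q := by exact_mod_cast hq
  have hr0 : 0 ≤ a % q := Int.emod_nonneg _ (by omega)
  have hr1 : a % q < q := Int.emod_lt_of_pos _ (by omega)
  set r : ℕ := (a % q).toNat with hr
  have hrz : (r : ℤ) = a % q := Int.toNat_of_nonneg hr0
  have hrq : r < q := by omega
  have ha : a = q * (a / q) + r := by rw [hrz]; exact (Int.mul_ediv_add_emod a q).symm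
  have hterm : ∀ v : ℕ, ee ((a * v : ℤ) / (q : ℝ)) = ee ((r : ℝ) / q) ^ v := by
    intro v
    have h1 : (((a * v : ℤ) : ℝ)) / (q : ℝ) = (v : ℝ) * ((r : ℝ) / q) + ((a / q * v : ℤ) : ℝ) := by
      have : (a : ℝ) = q * ((a / q : ℤ) : ℝ) + r := by exact_mod_cast ha
      push_cast
      rw [this]
      field_simp
      ring
    rw [h1, ee_add_int, ee_nat_mul]
  rcases Nat.eq_zero_or_pos r with h0 | h0
  · rw [wt, if_pos h0]
    refine (norm_sum_le _ _).trans ?_
    simp only [norm_ee, Finset.sum_const, Finset.card_range, nsmul_eq_mul, mul_one]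
    exact_mod_cast hL
  · rw [wt, if_neg (by omega)]
    have hrp : (0 : ℝ) < r := by exact_mod_cast h0
    have hrq' : (r : ℝ) < q := by exact_mod_cast hrq
    have hmin : 0 < min (r : ℝ) ((q : ℝ) - r) := lt_min hrp (by linarith)
    have hs := sin_ge ((r : ℝ) / q) (by positivity) ((div_le_one hq').mpr hrq'.le)
    have hm : min ((r : ℝ) / q) (1 - (r : ℝ) / q) = min (r : ℝ) ((q : ℝ) - r) / q := by
      rw [show (1 : ℝ) - (r : ℝ) / q = ((q : ℝ) - r) / q by field_simp]
      exact (min_div_div_right hq'.le _ _)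
    rw [hm] at hs
    have hz : 4 * (min (r : ℝ) ((q : ℝ) - r) / q) ≤ ‖ee ((r : ℝ) / q) - 1‖ := by
      rw [norm_ee_sub_one]
      have := le_abs_self (Real.sin (Real.pi * ((r : ℝ) / q)))
      linarith
    have hzp : 0 < ‖ee ((r : ℝ) / q) - 1‖ := lt_of_lt_of_le (by positivity) hz
    have hne : ee ((r : ℝ) / q) ≠ 1 := by
      intro h
      rw [h, sub_self, norm_zero] at hzp
      exact lt_irrefl _ hzp
    rw [Finset.sum_congr rfl fun v _ => hterm v, geom_sum_eq hne, norm_div]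
    have htop : ‖ee ((r : ℝ) / q) ^ L - 1‖ ≤ 2 := by
      refine (norm_sub_le _ _).trans ?_
      rw [norm_pow, norm_ee, one_pow, norm_one]
      norm_num
    calc ‖ee ((r : ℝ) / q) ^ L - 1‖ / ‖ee ((r : ℝ) / q) - 1‖
        ≤ 2 / (4 * (min (r : ℝ) ((q : ℝ) - r) / q)) := by
          apply div_le_div₀ (by norm_num) htop (by positivity) hz
      _ = (q : ℝ) / (2 * min (r : ℝ) ((q : ℝ) - r)) := by
          field_simp
          norm_num

/-- one block of `q` consecutive integers -/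
private theorem block (q U : ℕ) (hq : Odd q) (a : ℤ) (ha : IsCoprime a (q : ℤ)) (b : ℤ) :
    ∑ i ∈ range q, wt q U ((2 * a * ((i : ℤ) + b)) % q).toNat ≤ U + q * (1 + Real.log q) := by
  have hq0 : 0 < q := hq.pos
  have : NeZero q := ⟨hq0.ne'⟩
  have hval : ∀ x : ℤ, (x % q).toNat = ((x : ZMod q)).val := by
    intro x
    have h := ZMod.val_intCast (n := q) x
    omega
  have hu : IsUnit ((2 * a : ℤ) : ZMod q) := by
    have hc : IsCoprime (2 * a) (q : ℤ) := by
      refine IsCoprime.mul_left ?_ ha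
      have h2 : Nat.Coprime 2 q := hq.coprime_two_left
      exact_mod_cast Nat.isCoprime_iff_coprime.mpr h2
    exact (ZMod.coe_int_isUnit_iff_isCoprime _ _).mpr hc.symm
  have hrange : ∀ f : ZMod q → ℝ, ∑ i ∈ range q, f (i : ZMod q) = ∑ x : ZMod q, f x := by
    intro f
    refine Finset.sum_nbij' (fun i => (i : ZMod q)) (fun x => x.val) ?_ ?_ ?_ ?_ ?_
    · intro i _; exact Finset.mem_univ _
    · intro x _; exact Finset.mem_range.mpr (ZMod.val_lt x)
    · intro i hi; exact ZMod.val_cast_of_lt (Finset.mem_range.mp hi)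
    · intro x _; exact ZMod.natCast_zmod_val x
    · intro i _; rfl
  have h1 : ∑ i ∈ range q, wt q U ((2 * a * ((i : ℤ) + b)) % q).toNat =
      ∑ x : ZMod q, wt q U (((2 * a : ℤ) : ZMod q) * (x + (b : ZMod q))).val := by
    rw [← hrange]
    refine Finset.sum_congr rfl fun i _ => ?_
    rw [hval]
    congr 2
    push_cast
    ring
  have h2 : ∑ x : ZMod q, wt q U (((2 * a : ℤ) : ZMod q) * (x + (b : ZMod q))).val =
      ∑ x : ZMod q, wt q U x.val := by
    obtain ⟨c, hc⟩ := hu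
    refine Fintype.sum_equiv ((Equiv.addRight (b : ZMod q)).trans (Units.mulLeft c)) _ _ fun x => ?_
    simp [hc]
  have h3 : ∑ x : ZMod q, wt q U x.val = ∑ r ∈ range q, wt q U r := by
    rw [← hrange]
    refine Finset.sum_congr rfl fun i hi => ?_
    rw [ZMod.val_cast_of_lt (Finset.mem_range.mp hi)]
  rw [h1, h2, h3]
  obtain ⟨m, rfl⟩ := hq
  exact wt_sum m U

/-- `K` blocks -/
private theorem blocks (q U : ℕ) (hq : Odd q) (a : ℤ) (ha : IsCoprime a (q : ℤ)) (K : ℕ) :
    ∑ h ∈ range (K * q), wt q U ((2 * a * ((h : ℤ) + 1)) % q).toNat ≤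
      K * (U + q * (1 + Real.log q)) := by
  induction K with
  | zero => simp
  | succ K ih =>
    rw [Nat.succ_mul, Finset.sum_range_add]
    have h1 := block q U hq a ha ((K * q : ℕ) + 1)
    have h2 : ∑ i ∈ range q, wt q U ((2 * a * (((K * q + i : ℕ) : ℤ) + 1)) % q).toNat =
        ∑ i ∈ range q, wt q U ((2 * a * ((i : ℤ) + ((K * q : ℕ) + 1))) % q).toNat := by
      refine Finset.sum_congr rfl fun i _ => ?_
      congr 4
      push_cast
      ring
    rw [h2]
    push_cast at *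
    linarith

/-- Weyl differencing -/
private theorem diff (z : ℕ → ℂ) (N : ℕ) :
    ‖∑ u ∈ range (N + 1), z u‖ ^ 2 ≤ ∑ u ∈ range (N + 1), ‖z u‖ ^ 2 +
      2 * ∑ h ∈ range N, ‖∑ v ∈ range (N - h), z (v + h + 1) * star (z v)‖ := by
  have h1 : ∀ n : ℕ, ‖∑ u ∈ range n, z u‖ ^ 2 = ∑ u ∈ range n, ‖z u‖ ^ 2 +
      2 * (∑ u ∈ range n, z u * star (∑ v ∈ range u, z v)).re := by
    intro n
    induction n with
    | zero => simp
    | succ n ih =>
      rw [Finset.sum_range_succ, Finset.sum_range_succ, Finset.sum_range_succ, Complex.add_re]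
      have h2 : ‖∑ u ∈ range n, z u + z n‖ ^ 2 = ‖∑ u ∈ range n, z u‖ ^ 2 + ‖z n‖ ^ 2 +
          2 * (z n * star (∑ v ∈ range n, z v)).re := by
        rw [← Complex.normSq_eq_norm_sq, ← Complex.normSq_eq_norm_sq, ← Complex.normSq_eq_norm_sq,
          Complex.normSq_add]
        simp only [Complex.mul_re, Complex.star_def, Complex.conj_re, Complex.conj_im]
        ring
      rw [h2, ih]
      ring
  rw [h1]
  have h3 : ∑ u ∈ range (N + 1), z u * star (∑ v ∈ range u, z v) =
      ∑ h ∈ range N, ∑ v ∈ range (N - h), z (v + h + 1) * star (z v) := by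
    rw [Finset.sum_range_succ']
    simp only [Finset.range_zero, Finset.sum_empty, star_zero, mul_zero, add_zero]
    have h4 := Finset.sum_range_diag_flip N (fun h v => z (v + h + 1) * star (z v))
    rw [← h4]
    refine Finset.sum_congr rfl fun m _ => ?_
    rw [star_sum, Finset.mul_sum, ← Finset.sum_range_reflect]
    refine Finset.sum_congr rfl fun h hh => ?_
    have hh' : h ≤ m := by have := Finset.mem_range.mp hh; omega
    have e1 : m + 1 - 1 - h = m - h := by omega
    have e2 : m - h + h + 1 = m + 1 := by omega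
    simp only [e1, e2]
  rw [h3]
  have h5 : (∑ h ∈ range N, ∑ v ∈ range (N - h), z (v + h + 1) * star (z v)).re ≤
      ∑ h ∈ range N, ‖∑ v ∈ range (N - h), z (v + h + 1) * star (z v)‖ :=
    (Complex.re_le_norm _).trans (norm_sum_le _ _)
  linarith

private theorem ee_mul_star (x y : ℝ) : ee x * star (ee y) = ee (x - y) := by
  have h : star (ee y) = ee (-y) := by
    unfold ee
    rw [Complex.star_def, ← Complex.exp_conj]
    congr 1
    simp only [map_mul, Complex.conj_ofReal, Complex.conj_I, Complex.conj_ofNat]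
    push_cast
    ring
  rw [h, ← ee_add, sub_eq_add_neg]

/-- `|S|² ≤ U + 2 ∑_{h=1}^{U-1} min(U, 1 / (2 ‖2Ah/q‖))`, and each block of `q` consecutive `h`
contributes at most `U + q (1 + log q)`. -/
theorem weyl (q : ℕ) (hq : Odd q) (A B C : ℤ) (hA : IsCoprime A (q : ℤ)) (U : ℕ) :
    ‖∑ u ∈ range U, ee (((A * u ^ 2 + B * u + C : ℤ) : ℝ) / q)‖ ^ 2 ≤
      U + 2 * ((U : ℝ) / q + 1) * (U + q * (1 + Real.log q)) := by
  have hq0 : 0 < q := hq.pos
  have hqR : (0 : ℝ) < q := by exact_mod_cast hq0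
  have hq1 : (1 : ℝ) ≤ q := by exact_mod_cast hq0
  have hlog : 0 ≤ Real.log q := Real.log_nonneg hq1
  rcases U with _ | N
  · simp
    positivity
  have h1 := diff (fun u => ee (((A * u ^ 2 + B * u + C : ℤ) : ℝ) / q)) N
  have h2 : ∀ h ∈ range N, ‖∑ v ∈ range (N - h), ee (((A * (v + h + 1 : ℕ) ^ 2 + B * (v + h + 1 : ℕ) + C : ℤ) : ℝ) / q) *
      star (ee (((A * (v : ℕ) ^ 2 + B * (v : ℕ) + C : ℤ) : ℝ) / q))‖ ≤ wt q (N + 1) ((2 * A * ((h : ℤ) + 1)) % q).toNat := by
    intro h hh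
    have h3 : ∑ v ∈ range (N - h), ee (((A * (v + h + 1 : ℕ) ^ 2 + B * (v + h + 1 : ℕ) + C : ℤ) : ℝ) / q) *
        star (ee (((A * (v : ℕ) ^ 2 + B * (v : ℕ) + C : ℤ) : ℝ) / q)) =
        ee (((A * (h + 1) ^ 2 + B * (h + 1) : ℤ) : ℝ) / q) *
          ∑ v ∈ range (N - h), ee (((2 * A * ((h : ℤ) + 1)) * v : ℤ) / (q : ℝ)) := by
      rw [Finset.mul_sum]
      refine Finset.sum_congr rfl fun v _ => ?_
      rw [ee_mul_star, ← ee_add]
      congr 1
      push_cast
      ring
    rw [h3, norm_mul, norm_ee, one_mul]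
    exact geo q (N + 1) (N - h) hq0 (by omega) _
  have h4 : ∑ h ∈ range N, wt q (N + 1) ((2 * A * ((h : ℤ) + 1)) % q).toNat ≤
      ∑ h ∈ range ((N / q + 1) * q), wt q (N + 1) ((2 * A * ((h : ℤ) + 1)) % q).toNat := by
    refine Finset.sum_le_sum_of_subset_of_nonneg ?_ ?_
    · refine Finset.range_subset_range.mpr ?_
      have := Nat.lt_div_mul_add hq0 (a := N)
      rw [add_mul, one_mul]
      omega
    · intro i _ _
      apply wt_nonneg
      have hr0 : 0 ≤ (2 * A * ((i : ℤ) + 1)) % q := Int.emod_nonneg _ (by omega)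
      have hr1 : (2 * A * ((i : ℤ) + 1)) % q < q := Int.emod_lt_of_pos _ (by omega)
      omega
  have h5 := blocks q (N + 1) hq A hA (N / q + 1)
  have h6 : (((N / q + 1 : ℕ)) : ℝ) ≤ ((N + 1 : ℕ) : ℝ) / q + 1 := by
    push_cast
    have : ((N / q : ℕ) : ℝ) ≤ (N : ℝ) / q := Nat.cast_div_le
    have h7 : (N : ℝ) / q ≤ ((N : ℝ) + 1) / q := by gcongr; linarith
    linarith
  have h8 := Finset.sum_le_sum h2
  have h9 : ∑ u ∈ range (N + 1), ‖ee (((A * u ^ 2 + B * u + C : ℤ) : ℝ) / q)‖ ^ 2 = ((N + 1 : ℕ) : ℝ) := by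
    simp [norm_ee]
  have h10 : ((N / q + 1 : ℕ) : ℝ) * (((N + 1 : ℕ) : ℝ) + q * (1 + Real.log q)) ≤
      (((N + 1 : ℕ) : ℝ) / q + 1) * (((N + 1 : ℕ) : ℝ) + q * (1 + Real.log q)) :=
    mul_le_mul_of_nonneg_right h6 (by positivity)
  rw [h9] at h1
  linarith

end Pool.Agent.Lib.MP_be2ccc_co.AW
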