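import Mathlib
import Pool.Agent.Lib.MP_be2ccc_co.AW.Lam
import Pool.Agent.Lib.MP_be2ccc_co.AW.Weyl
import Pool.Agent.Lib.MP_be2ccc_co.AW.CountQ

/-!
# The two parts of the mean square
-/

set_option autoImplicit false

namespace Pool.Agent.Lib.MP_be2ccc_co.AW

open Finset Pool.BV

/-- the one-dimensional sum -/
noncomputable def VB_S (W c U : ℕ) (θ : ℝ) : ℂ :=
  ∑ u ∈ range U, ee (-(((c + 2 * W * u) ^ 2 : ℕ) : ℝ) * θ)

theorem VB_prod (W c d U : ℕ) (θ : ℝ) : Gs W c d U θ = VB_S W c U θ * VB_S W d U θ := by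
  unfold Gs VB_S
  rw [Finset.sum_mul_sum]
  refine Finset.sum_congr rfl fun u _ => Finset.sum_congr rfl fun v _ => ?_
  rw [← ee_add]
  congr 1
  unfold sh
  push_cast
  ring

theorem VB_trivial (W c U : ℕ) (θ : ℝ) : ‖VB_S W c U θ‖ ≤ U := by
  unfold VB_S
  refine (norm_sum_le _ _).trans ?_
  rw [Finset.sum_congr rfl fun u _ => norm_ee _]
  simp

theorem VB_cop (W q a : ℕ) (hq : q.Coprime (2 * W)) (ha : a.Coprime q) :
    IsCoprime (-(4 * (W : ℤ) ^ 2 * a)) (q : ℤ) := by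
  rw [IsCoprime.neg_left_iff]
  have h1 : IsCoprime ((2 * W : ℕ) : ℤ) (q : ℤ) := Nat.isCoprime_iff_coprime.mpr hq.symm
  have h2 : IsCoprime (a : ℤ) (q : ℤ) := Nat.isCoprime_iff_coprime.mpr ha
  have h3 : (4 * (W : ℤ) ^ 2 * a) = ((2 * W : ℕ) : ℤ) * ((2 * W : ℕ) : ℤ) * a := by
    push_cast
    ring
  rw [h3]
  exact (h1.mul_left h1).mul_left h2

theorem VB_odd (W q : ℕ) (hq : q.Coprime (2 * W)) : Odd q := by
  rw [← Nat.coprime_two_right]
  exact Nat.Coprime.coprime_dvd_right (dvd_mul_right 2 W) hq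

/-- Weyl bound for the one-dimensional sum -/
theorem VB_weyl (W c U q Q a : ℕ) (hq1 : 1 ≤ q) (hqQ : q ≤ Q) (hq : q.Coprime (2 * W))
    (ha : a.Coprime q) (hQ : (Q : ℝ) * (1 + Real.log Q) ≤ U) :
    ‖VB_S W c U ((a : ℝ) / q)‖ ^ 2 ≤ 9 * (U : ℝ) ^ 2 / q := by
  have hq0 : (0 : ℝ) < q := by exact_mod_cast hq1
  have hq1' : (1 : ℝ) ≤ q := by exact_mod_cast hq1
  have hqQ' : (q : ℝ) ≤ Q := by exact_mod_cast hqQ
  have e1 : VB_S W c U ((a : ℝ) / q) = ∑ u ∈ range U,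
      ee (((-(4 * (W : ℤ) ^ 2 * a) * u ^ 2 + (-(4 * (W : ℤ) * c * a)) * u + (-((c : ℤ) ^ 2 * a)) : ℤ) : ℝ) / q) := by
    unfold VB_S
    refine Finset.sum_congr rfl fun u _ => ?_
    congr 1
    push_cast
    ring
  rw [e1]
  refine (weyl q (VB_odd W q hq) _ _ _ (VB_cop W q a hq ha) U).trans ?_
  have hlog0 : 0 ≤ Real.log q := Real.log_nonneg hq1'
  have hlog : Real.log q ≤ Real.log Q := Real.log_le_log hq0 hqQ'
  have h1 : (q : ℝ) * (1 + Real.log q) ≤ U := by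
    calc (q : ℝ) * (1 + Real.log q) ≤ Q * (1 + Real.log Q) := by gcongr
      _ ≤ U := hQ
  have h2 : (q : ℝ) ≤ U := by nlinarith
  have hU0 : (0 : ℝ) ≤ U := by positivity
  have h3 : (U : ℝ) ≤ (U : ℝ) ^ 2 / q := by
    rw [le_div_iff₀ hq0]
    nlinarith
  calc (U : ℝ) + 2 * ((U : ℝ) / q + 1) * (U + q * (1 + Real.log q))
      ≤ (U : ℝ) + 2 * ((U : ℝ) / q + 1) * (U + U) := by gcongr
    _ = 5 * U + 4 * ((U : ℝ) ^ 2 / q) := by ring
    _ ≤ 5 * ((U : ℝ) ^ 2 / q) + 4 * ((U : ℝ) ^ 2 / q) := by gcongr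
    _ = 9 * (U : ℝ) ^ 2 / q := by ring

theorem VB_lam_sq (W z q : ℕ) (hW : W ≠ 0) (hq : 0 < q) :
    lam W z q ^ 2 ≤ Kw W ^ 2 / (q : ℝ) ^ 2 := by
  have h := lam_abs W z q hW hq
  have h0 : 0 ≤ |lam W z q| := abs_nonneg _
  rw [← sq_abs, ← div_pow]
  gcongr

theorem VB_card (q : ℕ) : (((range q).filter (fun a => a.Coprime q)).card : ℝ) ≤ q := by
  have : ((range q).filter (fun a => a.Coprime q)).card ≤ q := by
    refine (Finset.card_filter_le _ _).trans ?_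
    rw [Finset.card_range]
  exact_mod_cast this

theorem VB_tele (P Q : ℕ) (hPQ : P ≤ Q) :
    ∑ q ∈ Ioc P Q, (1 / ((q : ℝ) - 1) ^ 2 - 1 / (q : ℝ) ^ 2) = 1 / (P : ℝ) ^ 2 - 1 / (Q : ℝ) ^ 2 := by
  induction Q, hPQ using Nat.le_induction with
  | base => simp
  | succ n hn ih =>
    rw [← Finset.insert_Ioc_right_eq_Ioc_add_one hn, Finset.sum_insert (by simp), ih]
    push_cast
    rw [add_sub_cancel_right]
    ring

theorem VB_cube (q : ℕ) (hq : 2 ≤ q) :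
    1 / (q : ℝ) ^ 3 ≤ 1 / ((q : ℝ) - 1) ^ 2 - 1 / (q : ℝ) ^ 2 := by
  have h : (2 : ℝ) ≤ q := by exact_mod_cast hq
  have h1 : (0 : ℝ) < q - 1 := by linarith
  have h2 : (0 : ℝ) < q := by linarith
  rw [div_sub_div _ _ (by positivity) (by positivity), div_le_div_iff₀ (by positivity) (by positivity)]
  nlinarith [mul_pos h1 h2, mul_pos (mul_pos h2 h2) h2, mul_pos (mul_pos h2 h2) (mul_pos h2 h2), mul_pos (mul_pos h2 h2) h1]

/-- small denominators: `‖Gs‖² ≤ 81 U⁴ / q²` by `weyl` -/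
theorem V1_bound (W c d U z Q P : ℕ) (hW : W ≠ 0) (hP1 : 1 ≤ P)
    (hP : ∀ q, 1 < q → q.Coprime (2 * W) → P < q) (hQ : (Q : ℝ) * (1 + Real.log Q) ≤ U) :
    ∑ q ∈ Icc 2 Q, lam W z q ^ 2 * ∑ a ∈ (range q).filter (fun a => a.Coprime q),
      ‖Gs W c d U ((a : ℝ) / q)‖ ^ 2 ≤ 81 * Kw W ^ 2 * (U : ℝ) ^ 4 / (P : ℝ) ^ 2 := by
  have hterm : ∀ q ∈ Icc 2 Q, lam W z q ^ 2 * ∑ a ∈ (range q).filter (fun a => a.Coprime q),
      ‖Gs W c d U ((a : ℝ) / q)‖ ^ 2 ≤
      if P < q then 81 * Kw W ^ 2 * (U : ℝ) ^ 4 * (1 / ((q : ℝ) - 1) ^ 2 - 1 / (q : ℝ) ^ 2) else 0 := by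
    intro q hq
    rw [Finset.mem_Icc] at hq
    by_cases hc : q.Coprime (2 * W)
    · rw [if_pos (hP q (by omega) hc)]
      have hq0 : (0 : ℝ) < q := by
        have : 0 < q := by omega
        exact_mod_cast this
      have h1 : ∑ a ∈ (range q).filter (fun a => a.Coprime q), ‖Gs W c d U ((a : ℝ) / q)‖ ^ 2 ≤
          q * (81 * (U : ℝ) ^ 4 / (q : ℝ) ^ 2) := by
        have h2 : ∀ a ∈ (range q).filter (fun a => a.Coprime q),
            ‖Gs W c d U ((a : ℝ) / q)‖ ^ 2 ≤ 81 * (U : ℝ) ^ 4 / (q : ℝ) ^ 2 := by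
          intro a ha
          rw [Finset.mem_filter] at ha
          rw [VB_prod, norm_mul, mul_pow]
          have b1 := VB_weyl W c U q Q a (by omega) hq.2 hc ha.2 hQ
          have b2 := VB_weyl W d U q Q a (by omega) hq.2 hc ha.2 hQ
          calc _ ≤ (9 * (U : ℝ) ^ 2 / q) * (9 * (U : ℝ) ^ 2 / q) := by gcongr
            _ = 81 * (U : ℝ) ^ 4 / (q : ℝ) ^ 2 := by
              field_simp
              ring
        calc _ ≤ ∑ a ∈ (range q).filter (fun a => a.Coprime q), 81 * (U : ℝ) ^ 4 / (q : ℝ) ^ 2 :=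
              Finset.sum_le_sum h2
          _ = ((range q).filter (fun a => a.Coprime q)).card * (81 * (U : ℝ) ^ 4 / (q : ℝ) ^ 2) := by
              rw [Finset.sum_const, nsmul_eq_mul]
          _ ≤ _ := mul_le_mul_of_nonneg_right (VB_card q) (by positivity)
      calc _ ≤ (Kw W ^ 2 / (q : ℝ) ^ 2) * (q * (81 * (U : ℝ) ^ 4 / (q : ℝ) ^ 2)) := by
            gcongr
            exact VB_lam_sq W z q hW (by omega)
        _ = 81 * Kw W ^ 2 * (U : ℝ) ^ 4 * (1 / (q : ℝ) ^ 3) := by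
            field_simp
        _ ≤ _ := by
            gcongr
            exact VB_cube q (by omega)
    · rw [lam_eq_zero W z q hc]
      have hz : (0 : ℝ) ^ 2 * ∑ a ∈ (range q).filter (fun a => a.Coprime q),
        ‖Gs W c d U ((a : ℝ) / q)‖ ^ 2 = 0 := by ring
      rw [hz]
      split_ifs with h
      · have := VB_cube q (by omega)
        have h3 : (0 : ℝ) ≤ 1 / (q : ℝ) ^ 3 := by positivity
        have h4 : (0 : ℝ) ≤ 1 / ((q : ℝ) - 1) ^ 2 - 1 / (q : ℝ) ^ 2 := h3.trans this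
        positivity
      · exact le_rfl
  refine (Finset.sum_le_sum hterm).trans ?_
  rw [← Finset.sum_filter]
  have hsub : (Icc 2 Q).filter (fun q => P < q) = Ioc P Q := by
    ext q
    simp only [Finset.mem_filter, Finset.mem_Icc, Finset.mem_Ioc]
    omega
  rw [hsub, ← Finset.mul_sum]
  rcases le_or_gt P Q with h | h
  · rw [VB_tele P Q h]
    have h5 : (0 : ℝ) ≤ 1 / (Q : ℝ) ^ 2 := by positivity
    calc _ ≤ 81 * Kw W ^ 2 * (U : ℝ) ^ 4 * (1 / (P : ℝ) ^ 2) := by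
          gcongr
          linarith
      _ = _ := by ring
  · rw [Finset.Ioc_eq_empty_of_le h.le, Finset.sum_empty, mul_zero]
    positivity

/-- large denominators: `count_q` -/
theorem V2_bound (W c d U z Q : ℕ) (hW : W ≠ 0) (hQ : 1 ≤ Q) :
    ∑ q ∈ Ioc Q z, lam W z q ^ 2 * ∑ a ∈ (range q).filter (fun a => a.Coprime q),
      ‖Gs W c d U ((a : ℝ) / q)‖ ^ 2 ≤
        Kw W ^ 2 * (U : ℝ) ^ 2 * (1 + Real.log z) * (3 * U + 4 * (U : ℝ) ^ 2 / Real.sqrt Q) := by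
  have hQ0 : (0 : ℝ) < Q := by exact_mod_cast hQ
  have hsQ : 0 < Real.sqrt Q := Real.sqrt_pos.mpr hQ0
  set B : ℝ := 3 * U + 4 * (U : ℝ) ^ 2 / Real.sqrt Q with hB
  have hB0 : 0 ≤ B := by positivity
  have hterm : ∀ q ∈ Ioc Q z, lam W z q ^ 2 * ∑ a ∈ (range q).filter (fun a => a.Coprime q),
      ‖Gs W c d U ((a : ℝ) / q)‖ ^ 2 ≤ Kw W ^ 2 * (U : ℝ) ^ 2 * B * (1 / (q : ℝ)) := by
    intro q hq
    rw [Finset.mem_Ioc] at hq
    have hq0 : (0 : ℝ) < q := by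
      have : 0 < q := by omega
      exact_mod_cast this
    by_cases hc : q.Coprime (2 * W)
    · have hcW : q.Coprime W := Nat.Coprime.coprime_dvd_right (dvd_mul_left W 2) hc
      have h1 : ∑ a ∈ (range q).filter (fun a => a.Coprime q), ‖Gs W c d U ((a : ℝ) / q)‖ ^ 2 ≤
          (U : ℝ) ^ 2 * (q * B) := by
        calc _ ≤ ∑ a ∈ range q, ‖Gs W c d U ((a : ℝ) / q)‖ ^ 2 :=
              Finset.sum_le_sum_of_subset_of_nonneg (Finset.filter_subset _ _)
                fun _ _ _ => by positivity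
          _ ≤ ∑ a ∈ range q, (U : ℝ) ^ 2 * ‖VB_S W c U ((a : ℝ) / q)‖ ^ 2 := by
              refine Finset.sum_le_sum fun a _ => ?_
              rw [VB_prod, norm_mul, mul_pow, mul_comm]
              have := VB_trivial W d U ((a : ℝ) / q)
              gcongr
          _ = (U : ℝ) ^ 2 * ∑ a ∈ range q, ‖VB_S W c U ((a : ℝ) / q)‖ ^ 2 := by
              rw [Finset.mul_sum]
          _ ≤ (U : ℝ) ^ 2 * (q * (3 * U + 4 * (U : ℝ) ^ 2 / Real.sqrt q)) := by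
              gcongr
              exact count_q q (VB_odd W q hc) W c U hcW
          _ ≤ (U : ℝ) ^ 2 * (q * B) := by
              rw [hB]
              have : (Q : ℝ) ≤ q := by exact_mod_cast hq.1.le
              gcongr
      calc _ ≤ (Kw W ^ 2 / (q : ℝ) ^ 2) * ((U : ℝ) ^ 2 * (q * B)) := by
            gcongr
            exact VB_lam_sq W z q hW (by omega)
        _ = _ := by
            field_simp
    · rw [lam_eq_zero W z q hc]
      have hz : (0 : ℝ) ^ 2 * ∑ a ∈ (range q).filter (fun a => a.Coprime q),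
        ‖Gs W c d U ((a : ℝ) / q)‖ ^ 2 = 0 := by ring
      rw [hz]
      positivity
  refine (Finset.sum_le_sum hterm).trans ?_
  rw [← Finset.mul_sum]
  have hlog : ∑ q ∈ Ioc Q z, 1 / (q : ℝ) ≤ 1 + Real.log z := by
    calc _ ≤ ∑ q ∈ Icc 1 z, 1 / (q : ℝ) := by
          refine Finset.sum_le_sum_of_subset_of_nonneg ?_ fun _ _ _ => by positivity
          intro q hq
          rw [Finset.mem_Ioc] at hq
          rw [Finset.mem_Icc]
          omega
      _ = (harmonic z : ℝ) := by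
          rw [harmonic_eq_sum_Icc]
          push_cast
          refine Finset.sum_congr rfl fun q _ => ?_
          rw [one_div]
      _ ≤ 1 + Real.log z := harmonic_le_one_add_log z
  calc _ ≤ Kw W ^ 2 * (U : ℝ) ^ 2 * B * (1 + Real.log z) := by gcongr
    _ = _ := by ring

end Pool.Agent.Lib.MP_be2ccc_co.AW
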