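import Mathlib
import Pool.Agent.Lib.MP_be2ccc_co.AW.Tform
import Pool.Agent.Lib.MP_be2ccc_co.AW.VB
import Pool.Agent.Lib.MP_be2ccc_co.AW.Dual

/-!
# The variance
-/

set_option autoImplicit false

namespace Pool.Agent.Lib.MP_be2ccc_co.AW

open Finset Pool.BV

theorem Var_Gs_zero (W c d U : ℕ) : Gs W c d U 0 = (U : ℂ) ^ 2 := by
  unfold Gs
  simp only [mul_zero, ee_zero, Finset.sum_const, Finset.card_range, nsmul_eq_mul, mul_one]
  ring

/-- the inner sum for one denominator -/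
noncomputable def Var_I (W c d U z q n : ℕ) : ℂ :=
  ∑ a ∈ (range q).filter (fun a => a.Coprime q),
    ((lam W z q : ℂ) * Gs W c d U ((a : ℝ) / q)) * ee ((n : ℝ) * ((a : ℝ) / q))

theorem Var_one (W c d U z n : ℕ) : Var_I W c d U z 1 n = (lam W z 1 : ℂ) * (U : ℂ) ^ 2 := by
  have h : (range 1).filter (fun a => a.Coprime 1) = {0} := by decide
  unfold Var_I
  rw [h, Finset.sum_singleton]
  simp only [Nat.cast_zero, zero_div, mul_zero, ee_zero, mul_one, Var_Gs_zero]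

theorem Var_zero (W c d U z q n : ℕ) (hq : ¬ q.Coprime (2 * W)) : Var_I W c d U z q n = 0 := by
  unfold Var_I
  rw [lam_eq_zero W z q hq]
  simp

/-- the large sieve for a set of denominators -/
theorem Var_ls (W c d U z R N n₀ : ℕ) (hN : 0 < N) (S : Finset ℕ) (hS : ∀ q ∈ S, 1 ≤ q ∧ q ≤ R) :
    ∑ l ∈ range N, ‖∑ q ∈ S, Var_I W c d U z q (n₀ + 4 * W * l)‖ ^ 2 ≤
      ((R : ℝ) ^ 2 + 4 * Real.pi * N) * ∑ q ∈ S, lam W z q ^ 2 *
        ∑ a ∈ (range q).filter (fun a => a.Coprime q), ‖Gs W c d U ((a : ℝ) / q)‖ ^ 2 := by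
  classical
  set S' : Finset ℕ := S.filter (fun q => q.Coprime (2 * W)) with hS'
  have hsub : S' ⊆ S := Finset.filter_subset _ _
  have e1 : ∀ n : ℕ, ∑ q ∈ S, Var_I W c d U z q n = ∑ q ∈ S', Var_I W c d U z q n := by
    intro n
    rw [hS', Finset.sum_filter]
    refine Finset.sum_congr rfl fun q _ => ?_
    split_ifs with h
    · rfl
    · exact Var_zero W c d U z q n h
  have key := ls_frac W R N n₀ hN S' (fun q hq => by
    rw [hS', Finset.mem_filter] at hq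
    exact ⟨(hS q hq.1).1, (hS q hq.1).2, hq.2⟩)
    (fun q a => (lam W z q : ℂ) * Gs W c d U ((a : ℝ) / q))
  have e2 : ∑ l ∈ range N, ‖∑ q ∈ S, Var_I W c d U z q (n₀ + 4 * W * l)‖ ^ 2 =
      ∑ l ∈ range N, ‖∑ q ∈ S', ∑ a ∈ (range q).filter (fun a => a.Coprime q),
        ((lam W z q : ℂ) * Gs W c d U ((a : ℝ) / q)) *
          ee (((n₀ + 4 * W * l : ℕ) : ℝ) * ((a : ℝ) / q))‖ ^ 2 := by
    refine Finset.sum_congr rfl fun l _ => ?_
    rw [e1]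
    rfl
  rw [e2]
  refine key.trans ?_
  have hpi := Real.pi_pos
  have e3 : ∑ q ∈ S', ∑ a ∈ (range q).filter (fun a => a.Coprime q),
      ‖(lam W z q : ℂ) * Gs W c d U ((a : ℝ) / q)‖ ^ 2 ≤ ∑ q ∈ S, lam W z q ^ 2 *
        ∑ a ∈ (range q).filter (fun a => a.Coprime q), ‖Gs W c d U ((a : ℝ) / q)‖ ^ 2 := by
    have e4 : ∀ q, ∑ a ∈ (range q).filter (fun a => a.Coprime q),
      ‖(lam W z q : ℂ) * Gs W c d U ((a : ℝ) / q)‖ ^ 2 = lam W z q ^ 2 *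
        ∑ a ∈ (range q).filter (fun a => a.Coprime q), ‖Gs W c d U ((a : ℝ) / q)‖ ^ 2 := by
      intro q
      rw [Finset.mul_sum]
      refine Finset.sum_congr rfl fun a _ => ?_
      rw [norm_mul, mul_pow, Complex.norm_real, Real.norm_eq_abs, sq_abs]
    rw [Finset.sum_congr rfl fun q _ => e4 q]
    exact Finset.sum_le_sum_of_subset_of_nonneg hsub fun q _ _ =>
      mul_nonneg (sq_nonneg _) (Finset.sum_nonneg fun _ _ => by positivity)
  exact mul_le_mul_of_nonneg_left e3 (by positivity)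

/-- `Tn_eq`; the term `q = 1` is `lam W z 1 * U²`; the terms `2 ≤ q ≤ Q` and `Q < q ≤ z` are
treated with `ls_frac`, `V1_bound`, `V2_bound` and `|x + y|² ≤ 2|x|² + 2|y|²`. -/
theorem variance (W c d U z Q P N n₀ : ℕ) (hW : W ≠ 0) (hP1 : 1 ≤ P) (hN : 0 < N)
    (hP : ∀ q, 1 < q → q.Coprime (2 * W) → P < q) (hQ1 : 1 ≤ Q)
    (hQ : (Q : ℝ) * (1 + Real.log Q) ≤ U) (hz : 1 ≤ z)
    (hpos : ∀ l < N, ∀ u < U, ∀ v < U, sh W c d u v < n₀ + 4 * W * l)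
    (hcop : ∀ l < N, ∀ u < U, ∀ v < U, (n₀ + 4 * W * l - sh W c d u v).Coprime W) :
    ∑ l ∈ range N, ((Tn W c d U z (n₀ + 4 * W * l) : ℝ) - lam W z 1 * (U : ℝ) ^ 2) ^ 2 ≤
      2 * ((Q : ℝ) ^ 2 + 4 * Real.pi * N) * (81 * Kw W ^ 2 * (U : ℝ) ^ 4 / (P : ℝ) ^ 2) +
      2 * ((z : ℝ) ^ 2 + 4 * Real.pi * N) * (Kw W ^ 2 * (U : ℝ) ^ 2 * (1 + Real.log z) *
        (3 * U + 4 * (U : ℝ) ^ 2 / Real.sqrt Q)) := by
  classical
  have hpi := Real.pi_pos
  set S1 : Finset ℕ := Icc 2 (min Q z) with hS1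
  set S2 : Finset ℕ := Ioc Q z with hS2
  have hdisj : Disjoint S1 S2 := by
    rw [Finset.disjoint_left]
    intro q h1 h2
    rw [hS1, Finset.mem_Icc] at h1
    rw [hS2, Finset.mem_Ioc] at h2
    omega
  have hsplit : Icc 1 z = insert 1 (S1 ∪ S2) := by
    ext q
    simp only [hS1, hS2, Finset.mem_Icc, Finset.mem_insert, Finset.mem_union, Finset.mem_Ioc]
    omega
  have h1not : 1 ∉ S1 ∪ S2 := by
    simp only [hS1, hS2, Finset.mem_Icc, Finset.mem_union, Finset.mem_Ioc]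
    omega
  have hT : ∀ l < N, ((Tn W c d U z (n₀ + 4 * W * l) : ℂ)) - (lam W z 1 : ℂ) * (U : ℂ) ^ 2 =
      ∑ q ∈ S1, Var_I W c d U z q (n₀ + 4 * W * l) + ∑ q ∈ S2, Var_I W c d U z q (n₀ + 4 * W * l) := by
    intro l hl
    have h1 := Tn_eq W c d U z (n₀ + 4 * W * l) (hpos l hl) (hcop l hl)
    have h2 : (Tn W c d U z (n₀ + 4 * W * l) : ℂ) =
        ∑ q ∈ Icc 1 z, Var_I W c d U z q (n₀ + 4 * W * l) := by
      rw [h1]
      refine Finset.sum_congr rfl fun q _ => ?_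
      unfold Var_I
      rw [Finset.mul_sum]
      refine Finset.sum_congr rfl fun a _ => ?_
      ring
    rw [h2, hsplit, Finset.sum_insert h1not, Finset.sum_union hdisj, Var_one]
    ring
  have hbound : ∀ l ∈ range N,
      ((Tn W c d U z (n₀ + 4 * W * l) : ℝ) - lam W z 1 * (U : ℝ) ^ 2) ^ 2 ≤
      2 * ‖∑ q ∈ S1, Var_I W c d U z q (n₀ + 4 * W * l)‖ ^ 2 +
      2 * ‖∑ q ∈ S2, Var_I W c d U z q (n₀ + 4 * W * l)‖ ^ 2 := by
    intro l hl
    have h1 := hT l (Finset.mem_range.mp hl)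
    have h2 : (((Tn W c d U z (n₀ + 4 * W * l) : ℝ) - lam W z 1 * (U : ℝ) ^ 2 : ℝ) : ℂ) =
        ∑ q ∈ S1, Var_I W c d U z q (n₀ + 4 * W * l) +
          ∑ q ∈ S2, Var_I W c d U z q (n₀ + 4 * W * l) := by
      rw [← h1]
      push_cast
      ring
    rw [← sq_abs, ← Real.norm_eq_abs, ← Complex.norm_real, h2]
    have h3 := norm_add_le (∑ q ∈ S1, Var_I W c d U z q (n₀ + 4 * W * l))
      (∑ q ∈ S2, Var_I W c d U z q (n₀ + 4 * W * l))
    set x := ‖∑ q ∈ S1, Var_I W c d U z q (n₀ + 4 * W * l)‖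
    set y := ‖∑ q ∈ S2, Var_I W c d U z q (n₀ + 4 * W * l)‖
    calc _ ≤ (x + y) ^ 2 := by gcongr
      _ ≤ 2 * x ^ 2 + 2 * y ^ 2 := by nlinarith [sq_nonneg (x - y)]
  refine (Finset.sum_le_sum hbound).trans ?_
  rw [Finset.sum_add_distrib, ← Finset.mul_sum, ← Finset.mul_sum]
  have hA := Var_ls W c d U z Q N n₀ hN S1 (fun q hq => by
    rw [hS1, Finset.mem_Icc] at hq
    omega)
  have hB := Var_ls W c d U z z N n₀ hN S2 (fun q hq => by
    rw [hS2, Finset.mem_Ioc] at hq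
    omega)
  have hV1 := V1_bound W c d U z Q P hW hP1 hP hQ
  have hV2 := V2_bound W c d U z Q hW hQ1
  have hV1' : ∑ q ∈ S1, lam W z q ^ 2 * ∑ a ∈ (range q).filter (fun a => a.Coprime q),
      ‖Gs W c d U ((a : ℝ) / q)‖ ^ 2 ≤ 81 * Kw W ^ 2 * (U : ℝ) ^ 4 / (P : ℝ) ^ 2 := by
    refine le_trans ?_ hV1
    refine Finset.sum_le_sum_of_subset_of_nonneg ?_ fun q _ _ =>
      mul_nonneg (sq_nonneg _) (Finset.sum_nonneg fun _ _ => by positivity)
    intro q hq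
    rw [hS1, Finset.mem_Icc] at hq
    rw [Finset.mem_Icc]
    omega
  have hA' := hA.trans (mul_le_mul_of_nonneg_left hV1' (by positivity))
  have hB' := hB.trans (mul_le_mul_of_nonneg_left hV2 (by positivity))
  calc _ ≤ 2 * (((Q : ℝ) ^ 2 + 4 * Real.pi * N) * (81 * Kw W ^ 2 * (U : ℝ) ^ 4 / (P : ℝ) ^ 2)) +
        2 * (((z : ℝ) ^ 2 + 4 * Real.pi * N) * (Kw W ^ 2 * (U : ℝ) ^ 2 * (1 + Real.log z) *
        (3 * U + 4 * (U : ℝ) ^ 2 / Real.sqrt Q))) := by gcongr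
    _ = _ := by ring

end Pool.Agent.Lib.MP_be2ccc_co.AW
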