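import Mathlib
import Pool.Agent.Lib.MP_be2ccc_co.AW.Jac
import Pool.Agent.Lib.MP_be2ccc_co.AW.Hyp
import Pool.Agent.Lib.MP_be2ccc_co.AW.Var
import Pool.Agent.Lib.MP_be2ccc_co.AW.First

/-!
# Exceptional numbers in one residue class
-/

set_option autoImplicit false

namespace Pool.Agent.Lib.MP_be2ccc_co.AW

open Finset Pool.BV

/-- no decomposition with second summand at most `S` -/
def Bad (S n : ℕ) : Prop := ¬ ∃ s₁ s₂, S2 s₁ ∧ S2 s₂ ∧ s₁ + s₂ = n ∧ s₂ ≤ S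

lemma Bad.mono {S T n : ℕ} (h : S ≤ T) (hb : Bad T n) : Bad S n := by
  rintro ⟨s₁, s₂, h1, h2, h3, h4⟩
  exact hb ⟨s₁, s₂, h1, h2, h3, h4.trans h⟩

lemma S2_sh (W c d u v : ℕ) : S2 (sh W c d u v) := ⟨_, _, rfl⟩

/-- in the bad case the truncated sum is small -/
lemma Tn_le_of_bad (W c d U z y n S : ℕ) (hzy : z ≤ y)
    (hsh : ∀ u < U, ∀ v < U, sh W c d u v ≤ S) (hS : S < n)
    (hmod : ∀ u < U, ∀ v < U, (n - sh W c d u v) % 4 = 1) (h1 : z * y < n - S) (h2 : n ≤ y * y)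
    (hbad : Bad S n) :
    Tn W c d U z n ≤ ∑ u ∈ range U, ∑ v ∈ range U, (dz z y (n - sh W c d u v) : ℤ) := by
  unfold Tn
  refine Finset.sum_le_sum fun u hu => Finset.sum_le_sum fun v hv => ?_
  rw [mem_range] at hu hv
  have h3 := hsh u hu v hv
  have h4 : rs (n - sh W c d u v) = 0 := by
    by_contra hne
    exact hbad ⟨n - sh W c d u v, sh W c d u v, S2_of_rs _ hne, S2_sh _ _ _ _ _, by omega, h3⟩
  have h5 := rs_ge (n - sh W c d u v) z y (hmod u hu v hv) (by omega) (by omega) hzy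
  rw [h4] at h5
  omega

open Classical in
theorem class_bad (W c d U z y Q P N n₀ S : ℕ) (hW : W ≠ 0) (hP1 : 1 ≤ P) (hN : 0 < N)
    (hP : ∀ q, 1 < q → q.Coprime (2 * W) → P < q) (hQ1 : 1 ≤ Q)
    (hQ : (Q : ℝ) * (1 + Real.log Q) ≤ U) (hz : 1 ≤ z) (hzy : z ≤ y) (hU : 1 ≤ U)
    (hsh : ∀ u < U, ∀ v < U, sh W c d u v ≤ S) (hS : S < n₀)
    (hmod : ∀ l < N, ∀ u < U, ∀ v < U, (n₀ + 4 * W * l - sh W c d u v) % 4 = 1 ∧
      (n₀ + 4 * W * l - sh W c d u v).Coprime W)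
    (h1 : z * y < n₀ - S) (h2 : n₀ + 4 * W * N ≤ y * y) (hlam : 0 < lam W z 1) :
    (((range N).filter (fun l => Bad S (n₀ + 4 * W * l))).card : ℝ) ≤
      8 * Kw W ^ 2 / lam W z 1 ^ 2 * (((Q : ℝ) ^ 2 + 4 * Real.pi * N) * (81 / (P : ℝ) ^ 2) +
        ((z : ℝ) ^ 2 + 4 * Real.pi * N) * ((1 + Real.log z) * (3 / U + 4 / Real.sqrt Q))) +
      2 / lam W z 1 * (((y - z) * (N / z + 1) : ℕ) : ℝ) := by
  set lm := lam W z 1 with hlm
  set T : ℕ → ℝ := fun l => (Tn W c d U z (n₀ + 4 * W * l) : ℝ) with hT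
  set E : ℕ → ℝ := fun l => ∑ u ∈ range U, ∑ v ∈ range U, (dz z y (n₀ + 4 * W * l - sh W c d u v) : ℝ) with hE
  have hUR : (1 : ℝ) ≤ U := by exact_mod_cast hU
  have hM : 0 < lm * (U : ℝ) ^ 2 := by positivity
  have hvar := variance W c d U z Q P N n₀ hW hP1 hN hP hQ1 hQ hz
    (fun l _ u hu v hv => by have := hsh u hu v hv; omega)
    (fun l hl u hu v hv => (hmod l hl u hu v hv).2)
  -- the two exceptional sets
  set A1 := (range N).filter (fun l => (lm * (U : ℝ) ^ 2 / 2) ^ 2 ≤ (T l - lm * (U : ℝ) ^ 2) ^ 2) with hA1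
  set A2 := (range N).filter (fun l => lm * (U : ℝ) ^ 2 / 2 ≤ E l) with hA2
  have hsub : (range N).filter (fun l => Bad S (n₀ + 4 * W * l)) ⊆ A1 ∪ A2 := by
    intro l hl
    rw [mem_filter, mem_range] at hl
    rw [mem_union, hA1, hA2, mem_filter, mem_filter, mem_range]
    have h3 := Tn_le_of_bad W c d U z y (n₀ + 4 * W * l) S hzy hsh (by omega)
      (fun u hu v hv => (hmod l hl.1 u hu v hv).1) (by omega) ?_ hl.2
    · have h4 : T l ≤ E l := by
        have h5 : ((Tn W c d U z (n₀ + 4 * W * l) : ℤ) : ℝ) ≤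
          ((∑ u ∈ range U, ∑ v ∈ range U, (dz z y (n₀ + 4 * W * l - sh W c d u v) : ℤ) : ℤ) : ℝ) := by
          exact_mod_cast h3
        push_cast at h5
        exact h5
      by_cases h6 : lm * (U : ℝ) ^ 2 / 2 ≤ E l
      · exact Or.inr ⟨hl.1, h6⟩
      · left
        refine ⟨hl.1, ?_⟩
        push Not at h6
        nlinarith
    · have h7 : 4 * W * l ≤ 4 * W * N := Nat.mul_le_mul_left _ hl.1.le
      omega
  have hc1 : (A1.card : ℝ) * (lm * (U : ℝ) ^ 2 / 2) ^ 2 ≤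
      ∑ l ∈ range N, (T l - lm * (U : ℝ) ^ 2) ^ 2 := by
    calc (A1.card : ℝ) * (lm * (U : ℝ) ^ 2 / 2) ^ 2
        = ∑ l ∈ A1, (lm * (U : ℝ) ^ 2 / 2) ^ 2 := by rw [sum_const, nsmul_eq_mul]
      _ ≤ ∑ l ∈ A1, (T l - lm * (U : ℝ) ^ 2) ^ 2 :=
          Finset.sum_le_sum fun l hl => (mem_filter.1 hl).2
      _ ≤ _ := Finset.sum_le_sum_of_subset_of_nonneg (filter_subset _ _) fun _ _ _ => sq_nonneg _
  have hc2 : (A2.card : ℝ) * (lm * (U : ℝ) ^ 2 / 2) ≤
      (U : ℝ) ^ 2 * (((y - z) * (N / z + 1) : ℕ) : ℝ) := by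
    calc (A2.card : ℝ) * (lm * (U : ℝ) ^ 2 / 2)
        = ∑ l ∈ A2, (lm * (U : ℝ) ^ 2 / 2) := by rw [sum_const, nsmul_eq_mul]
      _ ≤ ∑ l ∈ A2, E l := Finset.sum_le_sum fun l hl => (mem_filter.1 hl).2
      _ ≤ ∑ l ∈ range N, E l :=
          Finset.sum_le_sum_of_subset_of_nonneg (filter_subset _ _) fun _ _ _ => by
            rw [hE]; positivity
      _ = ∑ u ∈ range U, ∑ v ∈ range U,
            ((∑ l ∈ range N, dz z y (n₀ + 4 * W * l - sh W c d u v) : ℕ) : ℝ) := by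
          rw [hE, Finset.sum_comm]
          refine Finset.sum_congr rfl fun u _ => ?_
          rw [Finset.sum_comm]
          refine Finset.sum_congr rfl fun v _ => ?_
          push_cast; rfl
      _ ≤ ∑ u ∈ range U, ∑ v ∈ range U, (((y - z) * (N / z + 1) : ℕ) : ℝ) := by
          refine Finset.sum_le_sum fun u hu => Finset.sum_le_sum fun v hv => ?_
          rw [mem_range] at hu hv
          have h3 := hmod 0 hN u hu v hv
          rw [mul_zero, add_zero] at h3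
          have h4 := hsh u hu v hv
          have h5 : (n₀ - sh W c d u v).Coprime (2 * W) := by
            refine Nat.Coprime.mul_right ?_ h3.2
            exact Nat.coprime_two_right.2 (Nat.odd_iff.2 (by omega))
          exact_mod_cast first_class W z y N n₀ (sh W c d u v) (by omega) (by omega) h5
      _ = _ := by
          rw [sum_const, sum_const, card_range, nsmul_eq_mul, nsmul_eq_mul]; ring
  have hcard : (((range N).filter (fun l => Bad S (n₀ + 4 * W * l))).card : ℝ) ≤ A1.card + A2.card := by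
    exact_mod_cast (Finset.card_le_card hsub).trans (Finset.card_union_le _ _)
  refine hcard.trans (add_le_add ?_ ?_)
  · have h3 : (A1.card : ℝ) ≤ (∑ l ∈ range N, (T l - lm * (U : ℝ) ^ 2) ^ 2) / (lm * (U : ℝ) ^ 2 / 2) ^ 2 := by
      rw [le_div_iff₀ (by positivity)]; exact hc1
    refine h3.trans ?_
    rw [div_le_iff₀ (by positivity)]
    refine hvar.trans (le_of_eq ?_)
    field_simp
    ring
  · have h3 : (A2.card : ℝ) ≤ ((U : ℝ) ^ 2 * (((y - z) * (N / z + 1) : ℕ) : ℝ)) / (lm * (U : ℝ) ^ 2 / 2) := by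
      rw [le_div_iff₀ (by positivity)]; exact hc2
    refine h3.trans (le_of_eq ?_)
    field_simp

end Pool.Agent.Lib.MP_be2ccc_co.AW
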