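import Mathlib
import Pool.Agent.Lib.MP_be2ccc_co.AW.Base

/-!
# Choice of the residue classes
-/

set_option autoImplicit false

namespace Pool.Agent.Lib.MP_be2ccc_co.AW

open Finset Pool.BV

/-- residue with a prescribed parity -/
private lemma cls_par (W : ℕ) (hW : W ≠ 0) (hodd : Odd W) (r e : ℕ) (he : e < 2) :
    ∃ c : ℕ, c < 2 * W ∧ c % 2 = e ∧ (W : ℤ) ∣ (c : ℤ) - r := by
  obtain ⟨w, hw⟩ := hodd
  obtain ⟨t, ht, htW⟩ : ∃ t : ℕ, (r + t) % 2 = e ∧ (t = 0 ∨ t = W) := by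
    by_cases h : r % 2 = e
    · exact ⟨0, by omega, Or.inl rfl⟩
    · exact ⟨W, by omega, Or.inr rfl⟩
  refine ⟨(r + t) % (2 * W), Nat.mod_lt _ (by omega), ?_, ?_⟩
  · rw [Nat.mod_mul_right_mod, ht]
  · have h1 := Nat.div_add_mod (r + t) (2 * W)
    obtain ⟨s, hs⟩ : ∃ s : ℕ, s = (r + t) / (2 * W) := ⟨_, rfl⟩
    obtain ⟨c, hc⟩ : ∃ c : ℕ, c = (r + t) % (2 * W) := ⟨_, rfl⟩
    rw [← hs, ← hc] at h1
    rw [← hc]
    have h2 : (2 * W : ℤ) * s + c = r + t := by exact_mod_cast h1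
    rcases htW with h3 | h3
    · refine ⟨-(2 * s), ?_⟩
      rw [h3] at h2
      push_cast at h2
      linarith
    · refine ⟨1 - 2 * s, ?_⟩
      rw [h3] at h2
      linarith

/-- `sh W c d u v ≡ c² + d²` modulo `4 W`. Choose `d ≡ 0 (mod W)`, `c ≡ 0` modulo the primes
`p ∣ W` not dividing `b`, `c ≡ 1` modulo the primes `p ∣ W` dividing `b`, and the parities of `c`,
`d` so that `c² + d² ≡ b - 1 (mod 4)`. -/
theorem class_exists (W : ℕ) (hW : W ≠ 0) (hodd : Odd W) (b : ℕ) (hb : b % 4 ≠ 0) :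
    ∃ c d : ℕ, c < 2 * W ∧ d < 2 * W ∧ ∀ u v n : ℕ, n % (4 * W) = b % (4 * W) →
      sh W c d u v < n → (n - sh W c d u v) % 4 = 1 ∧ (n - sh W c d u v).Coprime W := by
  classical
  obtain ⟨r, hr⟩ : ∃ r : ℕ, r = ∏ p ∈ W.primeFactors.filter (fun p => ¬ p ∣ b), p := ⟨_, rfl⟩
  obtain ⟨e, f, he, hf, hef⟩ : ∃ e f : ℕ, e < 2 ∧ f < 2 ∧ (e ^ 2 + f ^ 2 + 1) % 4 = b % 4 := by
    have h1 : b % 4 < 4 := Nat.mod_lt _ (by norm_num)
    have h2 : b % 4 = 1 ∨ b % 4 = 2 ∨ b % 4 = 3 := by omega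
    rcases h2 with h | h | h
    · exact ⟨0, 0, by norm_num, by norm_num, by norm_num [h]⟩
    · exact ⟨1, 0, by norm_num, by norm_num, by norm_num [h]⟩
    · exact ⟨1, 1, by norm_num, by norm_num, by norm_num [h]⟩
  obtain ⟨c, hc1, hc2, hc3⟩ := cls_par W hW hodd r e he
  obtain ⟨d, hd1, hd2, hd3⟩ := cls_par W hW hodd 0 f hf
  refine ⟨c, d, hc1, hd1, fun u v n hn hlt => ?_⟩
  obtain ⟨m, hm⟩ : ∃ m : ℕ, m = n - sh W c d u v := ⟨_, rfl⟩
  rw [← hm]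
  have hmz : (m : ℤ) = n - ((c + 2 * W * u) ^ 2 + (d + 2 * W * v) ^ 2) := by
    rw [hm, Nat.cast_sub hlt.le]
    unfold sh
    push_cast
    ring
  obtain ⟨k, hk⟩ : ∃ k : ℤ, (n : ℤ) = b + 4 * W * k := by
    have h1 : (n : ℤ) ≡ b [ZMOD ((4 * W : ℕ) : ℤ)] := by
      rw [Int.natCast_modEq_iff]
      exact hn
    obtain ⟨k, hk⟩ := h1.dvd
    refine ⟨-k, ?_⟩
    push_cast at hk
    linarith
  constructor
  · have hc4 : ∃ i : ℤ, (c : ℤ) = 2 * i + e := by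
      refine ⟨((c / 2 : ℕ) : ℤ), ?_⟩
      have h1 := Nat.div_add_mod c 2
      rw [hc2] at h1
      exact_mod_cast h1.symm
    have hd4 : ∃ i : ℤ, (d : ℤ) = 2 * i + f := by
      refine ⟨((d / 2 : ℕ) : ℤ), ?_⟩
      have h1 := Nat.div_add_mod d 2
      rw [hd2] at h1
      exact_mod_cast h1.symm
    have hb4 : ∃ i : ℤ, (b : ℤ) = 4 * i + ((e : ℤ) ^ 2 + f ^ 2 + 1) := by
      have h1 : ((e ^ 2 + f ^ 2 + 1 : ℕ) : ℤ) ≡ b [ZMOD ((4 : ℕ) : ℤ)] := by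
        rw [Int.natCast_modEq_iff]
        exact hef
      obtain ⟨i, hi⟩ := h1.dvd
      refine ⟨i, ?_⟩
      push_cast at hi
      linarith
    obtain ⟨i, hi⟩ := hc4
    obtain ⟨j, hj⟩ := hd4
    obtain ⟨a, ha⟩ := hb4
    have h1 : (m : ℤ) = 4 * (a + W * k - (i ^ 2 + i * e) - (j ^ 2 + j * f) -
        (c * W * u + W ^ 2 * u ^ 2) - (d * W * v + W ^ 2 * v ^ 2)) + 1 := by
      rw [hmz, hk, ha]
      have h2 : ((c : ℤ) + 2 * W * u) ^ 2 = c ^ 2 + 4 * (c * W * u + W ^ 2 * u ^ 2) := by ring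
      have h3 : ((d : ℤ) + 2 * W * v) ^ 2 = d ^ 2 + 4 * (d * W * v + W ^ 2 * v ^ 2) := by ring
      rw [h2, h3]
      have h4 : (c : ℤ) ^ 2 = 4 * (i ^ 2 + i * e) + e ^ 2 := by rw [hi]; ring
      have h5 : (d : ℤ) ^ 2 = 4 * (j ^ 2 + j * f) + f ^ 2 := by rw [hj]; ring
      rw [h4, h5]
      ring
    omega
  · refine Nat.Coprime.symm (Nat.coprime_of_dvd fun p hp hpW hpm => ?_)
    have hpWz : (p : ℤ) ∣ (W : ℤ) := Int.natCast_dvd_natCast.2 hpW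
    have h1 : (p : ℤ) ∣ (b : ℤ) - c ^ 2 - d ^ 2 := by
      have h2 : (b : ℤ) - c ^ 2 - d ^ 2 = m - W * (4 * k - 4 * (c * u + W * u ^ 2) -
          4 * (d * v + W * v ^ 2)) := by
        rw [hmz, hk]
        ring
      rw [h2]
      exact dvd_sub (Int.natCast_dvd_natCast.2 hpm) (hpWz.mul_right _)
    have h2 : (p : ℤ) ∣ (d : ℤ) := by
      have h3 := hpWz.trans hd3
      simpa using h3
    have h3 : (p : ℤ) ∣ (c : ℤ) - r := hpWz.trans hc3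
    have h4 : (p : ℤ) ∣ (b : ℤ) - r ^ 2 := by
      have h5 : (b : ℤ) - r ^ 2 = ((b : ℤ) - c ^ 2 - d ^ 2) + d * d + (c - r) * (c + r) := by ring
      rw [h5]
      exact dvd_add (dvd_add h1 (h2.mul_right _)) (h3.mul_right _)
    have hpP : Prime (p : ℤ) := Nat.prime_iff_prime_int.1 hp
    by_cases h5 : p ∣ b
    · have h6 : (p : ℤ) ∣ (r : ℤ) ^ 2 := by
        have h7 := dvd_sub (Int.natCast_dvd_natCast.2 h5) h4
        rwa [sub_sub_cancel] at h7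
      have h7 : p ∣ r := by
        have h8 := hpP.dvd_of_dvd_pow h6
        exact_mod_cast h8
      rw [hr, Prime.dvd_finsetProd_iff hp.prime] at h7
      obtain ⟨l, hl, hpl⟩ := h7
      rw [mem_filter] at hl
      have h8 : l.Prime := Nat.prime_of_mem_primeFactors hl.1
      have h9 : p = l := (Nat.prime_dvd_prime_iff_eq hp h8).1 hpl
      rw [← h9] at hl
      exact hl.2 h5
    · have h6 : p ∣ r := by
        rw [hr]
        exact Finset.dvd_prod_of_mem _ (mem_filter.2 ⟨Nat.mem_primeFactors.2 ⟨hp, hpW, hW⟩, h5⟩)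
      have h7 : (p : ℤ) ∣ (b : ℤ) := by
        have h8 : (p : ℤ) ∣ (r : ℤ) ^ 2 := dvd_pow (Int.natCast_dvd_natCast.2 h6) (by norm_num)
        have h9 := dvd_add h4 h8
        rwa [sub_add_cancel] at h9
      exact h5 (by exact_mod_cast h7)

end Pool.Agent.Lib.MP_be2ccc_co.AW
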