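import Mathlib

/-!
# Choice of the cut points in the hyperbola method
-/

set_option autoImplicit false

namespace Pool.Agent.Lib.MP_be2ccc_co.AW

lemma geo_sqrt (W X : ℕ) (hW : 12 * (W : ℝ) ≤ Real.sqrt X) :
    Nat.sqrt (X + 8 * W) ≤ Nat.sqrt X + 1 := by
  by_contra hlt
  push Not at hlt
  have h1 : (Nat.sqrt X + 2) * (Nat.sqrt X + 2) ≤ X + 8 * W :=
    (Nat.mul_self_le_mul_self hlt).trans (Nat.sqrt_le _)
  have h2 : X < (Nat.sqrt X + 1) * (Nat.sqrt X + 1) := Nat.lt_succ_sqrt X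
  have h5 : Real.sqrt X < Nat.sqrt X + 1 := by
    rw [Real.sqrt_lt' (by positivity)]
    have : X < (Nat.sqrt X + 1) ^ 2 := by rw [sq]; exact h2
    exact_mod_cast this
  have h6 : (12 * W : ℝ) < Nat.sqrt X + 1 := lt_of_le_of_lt hW h5
  have h7 : 12 * W < Nat.sqrt X + 1 := by exact_mod_cast h6
  have h8 : (Nat.sqrt X + 2) * (Nat.sqrt X + 2) =
    (Nat.sqrt X + 1) * (Nat.sqrt X + 1) + 2 * Nat.sqrt X + 3 := by ring
  omega

lemma geo (W X H S : ℕ) (hW0 : 0 < W) (hW : 12 * (W : ℝ) ≤ Real.sqrt X) (hH : 9 * H ≤ X)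
    (hbig : S + 8 * W + 1 + 6 * (Nat.sqrt X + 1) ≤ H) :
    ∃ y z : ℕ, X + 8 * W ≤ y * y ∧ z * y ≤ X - H - S ∧ 1 ≤ z ∧ z ≤ y ∧
      ((y : ℝ) - z) * Real.sqrt X ≤ 2 * H ∧ Real.sqrt X / 2 ≤ z ∧ z * z ≤ X ∧
      12 ≤ Real.sqrt X := by
  set y := Nat.sqrt (X + 8 * W) + 1 with hy
  set z := (X - H - S) / y with hz
  have hs1 := geo_sqrt W X hW
  have hyy : X + 8 * W ≤ y * y := by
    have := Nat.lt_succ_sqrt (X + 8 * W)
    rw [hy]; exact this.le
  have hyle : y ≤ Nat.sqrt X + 2 := by omega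
  have hy0 : 0 < y := Nat.succ_pos _
  have hzyX : z * y ≤ X - H - S := Nat.div_mul_le_self _ _
  have hzley : z ≤ y := by
    by_contra hlt
    push Not at hlt
    have : y * y ≤ z * y := Nat.mul_le_mul_right _ hlt.le
    omega
  have hX0 : 0 < X := by omega
  set s : ℝ := Real.sqrt X with hs
  have hXR : (0 : ℝ) < X := by exact_mod_cast hX0
  have hs0 : 0 < s := Real.sqrt_pos.2 hXR
  have hss : s * s = X := Real.mul_self_sqrt hXR.le
  have hNsq : (Nat.sqrt X : ℝ) ≤ s := Real.nat_sqrt_le_real_sqrt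
  have hysR : s ≤ y := by
    rw [hs, Real.sqrt_le_left (by positivity)]
    have : X ≤ y ^ 2 := by rw [sq]; omega
    exact_mod_cast this
  have hyleR : (y : ℝ) ≤ s + 2 := by
    have : (y : ℝ) ≤ Nat.sqrt X + 2 := by exact_mod_cast hyle
    linarith
  have hsN : s < Nat.sqrt X + 1 := by
    rw [hs, Real.sqrt_lt' (by positivity)]
    have : X < (Nat.sqrt X + 1) ^ 2 := by rw [sq]; exact Nat.lt_succ_sqrt X
    exact_mod_cast this
  have hbigR : (S : ℝ) + 8 * W + 1 + 6 * s ≤ H := by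
    have : ((S + 8 * W + 1 + 6 * (Nat.sqrt X + 1) : ℕ) : ℝ) ≤ H := by exact_mod_cast hbig
    push_cast at this
    linarith
  have hsum : ((X - H - S : ℕ) : ℝ) = X - H - S := by
    rw [Nat.cast_sub (by omega), Nat.cast_sub (by omega)]
  have hzlow : (X - H - S : ℝ) < z * y + y := by
    have := Nat.lt_div_mul_add (a := X - H - S) hy0
    have h1 : X - H - S < z * y + y := by rw [hz]; linarith
    have h2 : ((X - H - S : ℕ) : ℝ) < ((z * y + y : ℕ) : ℝ) := by exact_mod_cast h1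
    rw [hsum] at h2
    push_cast at h2
    exact h2
  have hWR : (1 : ℝ) ≤ W := by exact_mod_cast hW0
  have hs12 : (12 : ℝ) ≤ s := by linarith
  have hyz0 : 0 ≤ (y : ℝ) - z := by
    have : (z : ℝ) ≤ y := by exact_mod_cast hzley
    linarith
  have hyz : ((y : ℝ) - z) * s ≤ 2 * H := by
    have hy2 : (y : ℝ) * y ≤ (s + 2) * (s + 2) := mul_self_le_mul_self (by positivity) hyleR
    have hy3 : (s + 2) * (s + 2) = s * s + 4 * s + 4 := by ring
    have h1 : ((y : ℝ) - z) * y ≤ H + S + 4 * s + 4 + y := by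
      rw [sub_mul]; linarith
    have h3 : ((y : ℝ) - z) * s ≤ ((y : ℝ) - z) * y := mul_le_mul_of_nonneg_left hysR hyz0
    linarith
  have hHs : (H : ℝ) * 9 ≤ s * s := by
    rw [hss]
    have : ((9 * H : ℕ) : ℝ) ≤ X := by exact_mod_cast hH
    push_cast at this
    linarith
  have hzs : s / 2 ≤ z := by
    have h1 : (y : ℝ) - z ≤ 2 * H / s := by rw [le_div_iff₀ hs0]; exact hyz
    have h2 : 2 * (H : ℝ) / s ≤ s / 2 := by
      rw [div_le_iff₀ hs0]
      linarith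
    linarith
  have hz1 : 1 ≤ z := by
    have : (1 : ℝ) ≤ z := by linarith
    exact_mod_cast this
  exact ⟨y, z, hyy, hzyX, hz1, hzley, hyz, hzs,
    (Nat.mul_le_mul_left z hzley).trans (hzyX.trans (by omega)), hs12⟩

end Pool.Agent.Lib.MP_be2ccc_co.AW
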