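import Mathlib
import Pool.Agent.Lib.MP_be2ccc_co.AW.ClassBad
import Pool.Agent.Lib.MP_be2ccc_co.AW.Cls

/-!
# Exceptional numbers in a short interval
-/

set_option autoImplicit false

namespace Pool.Agent.Lib.MP_be2ccc_co.AW

open Finset Pool.BV

/-- the bound for one class -/
noncomputable def Rb (W U z y Q P N : ℕ) : ℝ :=
  8 * Kw W ^ 2 / lam W z 1 ^ 2 * (((Q : ℝ) ^ 2 + 4 * Real.pi * N) * (81 / (P : ℝ) ^ 2) +
    ((z : ℝ) ^ 2 + 4 * Real.pi * N) * ((1 + Real.log z) * (3 / U + 4 / Real.sqrt Q))) +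
  2 / lam W z 1 * (((y - z) * (N / z + 1) : ℕ) : ℝ)

lemma sh_le (W c d U u v : ℕ) (hc : c < 2 * W) (hd : d < 2 * W) (hu : u < U) (hv : v < U) :
    sh W c d u v ≤ 8 * W ^ 2 * U ^ 2 := by
  unfold sh
  have h1 : c + 2 * W * u ≤ 2 * W * U := by
    have : 2 * W * (u + 1) ≤ 2 * W * U := Nat.mul_le_mul_left _ hu
    nlinarith
  have h2 : d + 2 * W * v ≤ 2 * W * U := by
    have : 2 * W * (v + 1) ≤ 2 * W * U := Nat.mul_le_mul_left _ hv
    nlinarith
  have h3 := Nat.pow_le_pow_left h1 2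
  have h4 := Nat.pow_le_pow_left h2 2
  calc (c + 2 * W * u) ^ 2 + (d + 2 * W * v) ^ 2 ≤ (2 * W * U) ^ 2 + (2 * W * U) ^ 2 := by omega
    _ = 8 * W ^ 2 * U ^ 2 := by ring

open Classical in
theorem interval_bad (W U Q P X H z y : ℕ) (hW : Squarefree W) (hodd : Odd W) (hP1 : 1 ≤ P)
    (hP : ∀ q, 1 < q → q.Coprime (2 * W) → P < q) (hQ1 : 1 ≤ Q)
    (hQ : (Q : ℝ) * (1 + Real.log Q) ≤ U) (hU : 1 ≤ U)
    (hSX : 8 * W ^ 2 * U ^ 2 + H ≤ X) (hy : X + 8 * W ≤ y * y)
    (hzX : z * y ≤ X - H - 8 * W ^ 2 * U ^ 2) (hz : 1 ≤ z) (hzy : z ≤ y)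
    (hlam : 0 < lam W z 1) :
    (((Ioc (X - H) X).filter (fun n => n % 4 ≠ 0 ∧ Bad (8 * W ^ 2 * U ^ 2) n)).card : ℝ) ≤
      4 * W * Rb W U z y Q P (H / (4 * W) + 1) := by
  set S := 8 * W ^ 2 * U ^ 2 with hS
  set N := H / (4 * W) + 1 with hN
  have hW0 : W ≠ 0 := hW.ne_zero
  have hWp : 0 < 4 * W := by positivity
  set n0 : ℕ → ℕ := fun b => (X - H + 1) + (b + 4 * W * (X - H + 1) - (X - H + 1)) % (4 * W) with hn0
  have hn0mod : ∀ b, n0 b % (4 * W) = b % (4 * W) := by
    intro b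
    rw [hn0]
    simp only
    rw [Nat.add_mod_mod]
    have h1 : X - H + 1 ≤ b + 4 * W * (X - H + 1) := by nlinarith
    rw [Nat.add_sub_cancel' h1, Nat.add_mul_mod_self_left]
  have hn0lt : ∀ b, n0 b < X - H + 1 + 4 * W := by
    intro b
    rw [hn0]
    have := Nat.mod_lt (b + 4 * W * (X - H + 1) - (X - H + 1)) hWp
    simp only; omega
  have hn0ge : ∀ b, X - H + 1 ≤ n0 b := fun b => Nat.le_add_right _ _
  have hNH : 4 * W * N ≤ H + 4 * W := by
    rw [hN, mul_add, mul_one]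
    have := Nat.mul_div_le H (4 * W)
    omega
  -- one class
  have hclass : ∀ b, b % 4 ≠ 0 →
      (((range N).filter (fun l => Bad S (n0 b + 4 * W * l))).card : ℝ) ≤ Rb W U z y Q P N := by
    intro b hb
    obtain ⟨c, d, hc, hd, hcd⟩ := class_exists W hW0 hodd b hb
    have hsh : ∀ u < U, ∀ v < U, sh W c d u v ≤ S := fun u hu v hv => sh_le W c d U u v hc hd hu hv
    have h1 := hn0ge b
    have h2 := hn0lt b
    refine class_bad W c d U z y Q P N (n0 b) S hW0 hP1 (Nat.succ_pos _) hP hQ1 hQ hz hzy hU hsh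
      (by omega) ?_ (by omega) (by omega) hlam
    intro l hl u hu v hv
    have h3 := hsh u hu v hv
    refine hcd u v _ ?_ (by omega)
    rw [Nat.add_mul_mod_self_left]
    exact hn0mod b
  -- covering by classes
  have hcover : (Ioc (X - H) X).filter (fun n => n % 4 ≠ 0 ∧ Bad S n) ⊆
      ((range (4 * W)).filter (fun b => b % 4 ≠ 0)).biUnion (fun b =>
        ((range N).filter (fun l => Bad S (n0 b + 4 * W * l))).image (fun l => n0 b + 4 * W * l)) := by
    intro n hn
    rw [mem_filter, mem_Ioc] at hn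
    rw [mem_biUnion]
    refine ⟨n % (4 * W), ?_, ?_⟩
    · rw [mem_filter, mem_range]
      refine ⟨Nat.mod_lt _ hWp, ?_⟩
      rw [Nat.mod_mul_right_mod]
      exact hn.2.1
    · rw [mem_image]
      have h1 := hn0mod (n % (4 * W))
      rw [Nat.mod_mod] at h1
      have h2 := hn0lt (n % (4 * W))
      have hle : n0 (n % (4 * W)) ≤ n := by
        by_contra hlt
        push Not at hlt
        have h3 : n0 (n % (4 * W)) - n < 4 * W := by omega
        have h4 : 4 * W ∣ n0 (n % (4 * W)) - n := (Nat.modEq_iff_dvd' hlt.le).1 (by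
          unfold Nat.ModEq; exact h1.symm)
        have h5 := Nat.le_of_dvd (by omega) h4
        omega
      have hdvd : 4 * W ∣ n - n0 (n % (4 * W)) := (Nat.modEq_iff_dvd' hle).1 (by
        unfold Nat.ModEq; exact h1)
      obtain ⟨l, hl⟩ := hdvd
      have hnl : n0 (n % (4 * W)) + 4 * W * l = n := by omega
      refine ⟨l, ?_, hnl⟩
      rw [mem_filter, mem_range]
      refine ⟨?_, by rw [hnl]; exact hn.2.2⟩
      have h6 := hn0ge (n % (4 * W))
      have h7 : 4 * W * l ≤ H := by omega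
      rw [hN]
      have h8 : l ≤ H / (4 * W) := (Nat.le_div_iff_mul_le hWp).2 (by rw [mul_comm]; exact h7)
      omega
  calc (((Ioc (X - H) X).filter (fun n => n % 4 ≠ 0 ∧ Bad S n)).card : ℝ)
      ≤ ((((range (4 * W)).filter (fun b => b % 4 ≠ 0)).biUnion (fun b =>
        ((range N).filter (fun l => Bad S (n0 b + 4 * W * l))).image
          (fun l => n0 b + 4 * W * l))).card : ℝ) := by
        exact_mod_cast Finset.card_le_card hcover
    _ ≤ ∑ b ∈ (range (4 * W)).filter (fun b => b % 4 ≠ 0),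
          (((range N).filter (fun l => Bad S (n0 b + 4 * W * l))).card : ℝ) := by
        have := (Finset.card_biUnion_le (s := (range (4 * W)).filter (fun b => b % 4 ≠ 0))
          (t := fun b => ((range N).filter (fun l => Bad S (n0 b + 4 * W * l))).image
          (fun l => n0 b + 4 * W * l))).trans (Finset.sum_le_sum fun b _ => Finset.card_image_le)
        exact_mod_cast this
    _ ≤ ∑ b ∈ (range (4 * W)).filter (fun b => b % 4 ≠ 0), Rb W U z y Q P N :=
        Finset.sum_le_sum fun b hb => hclass b (mem_filter.1 hb).2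
    _ ≤ ∑ b ∈ range (4 * W), Rb W U z y Q P N := by
        refine Finset.sum_le_sum_of_subset_of_nonneg (filter_subset _ _) fun b _ _ => ?_
        exact le_trans (by positivity) (hclass 1 (by norm_num))
    _ = 4 * W * Rb W U z y Q P N := by
        rw [sum_const, card_range, nsmul_eq_mul]; push_cast; ring

end Pool.Agent.Lib.MP_be2ccc_co.AW
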