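import Mathlib
import Pool.Agent.Lib.MP_be2ccc_co.AW.Interval
import Pool.Agent.Lib.MP_be2ccc_co.AW.Lam
import Pool.Agent.Lib.MP_be2ccc_co.AW.Geo

/-!
# Exceptional numbers in a short interval, simplified bound
-/

set_option autoImplicit false

namespace Pool.Agent.Lib.MP_be2ccc_co.AW

open Finset Pool.BV

set_option maxHeartbeats 4000000 in
open Classical in
theorem interval_bound (W U Q P X : ℕ) (L : ℝ) (hW : Squarefree W) (hodd : Odd W)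
    (hP3 : 3 ≤ P) (hP : ∀ q, 1 < q → q.Coprime (2 * W) → P < q) (hQ1 : 1 ≤ Q)
    (hQ : (Q : ℝ) * (1 + Real.log Q) ≤ U) (hU : 1 ≤ U) (hK : 1 ≤ Kw W)
    (hQH : Q ^ 2 * (4 * W) ≤ X / P ^ 2)
    (hbig : 8 * W ^ 2 * U ^ 2 + 8 * W + 1 + 6 * (Nat.sqrt X + 1) ≤ X / P ^ 2)
    (hsq : (Nat.sqrt X + 1) * (4 * W) ≤ X / P ^ 2)
    (hWK : 12 * W * Kw W ^ 2 ≤ Real.sqrt X) (hL : Real.log X ≤ L) (hQU : Real.sqrt Q ≤ U) :
    (((Ioc (X - X / P ^ 2) X).filter (fun n => n % 4 ≠ 0 ∧ Bad (8 * W ^ 2 * U ^ 2) n)).card : ℝ) ≤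
      ((X / P ^ 2 : ℕ) : ℝ) * (72624 * Kw W ^ 6 / (P : ℝ) ^ 2 +
        25088 * W * Kw W ^ 6 * (1 + L) * (P : ℝ) ^ 2 / Real.sqrt Q) := by
  set H := X / P ^ 2 with hH
  set S := 8 * W ^ 2 * U ^ 2 with hS
  set K := Kw W with hKdef
  have hW0 : 0 < W := Nat.pos_of_ne_zero hW.ne_zero
  have hP0 : 0 < P ^ 2 := by positivity
  have hP9 : 9 ≤ P ^ 2 := by nlinarith only [hP3]
  have hHX : H * P ^ 2 ≤ X := Nat.div_mul_le_self X (P ^ 2)
  have hHX9 : 9 * H ≤ X := le_trans (by nlinarith only [hP9]) hHX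
  have hX2 : X < H * P ^ 2 + P ^ 2 := Nat.lt_div_mul_add (a := X) hP0
  have hH1 : 1 ≤ H := by omega
  have hX2' : X ≤ 2 * P ^ 2 * H := by nlinarith only [hHX9, hW0, hX2, hbig]
  have hX0 : 0 < X := by omega
  have hWR : (1 : ℝ) ≤ W := by exact_mod_cast hW0
  have hK21 : 1 ≤ K ^ 2 := one_le_pow₀ hK
  have hW12 : 12 * (W : ℝ) ≤ Real.sqrt X := by
    refine le_trans ?_ hWK
    nlinarith only [hK21]
  obtain ⟨y, z, hyy, hzyX, hz1, hzley, hyz, hzs, hzX', hs12⟩ := geo W X H S hW0 hW12 hHX9 hbig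
  set N := H / (4 * W) + 1 with hN
  set s : ℝ := Real.sqrt X with hs
  have hXR : (0 : ℝ) < X := by exact_mod_cast hX0
  have hs0 : 0 < s := by linarith only [hW12, hWR]
  have hss : s * s = X := Real.mul_self_sqrt hXR.le
  have hHR : (1 : ℝ) ≤ H := by exact_mod_cast hH1
  have hPR : (3 : ℝ) ≤ P := by exact_mod_cast hP3
  have hsN : s < Nat.sqrt X + 1 := by
    rw [hs, Real.sqrt_lt' (by positivity)]
    have : X < (Nat.sqrt X + 1) ^ 2 := by rw [sq]; exact Nat.lt_succ_sqrt X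
    exact_mod_cast this
  have hzR : (0 : ℝ) < z := by exact_mod_cast hz1
  -- lower bound for lam
  have hK0 : 0 < K := by linarith only [hK]
  have hlam : 1 / (2 * K ^ 2) ≤ lam W z 1 := by
    have h1 := lam_one W z hW hodd hz1
    have h2 : (W : ℝ) / z ≤ 1 / (6 * K ^ 2) := by
      rw [div_le_div_iff₀ hzR (by positivity)]
      nlinarith only [hWK, hzs]
    refine le_trans ?_ h1
    rw [← hKdef]
    have h3 : 1 / (2 * K ^ 2) = 2 / 3 / K ^ 2 - 1 / (6 * K ^ 2) := by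
      field_simp; norm_num
    rw [h3]
    linarith only [h2]
  have hlam0 : 0 < lam W z 1 := lt_of_lt_of_le (by positivity) hlam
  have hlaminv : 1 / lam W z 1 ≤ 2 * K ^ 2 := by
    rw [div_le_iff₀ hlam0]
    have := mul_le_mul_of_nonneg_left hlam (by positivity : (0 : ℝ) ≤ 2 * K ^ 2)
    rwa [mul_one_div_cancel (by positivity)] at this
  have hmain := interval_bad W U Q P X H z y hW hodd (by omega) hP hQ1 hQ hU (by omega) hyy hzyX
    hz1 hzley hlam0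
  refine hmain.trans ?_
  -- now the numerical estimate
  have hNR : ((N : ℕ) : ℝ) * (4 * W) ≤ 2 * H := by
    have h1 : N * (4 * W) ≤ H + 4 * W := by
      rw [hN, Nat.add_mul, one_mul]
      have := Nat.div_mul_le_self H (4 * W)
      omega
    have h2 : 4 * W ≤ H := le_trans (by nlinarith only [Nat.zero_le (Nat.sqrt X)]) hsq
    have h3 : N * (4 * W) ≤ 2 * H := by omega
    exact_mod_cast h3
  have hN0 : (1 : ℝ) ≤ N := by
    have : 1 ≤ N := Nat.succ_le_succ (Nat.zero_le _)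
    exact_mod_cast this
  have hQN : (Q : ℝ) ^ 2 ≤ N := by
    have h1 : Q ^ 2 ≤ H / (4 * W) := (Nat.le_div_iff_mul_le (by positivity)).2 hQH
    have h2 : Q ^ 2 ≤ N := by omega
    exact_mod_cast h2
  have hsN2 : s ≤ N := by
    have h1 : Nat.sqrt X + 1 ≤ H / (4 * W) := (Nat.le_div_iff_mul_le (by positivity)).2 hsq
    have h2 : ((Nat.sqrt X + 1 : ℕ) : ℝ) ≤ N := by exact_mod_cast (by omega : Nat.sqrt X + 1 ≤ N)
    push_cast at h2
    linarith only [h2, hsN]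
  have hpi : Real.pi < 3.15 := Real.pi_lt_d2
  have hpi0 := Real.pi_pos
  have hfac : 8 * K ^ 2 / lam W z 1 ^ 2 ≤ 32 * K ^ 6 := by
    have h1 : (1 / lam W z 1) ^ 2 ≤ (2 * K ^ 2) ^ 2 := pow_le_pow_left₀ (by (clear * - hlam0; positivity)) hlaminv 2
    calc 8 * K ^ 2 / lam W z 1 ^ 2 = 8 * K ^ 2 * (1 / lam W z 1) ^ 2 := by
          rw [one_div, inv_pow]; rfl
      _ ≤ 8 * K ^ 2 * (2 * K ^ 2) ^ 2 := by gcongr
      _ = 32 * K ^ 6 := by ring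
  have hzX : (z : ℝ) ^ 2 ≤ X := by
    rw [sq]; exact_mod_cast hzX'
  have hNX : (N : ℝ) ≤ X := by
    have h1 : (N : ℝ) * 4 ≤ 2 * H := le_trans (by nlinarith only [hWR]) hNR
    have h2 : ((9 * H : ℕ) : ℝ) ≤ X := by exact_mod_cast hHX9
    push_cast at h2
    linarith only [h1, h2, hW12, hWR, hsN2]
  have hlogz : 1 + Real.log z ≤ 1 + L := by
    have : Real.log z ≤ Real.log X := by
      apply Real.log_le_log hzR
      have : z ≤ X := le_trans (Nat.le_mul_of_pos_left z hz1) hzX'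
      exact_mod_cast this
    linarith only [hL, this]
  have hlogz0 : 0 ≤ 1 + Real.log z := by
    have := Real.log_nonneg (by exact_mod_cast hz1 : (1 : ℝ) ≤ z)
    linarith only [this]
  have hQR : (1 : ℝ) ≤ Q := by exact_mod_cast hQ1
  have hsQ : 0 < Real.sqrt Q := Real.sqrt_pos.2 (by linarith only [hQR])
  have hUR : (1 : ℝ) ≤ U := by exact_mod_cast hU
  have hUQ : 3 / (U : ℝ) + 4 / Real.sqrt Q ≤ 7 / Real.sqrt Q := by
    have : 3 / (U : ℝ) ≤ 3 / Real.sqrt Q := div_le_div_of_nonneg_left (by norm_num) hsQ hQU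
    have e : 7 / Real.sqrt Q = 3 / Real.sqrt Q + 4 / Real.sqrt Q := by ring
    rw [e]; linarith only [this]
  have hX2R : (X : ℝ) ≤ 2 * (P : ℝ) ^ 2 * H := by exact_mod_cast hX2'
  have hP2 : 0 < (P : ℝ) ^ 2 := by positivity
  -- piece C
  have hC : (((y - z) * (N / z + 1) : ℕ) : ℝ) * X ≤ 6 * H * N := by
    have h1 : (((y - z) * (N / z + 1) : ℕ) : ℝ) ≤ ((y : ℝ) - z) * (3 * N / s) := by
      push_cast
      rw [Nat.cast_sub hzley]
      have h2 : ((N / z : ℕ) : ℝ) + 1 ≤ 3 * N / s := by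
        have h3 : ((N / z : ℕ) : ℝ) ≤ N / z := Nat.cast_div_le
        have h4 : (N : ℝ) / z ≤ 2 * N / s := by
          rw [div_le_div_iff₀ hzR hs0]
          nlinarith only [hzs]
        have h5 : 1 ≤ N / s := by rw [le_div_iff₀ hs0]; linarith only [hsN2]
        have e : 3 * (N : ℝ) / s = 2 * N / s + N / s := by ring
        rw [e]; linarith only [h3, h4, h5]
      have h6 : 0 ≤ (y : ℝ) - z := by
        have : (z : ℝ) ≤ y := by exact_mod_cast hzley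
        linarith only [this]
      exact mul_le_mul_of_nonneg_left h2 h6
    calc (((y - z) * (N / z + 1) : ℕ) : ℝ) * X ≤ (((y : ℝ) - z) * (3 * N / s)) * X := by gcongr
      _ = (((y : ℝ) - z) * s) * (3 * N) := by
          rw [← hss]; field_simp
      _ ≤ (2 * H) * (3 * N) := by gcongr
      _ = 6 * H * N := by ring
  have hC2 : 4 * (W : ℝ) * (2 / lam W z 1 * (((y - z) * (N / z + 1) : ℕ) : ℝ)) ≤
      H * (48 * K ^ 2 / (P : ℝ) ^ 2) := by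
    have h1 : (((y - z) * (N / z + 1) : ℕ) : ℝ) ≤ 6 * H * N / X := by
      rw [le_div_iff₀ hXR]; exact hC
    have h2 : 2 / lam W z 1 ≤ 4 * K ^ 2 := by
      have : 2 / lam W z 1 = 2 * (1 / lam W z 1) := by ring
      rw [this]; linarith only [hlaminv]
    have h3 : (H : ℝ) / X ≤ 1 / (P : ℝ) ^ 2 := by
      rw [div_le_div_iff₀ hXR hP2]
      have : ((H * P ^ 2 : ℕ) : ℝ) ≤ X := by exact_mod_cast hHX
      push_cast at this
      linarith only [this]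
    calc 4 * (W : ℝ) * (2 / lam W z 1 * (((y - z) * (N / z + 1) : ℕ) : ℝ))
        ≤ 4 * (W : ℝ) * (4 * K ^ 2 * (6 * H * N / X)) := by gcongr
      _ = (24 * K ^ 2 * (N * (4 * W))) * (H / X) := by ring
      _ ≤ (24 * K ^ 2 * (2 * H)) * (1 / (P : ℝ) ^ 2) := by gcongr
      _ = H * (48 * K ^ 2 / (P : ℝ) ^ 2) := by ring
  have hA2 : 4 * (W : ℝ) * (8 * K ^ 2 / lam W z 1 ^ 2 * (((Q : ℝ) ^ 2 + 4 * Real.pi * N) * (81 / (P : ℝ) ^ 2))) ≤
      H * (72576 * K ^ 6 / (P : ℝ) ^ 2) := by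
    have h1 : (Q : ℝ) ^ 2 + 4 * Real.pi * N ≤ 14 * N := by nlinarith only [hQN, hpi]
    calc 4 * (W : ℝ) * (8 * K ^ 2 / lam W z 1 ^ 2 * (((Q : ℝ) ^ 2 + 4 * Real.pi * N) * (81 / (P : ℝ) ^ 2)))
        ≤ 4 * (W : ℝ) * (32 * K ^ 6 * ((14 * N) * (81 / (P : ℝ) ^ 2))) := by gcongr
      _ = (36288 * K ^ 6 / (P : ℝ) ^ 2) * (N * (4 * W)) := by ring
      _ ≤ (36288 * K ^ 6 / (P : ℝ) ^ 2) * (2 * H) := by gcongr
      _ = H * (72576 * K ^ 6 / (P : ℝ) ^ 2) := by ring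
  have hB2 : 4 * (W : ℝ) * (8 * K ^ 2 / lam W z 1 ^ 2 * (((z : ℝ) ^ 2 + 4 * Real.pi * N) *
      ((1 + Real.log z) * (3 / U + 4 / Real.sqrt Q)))) ≤
      H * (25088 * W * K ^ 6 * (1 + L) * (P : ℝ) ^ 2 / Real.sqrt Q) := by
    have h1 : (z : ℝ) ^ 2 + 4 * Real.pi * N ≤ 14 * X := by nlinarith only [hK21, hNX, hW12, hWK, hWR, hpi, hzX, hzs]
    have h0 : 0 ≤ 1 + L := by linarith only [hlogz, hlogz0]
    calc 4 * (W : ℝ) * (8 * K ^ 2 / lam W z 1 ^ 2 * (((z : ℝ) ^ 2 + 4 * Real.pi * N) *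
      ((1 + Real.log z) * (3 / U + 4 / Real.sqrt Q))))
        ≤ 4 * (W : ℝ) * (32 * K ^ 6 * ((14 * X) * ((1 + L) * (7 / Real.sqrt Q)))) := by gcongr
      _ = (12544 * W * K ^ 6 * (1 + L) / Real.sqrt Q) * X := by ring
      _ ≤ (12544 * W * K ^ 6 * (1 + L) / Real.sqrt Q) * (2 * (P : ℝ) ^ 2 * H) := by gcongr
      _ = H * (25088 * W * K ^ 6 * (1 + L) * (P : ℝ) ^ 2 / Real.sqrt Q) := by ring
  have hK26 : K ^ 2 ≤ K ^ 6 := pow_le_pow_right₀ hK (by norm_num)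
  have hC3 : (H : ℝ) * (48 * K ^ 2 / (P : ℝ) ^ 2) ≤ H * (48 * K ^ 6 / (P : ℝ) ^ 2) := by gcongr
  unfold Rb
  rw [← hKdef]
  calc 4 * (W : ℝ) * (8 * K ^ 2 / lam W z 1 ^ 2 * (((Q : ℝ) ^ 2 + 4 * Real.pi * N) * (81 / (P : ℝ) ^ 2) +
          ((z : ℝ) ^ 2 + 4 * Real.pi * N) * ((1 + Real.log z) * (3 / U + 4 / Real.sqrt Q))) +
        2 / lam W z 1 * (((y - z) * (N / z + 1) : ℕ) : ℝ))
      = 4 * (W : ℝ) * (8 * K ^ 2 / lam W z 1 ^ 2 * (((Q : ℝ) ^ 2 + 4 * Real.pi * N) * (81 / (P : ℝ) ^ 2))) +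
        4 * (W : ℝ) * (8 * K ^ 2 / lam W z 1 ^ 2 * (((z : ℝ) ^ 2 + 4 * Real.pi * N) *
          ((1 + Real.log z) * (3 / U + 4 / Real.sqrt Q)))) +
        4 * (W : ℝ) * (2 / lam W z 1 * (((y - z) * (N / z + 1) : ℕ) : ℝ)) := by ring
    _ ≤ H * (72576 * K ^ 6 / (P : ℝ) ^ 2) +
        H * (25088 * W * K ^ 6 * (1 + L) * (P : ℝ) ^ 2 / Real.sqrt Q) +
        H * (48 * K ^ 6 / (P : ℝ) ^ 2) := by linarith only [hA2, hB2, hC2, hC3]
    _ = _ := by ring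

end Pool.Agent.Lib.MP_be2ccc_co.AW
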