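import Mathlib
import Pool.Agent.Lib.MP_be2ccc_co.AW.Base
import Pool.Agent.Lib.MP_dd84fd_nt.E2.FBound

/-!
# The product over the odd primes up to P
-/

set_option autoImplicit false

namespace Pool.Agent.Lib.MP_be2ccc_co.AW

open Finset Pool.BV

/-- product of the odd primes `≤ P` -/
def Wp (P : ℕ) : ℕ := ∏ p ∈ (Icc 3 P).filter Nat.Prime, p

private lemma kb_dvd (P : ℕ) : Wp P ∣ primorial P := by
  unfold Wp primorial
  refine Finset.prod_dvd_prod_of_subset _ _ _ ?_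
  intro p hp
  rw [mem_filter, mem_Icc] at hp
  exact mem_filter.2 ⟨mem_range.2 (by omega), hp.2⟩

theorem Wp_squarefree (P : ℕ) : Squarefree (Wp P) :=
  Squarefree.squarefree_of_dvd (kb_dvd P) (squarefree_primorial P)

theorem Wp_odd (P : ℕ) : Odd (Wp P) := by
  rw [← Nat.not_even_iff_odd, even_iff_two_dvd]
  intro h
  unfold Wp at h
  rw [Prime.dvd_finsetProd_iff Nat.prime_two.prime] at h
  obtain ⟨p, hp, h2⟩ := h
  rw [mem_filter, mem_Icc] at hp
  have h3 := (Nat.prime_dvd_prime_iff_eq Nat.prime_two hp.2).1 h2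
  omega

/-- `primorial_le_4_pow` -/
theorem Wp_le (P : ℕ) : Wp P ≤ 4 ^ P :=
  (Nat.le_of_dvd (primorial_pos P) (kb_dvd P)).trans (primorial_le_four_pow P)

theorem lt_of_coprime (P q : ℕ) (h1 : 1 < q) (h : q.Coprime (2 * Wp P)) : P < q := by
  by_contra hcon
  have hp : q.minFac.Prime := Nat.minFac_prime (by omega)
  have hq : q.minFac ∣ q := Nat.minFac_dvd q
  have hle : q.minFac ≤ P := (Nat.minFac_le (by omega)).trans (not_lt.1 hcon)
  have h2 : q.minFac ∣ 2 * Wp P := by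
    rcases Nat.lt_or_ge q.minFac 3 with h3 | h3
    · have h4 : q.minFac = 2 := by
        have := hp.two_le
        omega
      rw [h4]
      exact dvd_mul_right 2 _
    · refine dvd_mul_of_dvd_right ?_ 2
      unfold Wp
      exact Finset.dvd_prod_of_mem _ (mem_filter.2 ⟨mem_Icc.2 ⟨h3, hle⟩, hp⟩)
  exact (Nat.Prime.not_coprime_iff_dvd.2 ⟨_, hp, hq, h2⟩) h

private noncomputable def kb_inv : ArithmeticFunction ℝ := ⟨fun n => (n : ℝ)⁻¹, by simp⟩

private lemma kb_inv_mult : kb_inv.IsMultiplicative := by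
  refine ⟨by simp [kb_inv], ?_⟩
  intro m n _
  simp [kb_inv, mul_comm]

private lemma kb_prod (W : ℕ) (hW : Squarefree W) : Kw W = ∏ p ∈ W.primeFactors, (1 + (p : ℝ)⁻¹) := by
  have h := kb_inv_mult.prodPrimeFactors_one_add_of_squarefree hW
  unfold Kw
  have h1 : ∀ d : ℕ, kb_inv d = (d : ℝ)⁻¹ := fun d => rfl
  simp only [h1] at h
  rw [h]
  exact Finset.sum_congr rfl fun d _ => by rw [one_div]

private lemma kb_tot (n : ℕ) (hn : 0 < n) :
    (n : ℝ) / (Nat.totient n : ℝ) = ∏ p ∈ n.primeFactors, (1 - (p : ℝ)⁻¹)⁻¹ := by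
  have h := Nat.totient_eq_mul_prod_factors n
  have h1 : (Nat.totient n : ℝ) = n * ∏ p ∈ n.primeFactors, (1 - (p : ℝ)⁻¹) := by
    have h2 := congrArg (fun x : ℚ => (x : ℝ)) h
    push_cast at h2
    exact h2
  have h3 : ∏ p ∈ n.primeFactors, (1 - (p : ℝ)⁻¹) ≠ 0 := by
    rw [Finset.prod_ne_zero_iff]
    intro p hp
    have hp2 : (2 : ℝ) ≤ p := by exact_mod_cast (Nat.prime_of_mem_primeFactors hp).two_le
    have : (p : ℝ)⁻¹ ≤ 2⁻¹ := inv_anti₀ (by norm_num) hp2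
    intro h4
    linarith
  have hn0 : (n : ℝ) ≠ 0 := by exact_mod_cast hn.ne'
  rw [h1, Finset.prod_inv_distrib]
  field_simp

/-- `Kw (Wp P) = ∏ (1 + 1/p) ≤ exp (∑ 1/p)`, and `∑_{p ≤ P} 1/p = O(log log P)` (dyadic blocks with
`primorial_le_4_pow`, or any Mertens bound). -/
theorem Kw_bound (δ : ℝ) (hδ : 0 < δ) : ∃ C : ℝ, 1 ≤ C ∧ ∀ P : ℕ, 1 ≤ P →
    Kw (Wp P) ≤ C * (P : ℝ) ^ δ := by
  obtain ⟨C, hC, hr⟩ := Pool.MP_dd84fd_nt.E2.primorial_ratio
  refine ⟨max 1 (C * (2 ^ δ / δ)), le_max_left _ _, fun P hP => ?_⟩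
  have hPR : (1 : ℝ) ≤ P := by exact_mod_cast hP
  have h1 : Kw (Wp P) ≤ (primorial P : ℝ) / (Nat.totient (primorial P) : ℝ) := by
    rw [kb_prod _ (Wp_squarefree P), kb_tot _ (primorial_pos P)]
    have hsub : (Wp P).primeFactors ⊆ (primorial P).primeFactors :=
      Nat.primeFactors_mono (kb_dvd P) (primorial_pos P).ne'
    have h2 : ∀ p ∈ (primorial P).primeFactors, (1 : ℝ) ≤ (1 - (p : ℝ)⁻¹)⁻¹ := by
      intro p hp
      have hp2 : (2 : ℝ) ≤ p := by exact_mod_cast (Nat.prime_of_mem_primeFactors hp).two_le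
      have h3 : (p : ℝ)⁻¹ ≤ 2⁻¹ := inv_anti₀ (by norm_num) hp2
      have h4 : 0 < (p : ℝ)⁻¹ := by positivity
      exact (one_le_inv₀ (by linarith)).2 (by linarith)
    calc ∏ p ∈ (Wp P).primeFactors, (1 + (p : ℝ)⁻¹) ≤
          ∏ p ∈ (Wp P).primeFactors, (1 - (p : ℝ)⁻¹)⁻¹ := by
          refine Finset.prod_le_prod (fun p _ => by positivity) (fun p hp => ?_)
          have hp2 : (2 : ℝ) ≤ p := by exact_mod_cast (Nat.prime_of_mem_primeFactors hp).two_le
          have h3 : (p : ℝ)⁻¹ ≤ 2⁻¹ := inv_anti₀ (by norm_num) hp2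
          have h4 : 0 < (p : ℝ)⁻¹ := by positivity
          rw [← one_div (1 - (p : ℝ)⁻¹), le_div_iff₀ (by linarith)]
          nlinarith
      _ ≤ ∏ p ∈ (primorial P).primeFactors, (1 - (p : ℝ)⁻¹)⁻¹ :=
          Finset.prod_le_prod_of_subset_of_one_le hsub
            (fun p hp => le_trans zero_le_one (h2 p (hsub hp))) (fun p hp _ => h2 p hp)
  refine h1.trans ((hr P hP).trans ?_)
  have h3 : Real.log (P + 1) ≤ ((P : ℝ) + 1) ^ δ / δ :=
    Real.log_le_rpow_div (by positivity) hδ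
  have h4 : ((P : ℝ) + 1) ^ δ ≤ (2 * P : ℝ) ^ δ :=
    Real.rpow_le_rpow (by positivity) (by linarith) hδ.le
  rw [Real.mul_rpow (by norm_num) (by positivity)] at h4
  calc C * Real.log (P + 1) ≤ C * (2 ^ δ * (P : ℝ) ^ δ / δ) := by
        refine mul_le_mul_of_nonneg_left (h3.trans ?_) hC.le
        exact div_le_div_of_nonneg_right h4 hδ.le
    _ = (C * (2 ^ δ / δ)) * (P : ℝ) ^ δ := by ring
    _ ≤ _ := mul_le_mul_of_nonneg_right (le_max_right _ _) (by positivity)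

theorem one_le_Kw (W : ℕ) (hW : W ≠ 0) : 1 ≤ Kw W := by
  unfold Kw
  have h := Finset.single_le_sum (f := fun d : ℕ => (1 : ℝ) / d) (s := W.divisors)
    (fun d _ => by positivity) (Nat.one_mem_divisors.2 hW)
  simpa using h

end Pool.Agent.Lib.MP_be2ccc_co.AW
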