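import Mathlib

/-!
# Growth facts
-/

set_option autoImplicit false

namespace Pool.Agent.Lib.MP_be2ccc_co.AW

open Filter Topology

lemma ev_log (c : ℝ) : ∀ᶠ x : ℕ in atTop, c ≤ Real.log x :=
  (Real.tendsto_log_atTop.comp tendsto_natCast_atTop_atTop).eventually_ge_atTop c

lemma ev_rpow (η c : ℝ) (hη : 0 < η) : ∀ᶠ x : ℕ in atTop, c ≤ (x : ℝ) ^ η :=
  ((tendsto_rpow_atTop hη).comp tendsto_natCast_atTop_atTop).eventually_ge_atTop c

/-- `c (log x)^a ≤ x^η` eventually -/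
lemma ev_log_rpow (a c η : ℝ) (hη : 0 < η) : ∀ᶠ x : ℕ in atTop,
    c * (Real.log x) ^ a ≤ (x : ℝ) ^ η := by
  have h1 := (isLittleO_log_rpow_rpow_atTop a (half_pos hη)).comp_tendsto
    (tendsto_natCast_atTop_atTop (R := ℝ))
  have h2 := h1.bound one_pos
  filter_upwards [h2, ev_rpow (η / 2) |c| (half_pos hη), eventually_ge_atTop 1] with x hx hc h1x
  have hx0 : (0 : ℝ) < x := by exact_mod_cast h1x
  simp only [Function.comp_apply, one_mul, Real.norm_eq_abs] at hx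
  have h3 : |(x : ℝ) ^ (η / 2)| = (x : ℝ) ^ (η / 2) := abs_of_pos (Real.rpow_pos_of_pos hx0 _)
  rw [h3] at hx
  calc c * (Real.log x) ^ a ≤ |c| * |(Real.log x) ^ a| := by
        rw [← abs_mul]; exact le_abs_self _
    _ ≤ (x : ℝ) ^ (η / 2) * (x : ℝ) ^ (η / 2) := mul_le_mul hc hx (abs_nonneg _) (by positivity)
    _ = (x : ℝ) ^ η := by rw [← Real.rpow_add hx0]; congr 1; ring

/-- `(log x)^(9/10)`, rounded down -/
noncomputable def PP (x : ℕ) : ℕ := ⌊(Real.log x) ^ (9 / 10 : ℝ)⌋₊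

lemma PP_le (x : ℕ) (h : 0 ≤ Real.log x) : (PP x : ℝ) ≤ (Real.log x) ^ (9 / 10 : ℝ) :=
  Nat.floor_le (by positivity)

lemma ev_PP_four (η : ℝ) (hη : 0 < η) : ∀ᶠ x : ℕ in atTop, (4 : ℝ) ^ (PP x) ≤ (x : ℝ) ^ η := by
  have h0 : Tendsto (fun x : ℕ => (Real.log x) ^ (1 / 10 : ℝ)) atTop atTop :=
    (tendsto_rpow_atTop (by norm_num)).comp
      (Real.tendsto_log_atTop.comp tendsto_natCast_atTop_atTop)
  filter_upwards [h0.eventually_ge_atTop (Real.log 4 / η), ev_log 1, eventually_ge_atTop 1] with x h1 h2 h3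
  have hx0 : (0 : ℝ) < x := by exact_mod_cast h3
  have hL : 0 < Real.log x := by linarith
  have h4 := PP_le x hL.le
  have h5 : (Real.log x) ^ (9 / 10 : ℝ) * (Real.log x) ^ (1 / 10 : ℝ) = Real.log x := by
    rw [← Real.rpow_add hL]; norm_num
  have h6 : Real.log 4 * (Real.log x) ^ (9 / 10 : ℝ) ≤ η * Real.log x := by
    rw [div_le_iff₀ hη] at h1
    calc Real.log 4 * (Real.log x) ^ (9 / 10 : ℝ)
        ≤ ((Real.log x) ^ (1 / 10 : ℝ) * η) * (Real.log x) ^ (9 / 10 : ℝ) := by gcongr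
      _ = η * ((Real.log x) ^ (9 / 10 : ℝ) * (Real.log x) ^ (1 / 10 : ℝ)) := by ring
      _ = η * Real.log x := by rw [h5]
  have hl4 : 0 < Real.log 4 := Real.log_pos (by norm_num)
  calc (4 : ℝ) ^ (PP x) = Real.exp (Real.log 4 * PP x) := by
        rw [← Real.rpow_natCast, Real.rpow_def_of_pos (by norm_num)]
    _ ≤ Real.exp (η * Real.log x) := by
        apply Real.exp_le_exp.2
        exact (mul_le_mul_of_nonneg_left h4 hl4.le).trans h6
    _ = (x : ℝ) ^ η := by rw [Real.rpow_def_of_pos hx0, mul_comm]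

lemma ev_PP_pow (a c η : ℝ) (ha : 0 ≤ a) (hc : 0 ≤ c) (hη : 0 < η) :
    ∀ᶠ x : ℕ in atTop, c * (PP x : ℝ) ^ a ≤ (x : ℝ) ^ η := by
  filter_upwards [ev_log_rpow (9 / 10 * a) c η hη, ev_log 1] with x h1 h2
  refine le_trans ?_ h1
  have hL : 0 ≤ Real.log x := by linarith
  rw [Real.rpow_mul hL]
  gcongr
  exact PP_le x hL

lemma ev_PP_lower : ∀ᶠ x : ℕ in atTop, (Real.log x) ^ (9 / 10 : ℝ) / 2 ≤ PP x := by
  have h0 : Tendsto (fun x : ℕ => (Real.log x) ^ (9 / 10 : ℝ)) atTop atTop :=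
    (tendsto_rpow_atTop (by norm_num)).comp
      (Real.tendsto_log_atTop.comp tendsto_natCast_atTop_atTop)
  filter_upwards [h0.eventually_ge_atTop 2] with x h1
  have := Nat.lt_floor_add_one ((Real.log x) ^ (9 / 10 : ℝ))
  unfold PP
  linarith

lemma ev_PP_large (c : ℕ) : ∀ᶠ x : ℕ in atTop, c ≤ PP x := by
  have h0 : Tendsto (fun x : ℕ => (Real.log x) ^ (9 / 10 : ℝ)) atTop atTop :=
    (tendsto_rpow_atTop (by norm_num)).comp
      (Real.tendsto_log_atTop.comp tendsto_natCast_atTop_atTop)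
  filter_upwards [h0.eventually_ge_atTop (c : ℝ)] with x h1
  exact Nat.le_floor h1

end Pool.Agent.Lib.MP_be2ccc_co.AW
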