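import Mathlib
import Pool.Agent.Lib.MP_be2ccc_co.AW.IBound
import Pool.Agent.Lib.MP_be2ccc_co.AW.Kb
import Pool.Agent.Lib.MP_be2ccc_co.AW.Params

/-!
# Choice of the parameters
-/

set_option autoImplicit false

namespace Pool.Agent.Lib.MP_be2ccc_co.AW

open Finset Filter

/-- the first part of the relative size of the exceptional set -/
lemma kappa1 (C K L P : ℝ) (hC : 1 ≤ C) (hK0 : 0 ≤ K) (hL : 1 ≤ L) (hP : L ^ (9 / 10 : ℝ) / 2 ≤ P)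
    (hP0 : 0 < P) (hK : K ≤ C * P ^ (1 / 100 : ℝ))
    (hbig : 1161984 * C ^ 6 ≤ L ^ (246 / 1000 : ℝ)) :
    72624 * K ^ 6 / P ^ 2 ≤ L ^ (-(3 / 2) : ℝ) / 4 := by
  have hL0 : 0 < L := by linarith only [hL]
  have h1 : K ^ 6 ≤ C ^ 6 * P ^ (6 / 100 : ℝ) := by
    calc K ^ 6 ≤ (C * P ^ (1 / 100 : ℝ)) ^ 6 := pow_le_pow_left₀ hK0 hK 6
      _ = C ^ 6 * P ^ (6 / 100 : ℝ) := by
          rw [mul_pow, ← Real.rpow_natCast (P ^ (1 / 100 : ℝ)), ← Real.rpow_mul hP0.le]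
          norm_num
  have h2 : L ^ (3 / 2 : ℝ) * L ^ (246 / 1000 : ℝ) ≤ 4 * P ^ (194 / 100 : ℝ) := by
    have h3 : (L ^ (9 / 10 : ℝ) / 2) ^ (194 / 100 : ℝ) ≤ P ^ (194 / 100 : ℝ) :=
      Real.rpow_le_rpow (by positivity) hP (by norm_num)
    rw [Real.div_rpow (by positivity) (by norm_num), ← Real.rpow_mul hL0.le] at h3
    have h4 : (2 : ℝ) ^ (194 / 100 : ℝ) ≤ 4 := by
      calc (2 : ℝ) ^ (194 / 100 : ℝ) ≤ (2 : ℝ) ^ (2 : ℝ) :=
            Real.rpow_le_rpow_of_exponent_le (by norm_num) (by norm_num)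
        _ = 4 := by norm_num
    rw [← Real.rpow_add hL0]
    have e : (3 / 2 : ℝ) + 246 / 1000 = 9 / 10 * (194 / 100) := by norm_num
    rw [e]
    rw [div_le_iff₀ (by positivity)] at h3
    calc L ^ (9 / 10 * (194 / 100) : ℝ) ≤ P ^ (194 / 100 : ℝ) * (2 : ℝ) ^ (194 / 100 : ℝ) := h3
      _ ≤ P ^ (194 / 100 : ℝ) * 4 := by gcongr
      _ = 4 * P ^ (194 / 100 : ℝ) := by ring
  have h5 : P ^ 2 = P ^ (6 / 100 : ℝ) * P ^ (194 / 100 : ℝ) := by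
    rw [← Real.rpow_add hP0, ← Real.rpow_natCast]; norm_num
  rw [Real.rpow_neg hL0.le, div_le_iff₀ (by positivity)]
  have hL32 : 0 < L ^ (3 / 2 : ℝ) := by positivity
  rw [inv_div_left, ← one_div, one_div_mul_eq_div, le_div_iff₀ (by positivity)]
  calc 72624 * K ^ 6 * (4 * L ^ (3 / 2 : ℝ)) ≤
        72624 * (C ^ 6 * P ^ (6 / 100 : ℝ)) * (4 * L ^ (3 / 2 : ℝ)) := by gcongr
    _ = (P ^ (6 / 100 : ℝ) / 4) * (L ^ (3 / 2 : ℝ) * (1161984 * C ^ 6)) := by ring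
    _ ≤ (P ^ (6 / 100 : ℝ) / 4) * (L ^ (3 / 2 : ℝ) * L ^ (246 / 1000 : ℝ)) := by gcongr
    _ ≤ (P ^ (6 / 100 : ℝ) / 4) * (4 * P ^ (194 / 100 : ℝ)) := by gcongr
    _ = P ^ 2 := by rw [h5]; ring

/-- the second part of the relative size of the exceptional set -/
lemma kappa2 (T W K L P2 rQ l : ℝ) (hT : 1000000 ≤ T) (hW0 : 0 ≤ W) (hW : W ≤ T) (hK0 : 0 ≤ K) (hK : K ≤ T)
    (hL0 : 0 ≤ L) (hL : 1 + L ≤ T) (hP20 : 0 ≤ P2) (hP2 : P2 ≤ T) (hrQ : T ^ 15 ≤ rQ)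
    (hl0 : 0 < l) (hl : 4 * l ≤ T) :
    25088 * W * K ^ 6 * (1 + L) * P2 / rQ ≤ l⁻¹ / 4 := by
  have hT0 : (0 : ℝ) < T := by linarith
  have hrQ0 : 0 < rQ := lt_of_lt_of_le (by positivity) hrQ
  have h1 : 25088 * W * K ^ 6 * (1 + L) * P2 ≤ 25088 * T * T ^ 6 * T * T := by gcongr
  rw [div_le_div_iff₀ hrQ0 (by norm_num), ← div_eq_inv_mul, le_div_iff₀ hl0]
  calc 25088 * W * K ^ 6 * (1 + L) * P2 * 4 * l ≤ (25088 * T * T ^ 6 * T * T) * 4 * l := by gcongr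
    _ = 25088 * T ^ 9 * (4 * l) := by ring
    _ ≤ 25088 * T ^ 9 * T := by gcongr
    _ ≤ T * T ^ 9 * T := by gcongr; linarith
    _ = T ^ 11 * 1 := by ring
    _ ≤ T ^ 11 * T ^ 4 := by gcongr; exact one_le_pow₀ (by linarith)
    _ = T ^ 15 := by ring
    _ ≤ rQ := hrQ

lemma bigaux (T s W U P2 N : ℝ) (hT : 1000000 ≤ T) (hW0 : 0 ≤ W) (hW : W ≤ T) (hU0 : 0 ≤ U)
    (hU : U ≤ T ^ 128) (hP0 : 0 ≤ P2) (hP : P2 ≤ T) (hN : N ≤ s) (hN0 : 0 ≤ N) (hs1 : 1 ≤ s)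
    (hsT : T ^ 260 ≤ s) :
    (8 * W ^ 2 * U ^ 2 + 8 * W + 1 + 6 * (N + 1)) * P2 ≤ s * s ∧
      (N + 1) * (4 * W) * P2 ≤ s * s := by
  have hT1 : (1 : ℝ) ≤ T := by linarith
  have hT0 : (0 : ℝ) < T := by linarith
  have hs0 : 0 < s := by linarith
  have hmonoT : ∀ a b : ℕ, a ≤ b → T ^ a ≤ T ^ b := fun a b h => pow_le_pow_right₀ hT1 h
  constructor
  · have h1 : T ^ 2 ≤ T ^ 259 := hmonoT _ _ (by norm_num)
    have h2 : T ≤ T ^ 259 := le_self_pow₀ hT1 (by norm_num)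
    have h3 : (8 * W ^ 2 * U ^ 2 + 8 * W + 1 + 6 * (N + 1)) ≤
        (8 * T ^ 2 * (T ^ 128) ^ 2 + 8 * T + 1 + 6 * (s + s)) := by gcongr
    have h4 : 1 + 12 * T ≤ T ^ 2 := by nlinarith only [hT]
    have h5 : 17 * T ^ 259 ≤ T ^ 260 := by
      calc 17 * T ^ 259 ≤ T * T ^ 259 := by gcongr; linarith
        _ = T ^ 260 := by ring
    calc (8 * W ^ 2 * U ^ 2 + 8 * W + 1 + 6 * (N + 1)) * P2
        ≤ (8 * T ^ 2 * (T ^ 128) ^ 2 + 8 * T + 1 + 6 * (s + s)) * T := by gcongr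
      _ = 8 * T ^ 259 + 8 * T ^ 2 + T + 12 * s * T := by ring
      _ ≤ s * (1 + 12 * T) := by linarith
      _ ≤ s * T ^ 2 := by gcongr
      _ ≤ s * T ^ 260 := mul_le_mul_of_nonneg_left (hmonoT 2 260 (by norm_num)) hs0.le
      _ ≤ s * s := by gcongr
  · calc (N + 1) * (4 * W) * P2 ≤ (s + s) * (4 * T) * T := by gcongr
      _ = s * (8 * T ^ 2) := by ring
      _ ≤ s * (T * T ^ 2) := by gcongr; linarith
      _ = s * T ^ 3 := by ring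
      _ ≤ s * T ^ 260 := mul_le_mul_of_nonneg_left (hmonoT 3 260 (by norm_num)) hs0.le
      _ ≤ s * s := by gcongr

set_option maxHeartbeats 4000000 in
open Classical in
/-- exceptional numbers in the short intervals `(X - X / P ^ 2, X]`, `√x ≤ X ≤ x` -/
theorem interval_final (ε : ℝ) (hε : 0 < ε) (hε4 : ε ≤ 1 / 4) : ∀ᶠ x : ℕ in atTop, ∃ R : ℕ, 1 ≤ R ∧
    ∀ X : ℕ, Real.sqrt x ≤ X → X ≤ x → 1 ≤ X / R ∧
      (((Ioc (X - X / R) X).filter (fun n => n % 4 ≠ 0 ∧ Bad ⌊(x : ℝ) ^ ε⌋₊ n)).card : ℝ) ≤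
        ((X / R : ℕ) : ℝ) * ((Real.log x) ^ (-(3 / 2) : ℝ) / 2) := by
  obtain ⟨C, hC1, hC⟩ := Kw_bound (1 / 100) (by norm_num)
  set η : ℝ := ε / 1024 with hη
  have hη0 : 0 < η := by positivity
  have hLb : Tendsto (fun x : ℕ => (Real.log x) ^ (246 / 1000 : ℝ)) atTop atTop :=
    (tendsto_rpow_atTop (by norm_num)).comp
      (Real.tendsto_log_atTop.comp tendsto_natCast_atTop_atTop)
  filter_upwards [ev_rpow η 1000000 hη0, ev_PP_four η hη0, ev_PP_pow 2 1 η (by norm_num) (by norm_num) hη0,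
    ev_PP_pow (1 / 100) C η (by norm_num) (by linarith only [hC1]) hη0, ev_log_rpow (3 / 2) 4 η hη0,
    ev_log_rpow 1 2 η hη0, ev_PP_lower, ev_PP_large 3, hLb.eventually_ge_atTop (1161984 * C ^ 6),
    ev_log 1, eventually_ge_atTop 1] with x hT hW hP2 hK hl hL1 hPl hP3 hbig hlog hx1
  set T : ℝ := (x : ℝ) ^ η with hTdef
  set L : ℝ := Real.log x with hLdef
  set P := PP x with hPdef
  have hx0 : (0 : ℝ) < x := by exact_mod_cast hx1
  have hx1' : (1 : ℝ) ≤ x := by exact_mod_cast hx1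
  have hT1 : (1 : ℝ) ≤ T := by linarith only [hT, hε4, hη, hη0]
  have hT0 : (0 : ℝ) < T := by linarith only [hT, hε4, hη, hη0]
  have hTpow : ∀ n : ℕ, T ^ n = (x : ℝ) ^ (η * n) := by
    intro n
    rw [hTdef, ← Real.rpow_natCast, ← Real.rpow_mul hx0.le]
  set U := ⌊(x : ℝ) ^ (ε / 8)⌋₊ with hU
  set Q := ⌊(x : ℝ) ^ (ε / 32)⌋₊ with hQ
  have hT128 : T ^ 128 = (x : ℝ) ^ (ε / 8) := by
    rw [hTpow]; congr 1; rw [hη]; push_cast; ring
  have hT32 : T ^ 32 = (x : ℝ) ^ (ε / 32) := by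
    rw [hTpow]; congr 1; rw [hη]; push_cast; ring
  have hT1024 : T ^ 1024 = (x : ℝ) ^ ε := by
    rw [hTpow]; congr 1; rw [hη]; push_cast; ring
  have hmonoT : ∀ a b : ℕ, a ≤ b → T ^ a ≤ T ^ b := fun a b h => pow_le_pow_right₀ hT1 h
  have hUle : (U : ℝ) ≤ T ^ 128 := by
    rw [hT128]; exact Nat.floor_le (by positivity)
  have hQle : (Q : ℝ) ≤ T ^ 32 := by
    rw [hT32]; exact Nat.floor_le (by positivity)
  have hUge : T ^ 127 ≤ U := by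
    have h1 := Nat.lt_floor_add_one ((x : ℝ) ^ (ε / 8))
    rw [← hU, ← hT128] at h1
    have h2 : 2 * T ^ 127 ≤ T ^ 128 := by
      calc 2 * T ^ 127 ≤ T * T ^ 127 := by gcongr; linarith only [hT, hε4, hη, hη0]
        _ = T ^ 128 := by ring
    have h3 : (1 : ℝ) ≤ T ^ 127 := one_le_pow₀ hT1
    linarith only [h1, h2, h3]
  have hQge : T ^ 31 ≤ Q := by
    have h1 := Nat.lt_floor_add_one ((x : ℝ) ^ (ε / 32))
    rw [← hQ, ← hT32] at h1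
    have h2 : 2 * T ^ 31 ≤ T ^ 32 := by
      calc 2 * T ^ 31 ≤ T * T ^ 31 := by gcongr; linarith only [hT, hε4, hη, hη0]
        _ = T ^ 32 := by ring
    have h3 : (1 : ℝ) ≤ T ^ 31 := one_le_pow₀ hT1
    linarith only [h1, h2, h3]
  have hU1R : (1 : ℝ) ≤ U := (one_le_pow₀ hT1).trans hUge
  have hQ1R : (1 : ℝ) ≤ Q := (one_le_pow₀ hT1).trans hQge
  have hU1 : 1 ≤ U := by exact_mod_cast hU1R
  have hQ1 : 1 ≤ Q := by exact_mod_cast hQ1R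
  set W := Wp P with hWdef
  have hW0 : W ≠ 0 := (Wp_squarefree P).ne_zero
  have hWT : (W : ℝ) ≤ T := by
    refine le_trans ?_ hW
    exact_mod_cast Wp_le P
  have hWR0 : (0 : ℝ) ≤ W := by (clear * - hW0; positivity)
  have hP1 : 1 ≤ P := by omega
  have hPR : (3 : ℝ) ≤ P := by exact_mod_cast hP3
  have hP2T : (P : ℝ) ^ 2 ≤ T := by
    have := hP2
    rw [one_mul, ← Real.rpow_natCast] at *
    exact_mod_cast this
  have hK1 : 1 ≤ Kw W := one_le_Kw W hW0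
  have hKC : Kw W ≤ C * (P : ℝ) ^ (1 / 100 : ℝ) := hC P hP1
  have hKT : Kw W ≤ T := hKC.trans hK
  have hL1T : 1 + L ≤ T := by
    rw [Real.rpow_one] at hL1; linarith only [hL1, hT, hε4, hη, hη0]
  have hL0 : 0 ≤ L := by linarith only [hlog, hε4, hη, hη0]
  refine ⟨P ^ 2, Nat.one_le_pow _ _ (by omega), ?_⟩
  intro X hXs hXx
  have hXx' : (X : ℝ) ≤ x := by exact_mod_cast hXx
  set s : ℝ := Real.sqrt X with hs
  have hX0 : (0 : ℝ) < X := lt_of_lt_of_le (Real.sqrt_pos.2 hx0) hXs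
  have hss : s * s = X := Real.mul_self_sqrt hX0.le
  have hs0 : 0 < s := Real.sqrt_pos.2 hX0
  have hsT : T ^ 1024 ≤ s := by
    apply Real.le_sqrt_of_sq_le
    refine le_trans ?_ hXs
    rw [hT1024, ← Real.rpow_natCast, ← Real.rpow_mul hx0.le, Real.sqrt_eq_rpow]
    apply Real.rpow_le_rpow_of_exponent_le hx1'
    push_cast; linarith only [hε4]
  have hsT260 : T ^ 260 ≤ s := (hmonoT 260 1024 (by norm_num)).trans hsT
  have hs1 : 1 ≤ s := (one_le_pow₀ hT1).trans hsT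
  have hNs : (Nat.sqrt X : ℝ) ≤ s := Real.nat_sqrt_le_real_sqrt
  have hP20 : 0 < P ^ 2 := by positivity
  have hP2R0 : (0 : ℝ) ≤ (P : ℝ) ^ 2 := by positivity
  have hsqX : ∀ a : ℝ, a ≤ s → a ≤ X := by
    intro a ha
    rw [← hss]; nlinarith only [ha, hs0, hs1]
  have hH1 : 1 ≤ X / P ^ 2 := by
    rw [Nat.le_div_iff_mul_le hP20]
    have : ((1 * P ^ 2 : ℕ) : ℝ) ≤ X := by
      push_cast
      rw [one_mul]
      refine hsqX _ (hP2T.trans ((?_ : T ≤ T ^ 260).trans hsT260))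
      exact le_self_pow₀ hT1 (by norm_num)
    exact_mod_cast this
  refine ⟨hH1, ?_⟩
  have hQH : Q ^ 2 * (4 * W) ≤ X / P ^ 2 := by
    rw [Nat.le_div_iff_mul_le hP20]
    have : ((Q ^ 2 * (4 * W) * P ^ 2 : ℕ) : ℝ) ≤ X := by
      push_cast
      apply hsqX
      calc (Q : ℝ) ^ 2 * (4 * W) * (P : ℝ) ^ 2 ≤ (T ^ 32) ^ 2 * (4 * T) * T := by gcongr
        _ = 4 * T ^ 66 := by ring
        _ ≤ T * T ^ 66 := by gcongr; linarith only [hT, hε4, hη, hη0]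
        _ = T ^ 67 := by ring
        _ ≤ T ^ 260 := hmonoT _ _ (by norm_num)
        _ ≤ s := hsT260
    exact_mod_cast this
  obtain ⟨hb1, hb2⟩ := bigaux T s W U ((P : ℝ) ^ 2) (Nat.sqrt X) hT hWR0 hWT (by linarith only [hU1R, hε4, hη, hη0]) hUle hP2R0 hP2T
    hNs (by (clear * -; positivity)) hs1 hsT260
  rw [hss] at hb1 hb2
  have hbigN : 8 * W ^ 2 * U ^ 2 + 8 * W + 1 + 6 * (Nat.sqrt X + 1) ≤ X / P ^ 2 := by
    rw [Nat.le_div_iff_mul_le hP20]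
    exact_mod_cast hb1
  have hsq : (Nat.sqrt X + 1) * (4 * W) ≤ X / P ^ 2 := by
    rw [Nat.le_div_iff_mul_le hP20]
    exact_mod_cast hb2
  have hWK : 12 * W * Kw W ^ 2 ≤ Real.sqrt X := by
    calc 12 * W * Kw W ^ 2 ≤ 12 * T * T ^ 2 := by gcongr
      _ = 12 * T ^ 3 := by ring
      _ ≤ T * T ^ 3 := by gcongr; linarith only [hT, hε4, hη, hη0]
      _ = T ^ 4 := by ring
      _ ≤ T ^ 260 := hmonoT _ _ (by norm_num)
      _ ≤ s := hsT260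
  have hQlog : (Q : ℝ) * (1 + Real.log Q) ≤ U := by
    have hQx : (Q : ℝ) ≤ x := by
      refine hQle.trans ?_
      rw [hT32]
      calc (x : ℝ) ^ (ε / 32) ≤ (x : ℝ) ^ (1 : ℝ) :=
            Real.rpow_le_rpow_of_exponent_le hx1' (by linarith only [hε4, hη, hη0])
        _ = x := Real.rpow_one _
    have h1 : Real.log Q ≤ L := Real.log_le_log (by linarith only [hQ1R, hε4, hη, hη0]) hQx
    have h2 : 0 ≤ Real.log Q := Real.log_nonneg hQ1R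
    calc (Q : ℝ) * (1 + Real.log Q) ≤ T ^ 32 * T :=
          mul_le_mul hQle ((add_le_add le_rfl h1).trans hL1T) (add_nonneg zero_le_one h2) (by positivity)
      _ = T ^ 33 := by ring
      _ ≤ T ^ 127 := hmonoT _ _ (by norm_num)
      _ ≤ U := hUge
  have hsqrtQ : Real.sqrt Q ≤ U := by
    calc Real.sqrt Q ≤ Q := by
          rw [Real.sqrt_le_left (by linarith only [hQ1R, hε4, hη, hη0])]
          nlinarith only [hQ1R]
      _ ≤ T ^ 32 := hQle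
      _ ≤ T ^ 127 := hmonoT _ _ (by norm_num)
      _ ≤ U := hUge
  have hlogX : Real.log X ≤ L := Real.log_le_log hX0 hXx'
  have hmain := interval_bound W U Q P X L (Wp_squarefree P) (Wp_odd P) hP3
    (fun q h1 h2 => lt_of_coprime P q h1 h2) hQ1 hQlog hU1 hK1 hQH hbigN hsq hWK hlogX hsqrtQ
  have hSle : 8 * W ^ 2 * U ^ 2 ≤ ⌊(x : ℝ) ^ ε⌋₊ := by
    apply Nat.le_floor
    push_cast
    rw [← hT1024]
    calc 8 * (W : ℝ) ^ 2 * (U : ℝ) ^ 2 ≤ 8 * T ^ 2 * (T ^ 128) ^ 2 := by gcongr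
      _ = 8 * T ^ 258 := by ring
      _ ≤ T * T ^ 258 := by gcongr; linarith only [hT, hε4, hη, hη0]
      _ = T ^ 259 := by ring
      _ ≤ T ^ 1024 := hmonoT _ _ (by norm_num)
  have hcard : (((Ioc (X - X / P ^ 2) X).filter
      (fun n => n % 4 ≠ 0 ∧ Bad ⌊(x : ℝ) ^ ε⌋₊ n)).card : ℝ) ≤
      (((Ioc (X - X / P ^ 2) X).filter (fun n => n % 4 ≠ 0 ∧ Bad (8 * W ^ 2 * U ^ 2) n)).card : ℝ) := by
    norm_cast
    apply Finset.card_le_card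
    intro n hn
    rw [Finset.mem_filter] at hn ⊢
    exact ⟨hn.1, hn.2.1, Bad.mono hSle hn.2.2⟩
  refine hcard.trans (hmain.trans ?_)
  apply mul_le_mul_of_nonneg_left _ (by positivity)
  have hk1 := kappa1 C (Kw W) L P hC1 (by linarith only [hK1, hε4, hη, hη0]) hlog hPl (by linarith only [hPR, hε4, hη, hη0]) hKC hbig
  have hrQ : T ^ 15 ≤ Real.sqrt Q := by
    apply Real.le_sqrt_of_sq_le
    calc (T ^ 15) ^ 2 = T ^ 30 := by ring
      _ ≤ T ^ 31 := hmonoT _ _ (by norm_num)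
      _ ≤ Q := hQge
  have hLp : 0 < L := by linarith only [hlog, hε4, hη, hη0]
  have hk2 := kappa2 T W (Kw W) L ((P : ℝ) ^ 2) (Real.sqrt Q) (L ^ (3 / 2 : ℝ)) hT hWR0 hWT
    (by linarith only [hK1, hε4, hη, hη0]) hKT hL0 hL1T hP2R0 hP2T hrQ (by positivity) hl
  rw [← Real.rpow_neg hLp.le] at hk2
  linarith only [hk1, hk2]

end Pool.Agent.Lib.MP_be2ccc_co.AW
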