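import Mathlib
import Pool.Agent.Lib.MP_be2ccc_co.AW.IFinal

/-!
# The exceptional numbers have density zero
-/

set_option autoImplicit false

namespace Pool.Agent.Lib.MP_be2ccc_co.AW

open Finset Filter

open Classical in
/-- number of exceptional `n ≤ X`, `n` not divisible by four -/
noncomputable def gb (S X : ℕ) : ℕ := ((Ioc 0 X).filter (fun n => n % 4 ≠ 0 ∧ Bad S n)).card

open Classical in
/-- number of exceptional `n ≤ X` -/
noncomputable def ga (S X : ℕ) : ℕ := ((Ioc 0 X).filter (fun n => Bad S n)).card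

lemma gb_le_self (S X : ℕ) : gb S X ≤ X := by
  classical
  unfold gb
  refine (Finset.card_filter_le _ _).trans ?_
  simp

lemma ga_le_self (S X : ℕ) : ga S X ≤ X := by
  classical
  unfold ga
  refine (Finset.card_filter_le _ _).trans ?_
  simp

lemma gb_anti {S T : ℕ} (h : S ≤ T) (X : ℕ) : gb T X ≤ gb S X := by
  classical
  unfold gb
  apply Finset.card_le_card
  intro n hn
  rw [Finset.mem_filter] at hn ⊢
  exact ⟨hn.1, hn.2.1, Bad.mono h hn.2.2⟩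

open Classical in
lemma gb_split (S X H : ℕ) : gb S X ≤
    gb S (X - H) + ((Ioc (X - H) X).filter (fun n => n % 4 ≠ 0 ∧ Bad S n)).card := by
  unfold gb
  refine le_trans (Finset.card_le_card ?_) (Finset.card_union_le _ _)
  intro n hn
  rw [Finset.mem_filter, Finset.mem_Ioc] at hn
  rw [Finset.mem_union, Finset.mem_filter, Finset.mem_filter, Finset.mem_Ioc, Finset.mem_Ioc]
  by_cases h : n ≤ X - H
  · exact Or.inl ⟨⟨hn.1.1, h⟩, hn.2⟩
  · exact Or.inr ⟨⟨by omega, hn.1.2⟩, hn.2⟩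

theorem gb_density (ε : ℝ) (hε : 0 < ε) (hε4 : ε ≤ 1 / 4) : ∀ᶠ x : ℕ in atTop,
    (gb ⌊(x : ℝ) ^ ε⌋₊ x : ℝ) ≤ x * (Real.log x) ^ (-(3 / 2) : ℝ) := by
  classical
  filter_upwards [interval_final ε hε hε4, ev_log_rpow (3 / 2) 2 (1 / 2) (by norm_num), ev_log 1,
    eventually_ge_atTop 1] with x hx hl hlog hx1
  obtain ⟨R, hR1, hR⟩ := hx
  have hx0 : (0 : ℝ) < x := by exact_mod_cast hx1
  have hL0 : 0 < Real.log x := by linarith
  generalize hκ : (Real.log x) ^ (-(3 / 2) : ℝ) / 2 = κ at hR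
  generalize ⌊(x : ℝ) ^ ε⌋₊ = S at hR ⊢
  have hκ0 : 0 ≤ κ := by rw [← hκ]; positivity
  have key : ∀ X : ℕ, X ≤ x → (gb S X : ℝ) ≤ κ * X + Real.sqrt x := by
    intro X
    induction X using Nat.strong_induction_on with
    | _ X ih =>
      intro hX
      by_cases hXs : Real.sqrt x ≤ X
      · obtain ⟨h1, h2⟩ := hR X hXs hX
        have hH : X / R ≤ X := Nat.div_le_self _ _
        have h3 := ih (X - X / R) (by omega) (by omega)
        have h4 : (gb S X : ℝ) ≤ gb S (X - X / R) +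
            (((Ioc (X - X / R) X).filter (fun n => n % 4 ≠ 0 ∧ Bad S n)).card : ℝ) := by
          exact_mod_cast gb_split S X (X / R)
        have h5 : ((X - X / R : ℕ) : ℝ) = (X : ℝ) - ((X / R : ℕ) : ℝ) := Nat.cast_sub hH
        rw [h5] at h3
        linarith
      · push Not at hXs
        have h1 : (gb S X : ℝ) ≤ X := by exact_mod_cast gb_le_self S X
        have h2 : 0 ≤ κ * X := by positivity
        linarith
  have h1 := key x le_rfl
  have h2 : Real.sqrt x ≤ x * (Real.log x) ^ (-(3 / 2) : ℝ) / 2 := by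
    rw [Real.rpow_neg hL0.le, ← div_eq_mul_inv, div_div, le_div_iff₀ (by positivity)]
    rw [← Real.sqrt_eq_rpow] at hl
    calc Real.sqrt x * ((Real.log x) ^ (3 / 2 : ℝ) * 2) = Real.sqrt x * (2 * (Real.log x) ^ (3 / 2 : ℝ)) := by ring
      _ ≤ Real.sqrt x * Real.sqrt x := by gcongr
      _ = x := Real.mul_self_sqrt hx0.le
  rw [← hκ] at h1
  linarith

lemma S2_four {s : ℕ} (h : S2 s) : S2 (4 * s) := by
  obtain ⟨a, b, rfl⟩ := h
  exact ⟨2 * a, 2 * b, by ring⟩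

lemma Bad_four {S n : ℕ} (h : Bad S (4 * n)) : Bad (S / 4) n := by
  rintro ⟨s₁, s₂, h1, h2, h3, h4⟩
  exact h ⟨4 * s₁, 4 * s₂, S2_four h1, S2_four h2, by omega, by omega⟩

lemma ga_step (S X : ℕ) : ga S X ≤ gb S X + ga (S / 4) (X / 4) := by
  classical
  unfold gb ga
  have h : (Ioc 0 X).filter (fun n => Bad S n) ⊆ (Ioc 0 X).filter (fun n => n % 4 ≠ 0 ∧ Bad S n) ∪
      ((Ioc 0 (X / 4)).filter (fun n => Bad (S / 4) n)).image (fun n => 4 * n) := by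
    intro n hn
    rw [Finset.mem_filter, Finset.mem_Ioc] at hn
    rw [Finset.mem_union, Finset.mem_filter, Finset.mem_Ioc, Finset.mem_image]
    by_cases h4 : n % 4 = 0
    · right
      refine ⟨n / 4, ?_, by omega⟩
      rw [Finset.mem_filter, Finset.mem_Ioc]
      refine ⟨by omega, Bad_four ?_⟩
      have : 4 * (n / 4) = n := by omega
      rw [this]; exact hn.2
    · left; exact ⟨hn.1, h4, hn.2⟩
  refine (Finset.card_le_card h).trans ((Finset.card_union_le _ _).trans ?_)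
  exact Nat.add_le_add_left Finset.card_image_le _

lemma ga_iter (A : ℕ) : ∀ S X : ℕ, ga S X ≤ ∑ a ∈ range A, gb (S / 4 ^ a) (X / 4 ^ a) +
    ga (S / 4 ^ A) (X / 4 ^ A) := by
  induction A with
  | zero => intro S X; simp
  | succ A ih =>
    intro S X
    rw [Finset.sum_range_succ, pow_succ, ← Nat.div_div_eq_div_mul, ← Nat.div_div_eq_div_mul]
    have h1 := ih S X
    have h2 := ga_step (S / 4 ^ A) (X / 4 ^ A)
    omega

set_option maxHeartbeats 1000000 in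
/-- **density of the exceptional set** -/
theorem ga_density (ε : ℝ) (hε : 0 < ε) (hε4 : ε ≤ 1 / 4) : ∀ᶠ x : ℕ in atTop,
    (ga ⌊(x : ℝ) ^ ε⌋₊ x : ℝ) ≤ 6 * (x * (Real.log x) ^ (-(3 / 2) : ℝ)) := by
  have hδ0 : 0 < ε / 2 := by positivity
  obtain ⟨N, hN⟩ := eventually_atTop.1 (gb_density (ε / 2) hδ0 (by linarith))
  filter_upwards [ev_log_rpow (3 / 2) 2 (ε / 2) hδ0, ev_log 1, eventually_ge_atTop 1,
    ev_rpow (3 / 8) 2 (by norm_num), ev_rpow (1 / 2) N (by norm_num)] with x hl hlog hx1 h2 hNx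
  have hx0 : (0 : ℝ) < x := by exact_mod_cast hx1
  have hx1' : (1 : ℝ) ≤ x := by exact_mod_cast hx1
  have hL0 : 0 < Real.log x := by linarith
  set δ := ε / 2 with hδ
  set B := ⌊(x : ℝ) ^ δ⌋₊ with hB
  set A := Nat.log 4 B with hA
  set l := (Real.log x) ^ (-(3 / 2) : ℝ) with hldef
  have hl0 : 0 < l := by positivity
  have hxδ1 : 1 ≤ (x : ℝ) ^ δ := Real.one_le_rpow hx1' hδ0.le
  have hB1 : 1 ≤ B := Nat.le_floor (by exact_mod_cast hxδ1)
  have hBle : (B : ℝ) ≤ (x : ℝ) ^ δ := Nat.floor_le (by positivity)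
  have h4A : 4 ^ A ≤ B := Nat.pow_log_le_self 4 (by omega)
  have h4A1 : B < 4 ^ (A + 1) := Nat.lt_pow_succ_log_self (by norm_num) B
  have h4AR : (x : ℝ) ^ δ ≤ 4 * 4 ^ A := by
    have h5 := Nat.lt_floor_add_one ((x : ℝ) ^ δ)
    rw [← hB] at h5
    have h6 : (B : ℝ) + 1 ≤ 4 ^ (A + 1) := by exact_mod_cast h4A1
    rw [pow_succ] at h6
    linarith
  have hiter : (ga ⌊(x : ℝ) ^ ε⌋₊ x : ℝ) ≤ ∑ a ∈ range A, (gb (⌊(x : ℝ) ^ ε⌋₊ / 4 ^ a) (x / 4 ^ a) : ℝ) +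
      (ga (⌊(x : ℝ) ^ ε⌋₊ / 4 ^ A) (x / 4 ^ A) : ℝ) := by
    exact_mod_cast ga_iter A ⌊(x : ℝ) ^ ε⌋₊ x
  have hterm : ∀ a ∈ range A, (gb (⌊(x : ℝ) ^ ε⌋₊ / 4 ^ a) (x / 4 ^ a) : ℝ) ≤ 3 * x * l * (1 / 4) ^ a := by
    intro a ha
    rw [Finset.mem_range] at ha
    have h4a : 4 ^ a ≤ B := (Nat.pow_le_pow_right (by norm_num) ha.le).trans h4A
    have h4aR : ((4 : ℝ) ^ a) ≤ (x : ℝ) ^ δ := le_trans (by exact_mod_cast h4a) hBle
    have h4a0 : (0 : ℝ) < 4 ^ a := by positivity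
    set Z := x / 4 ^ a with hZ
    have hZle : (Z : ℝ) ≤ x / 4 ^ a := by
      have := Nat.cast_div_le (α := ℝ) (m := x) (n := 4 ^ a)
      push_cast at this
      exact this
    have hZx : (Z : ℝ) ≤ x := by exact_mod_cast Nat.div_le_self _ _
    have hZge : (x : ℝ) ^ (1 / 2 : ℝ) ≤ Z := by
      have h5 : (x : ℝ) / 4 ^ a < Z + 1 := by
        rw [div_lt_iff₀ h4a0]
        have h6 : x < (Z + 1) * 4 ^ a := by
          rw [hZ, add_mul, one_mul, mul_comm]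
          have := Nat.lt_mul_div_succ x (show 0 < 4 ^ a by positivity)
          rw [mul_add, mul_one] at this
          exact this
        exact_mod_cast h6
      have h7 : (x : ℝ) ^ (7 / 8 : ℝ) ≤ x / 4 ^ a := by
        rw [le_div_iff₀ h4a0]
        calc (x : ℝ) ^ (7 / 8 : ℝ) * 4 ^ a ≤ (x : ℝ) ^ (7 / 8 : ℝ) * (x : ℝ) ^ δ := by gcongr
          _ = (x : ℝ) ^ (7 / 8 + δ : ℝ) := by rw [Real.rpow_add hx0]
          _ ≤ (x : ℝ) ^ (1 : ℝ) := Real.rpow_le_rpow_of_exponent_le hx1' (by linarith)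
          _ = x := Real.rpow_one _
      have h8 : (x : ℝ) ^ (7 / 8 : ℝ) = (x : ℝ) ^ (1 / 2 : ℝ) * (x : ℝ) ^ (3 / 8 : ℝ) := by
        rw [← Real.rpow_add hx0]; norm_num
      have h9 : 1 ≤ (x : ℝ) ^ (1 / 2 : ℝ) := Real.one_le_rpow hx1' (by norm_num)
      nlinarith
    have hNZ : N ≤ Z := by exact_mod_cast hNx.trans hZge
    have hZ0 : (0 : ℝ) < Z := lt_of_lt_of_le (by positivity) hZge
    have h10 := hN Z hNZ
    have h11 : ⌊(Z : ℝ) ^ δ⌋₊ ≤ ⌊(x : ℝ) ^ ε⌋₊ / 4 ^ a := by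
      have h12 : ⌊(x : ℝ) ^ ε⌋₊ / 4 ^ a = ⌊(x : ℝ) ^ ε / ((4 ^ a : ℕ) : ℝ)⌋₊ :=
        (Nat.floor_div_natCast _ _).symm
      rw [h12]
      apply Nat.floor_le_floor
      push_cast
      rw [le_div_iff₀ h4a0]
      calc (Z : ℝ) ^ δ * 4 ^ a ≤ (x : ℝ) ^ δ * (x : ℝ) ^ δ := by gcongr
        _ = (x : ℝ) ^ ε := by rw [← Real.rpow_add hx0]; congr 1; rw [hδ]; ring
    have h13 : (gb (⌊(x : ℝ) ^ ε⌋₊ / 4 ^ a) Z : ℝ) ≤ gb ⌊(Z : ℝ) ^ δ⌋₊ Z := by
      exact_mod_cast gb_anti h11 Z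
    have h14 : Real.log x / 2 ≤ Real.log Z := by
      calc Real.log x / 2 = Real.log ((x : ℝ) ^ (1 / 2 : ℝ)) := by rw [Real.log_rpow hx0]; ring
        _ ≤ Real.log Z := Real.log_le_log (by positivity) hZge
    have h15 : (Real.log Z) ^ (-(3 / 2) : ℝ) ≤ 3 * l := by
      calc (Real.log Z) ^ (-(3 / 2) : ℝ) ≤ (Real.log x / 2) ^ (-(3 / 2) : ℝ) :=
            Real.rpow_le_rpow_of_nonpos (by positivity) h14 (by norm_num)
        _ = l * 2 ^ (3 / 2 : ℝ) := by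
            rw [Real.div_rpow hL0.le (by norm_num), Real.rpow_neg (by norm_num : (0 : ℝ) ≤ 2),
              div_inv_eq_mul]
        _ ≤ l * 3 := by
            gcongr
            have h16 : ((2 : ℝ) ^ (3 / 2 : ℝ)) ^ 2 = 8 := by
              rw [← Real.rpow_natCast, ← Real.rpow_mul (by norm_num)]; norm_num
            nlinarith [Real.rpow_pos_of_pos (show (0 : ℝ) < 2 by norm_num) (3 / 2)]
        _ = 3 * l := by ring
    calc (gb (⌊(x : ℝ) ^ ε⌋₊ / 4 ^ a) Z : ℝ) ≤ Z * (Real.log Z) ^ (-(3 / 2) : ℝ) := h13.trans h10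
      _ ≤ (x / 4 ^ a) * (3 * l) := by gcongr
      _ = 3 * x * l * (1 / 4) ^ a := by rw [one_div, inv_pow]; ring
  have hlast : (ga (⌊(x : ℝ) ^ ε⌋₊ / 4 ^ A) (x / 4 ^ A) : ℝ) ≤ 2 * x * l := by
    have h5 : (ga (⌊(x : ℝ) ^ ε⌋₊ / 4 ^ A) (x / 4 ^ A) : ℝ) ≤ ((x / 4 ^ A : ℕ) : ℝ) := by
      exact_mod_cast ga_le_self _ _
    have h6 : ((x / 4 ^ A : ℕ) : ℝ) ≤ x / 4 ^ A := by
      have := Nat.cast_div_le (α := ℝ) (m := x) (n := 4 ^ A)
      push_cast at this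
      exact this
    refine h5.trans (h6.trans ?_)
    rw [div_le_iff₀ (by positivity)]
    have h7 : 2 * (Real.log x) ^ (3 / 2 : ℝ) ≤ 4 * 4 ^ A := hl.trans h4AR
    have h8 : (Real.log x) ^ (3 / 2 : ℝ) * l = 1 := by
      rw [hldef, ← Real.rpow_add hL0]; norm_num
    have h9 : 1 ≤ 2 * 4 ^ A * l := by
      have : (Real.log x) ^ (3 / 2 : ℝ) * l ≤ (2 * 4 ^ A) * l := by gcongr; linarith
      linarith
    calc (x : ℝ) = x * 1 := by ring
      _ ≤ x * (2 * 4 ^ A * l) := by gcongr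
      _ = 2 * x * l * 4 ^ A := by ring
  have hgeo : ∑ a ∈ range A, (1 / 4 : ℝ) ^ a ≤ 4 / 3 := by
    have h5 := geom_sum_eq (show (1 / 4 : ℝ) ≠ 1 by norm_num) A
    rw [h5]
    have h6 : 0 ≤ (1 / 4 : ℝ) ^ A := by positivity
    rw [show ((1 / 4 : ℝ) - 1) = -(3 / 4) by norm_num]
    rw [div_neg, neg_le, le_div_iff₀ (by norm_num)]
    linarith
  calc (ga ⌊(x : ℝ) ^ ε⌋₊ x : ℝ) ≤ ∑ a ∈ range A, (3 * x * l * (1 / 4) ^ a) + 2 * x * l :=
        hiter.trans (add_le_add (Finset.sum_le_sum hterm) hlast)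
    _ = 3 * x * l * ∑ a ∈ range A, (1 / 4 : ℝ) ^ a + 2 * x * l := by rw [Finset.mul_sum]
    _ ≤ 3 * x * l * (4 / 3) + 2 * x * l := by gcongr
    _ = 6 * (x * l) := by ring

end Pool.Agent.Lib.MP_be2ccc_co.AW
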