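import Mathlib
import Pool.Agent.Lib.MP_be2ccc_co.Main
import Pool.Agent.Lib.MP_be2ccc_co.AW.Density

/-!
# Almost all weights
-/

set_option autoImplicit false

namespace Pool.Agent.Lib.MP_be2ccc_co.AW

open Finset Filter

open Pool.Agent.Lib.MP_be2ccc_co

/-- the least orders -/
theorem exists_m (ε : ℝ) (hε : 0 < ε) : ∃ (C : ℝ) (m : ℕ → ℕ), 1 ≤ C ∧
    (∀ j, Odd (m j) ∧ HasW (4 * m j) j) ∧ (∀ j, 1 ≤ j → (m j : ℝ) ≤ C * (j : ℝ) ^ 2) ∧
    ∀ s₁ s₂ : ℕ, S2 s₁ → S2 s₂ → (m (s₁ + s₂) : ℝ) ≤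
      C * (max (s₁ : ℝ) 1) ^ (1 + ε) * (max (s₂ : ℝ) 1) ^ (1 + ε) := by
  classical
  obtain ⟨C₁, m₁, hC1, hm1, hb1⟩ := exists_seq (1 / 2) (by norm_num)
  obtain ⟨C₂, hC2, h2⟩ := pairOrd_bound ε hε
  have hex : ∀ j, ∃ m, Odd m ∧ HasW (4 * m) j := fun j => ⟨m₁ j, hm1 j⟩
  refine ⟨max C₁ (C₂ ^ 2), fun j => Nat.find (hex j), le_max_of_le_left hC1, fun j => Nat.find_spec (hex j), ?_, ?_⟩
  · intro j hj
    have h3 : (Nat.find (hex j) : ℝ) ≤ m₁ j := by exact_mod_cast Nat.find_min' (hex j) (hm1 j)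
    refine h3.trans ((hb1 j hj).trans ?_)
    have h4 : (j : ℝ) ^ (3 / 2 + 1 / 2 : ℝ) = (j : ℝ) ^ 2 := by
      rw [← Real.rpow_natCast]; norm_num
    rw [h4]
    gcongr
    exact le_max_left _ _
  · intro s₁ s₂ hs1 hs2
    obtain ⟨a, ha, hab, hP⟩ := h2 s₁ hs1
    obtain ⟨b, hb, hbb, hP'⟩ := h2 s₂ hs2
    have h3 : (Nat.find (hex (s₁ + s₂)) : ℝ) ≤ ((a * b : ℕ) : ℝ) := by
      exact_mod_cast Nat.find_min' (hex (s₁ + s₂)) ⟨ha.mul hb, (quadOrd_of_pairs hP hP').hasW⟩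
    refine h3.trans ?_
    push_cast
    calc (a : ℝ) * b ≤ (C₂ * (max (s₁ : ℝ) 1) ^ (1 + ε)) * (C₂ * (max (s₂ : ℝ) 1) ^ (1 + ε)) := by
          gcongr
      _ = C₂ ^ 2 * (max (s₁ : ℝ) 1) ^ (1 + ε) * (max (s₂ : ℝ) 1) ^ (1 + ε) := by ring
      _ ≤ max C₁ (C₂ ^ 2) * (max (s₁ : ℝ) 1) ^ (1 + ε) * (max (s₂ : ℝ) 1) ^ (1 + ε) := by
          gcongr
          exact le_max_right _ _

open Classical in
/-- the exceptional weights -/
noncomputable def Ex (ε : ℝ) (x J : ℕ) : Finset ℕ :=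
  (Ioc 0 x).filter (fun k => ∃ i < J, Bad ⌊((x / 2 ^ i : ℕ) : ℝ) ^ ε⌋₊ (k / 2 ^ i))

lemma not_bad_zero (S : ℕ) : ¬ Bad S 0 := fun h => h ⟨0, 0, ⟨0, 0, rfl⟩, ⟨0, 0, rfl⟩, rfl, Nat.zero_le _⟩

open Classical in
lemma lift_card (S x i : ℕ) :
    ((Ioc 0 x).filter (fun k => Bad S (k / 2 ^ i))).card ≤ 2 ^ i * ga S (x / 2 ^ i) := by
  unfold ga
  have h2 : 0 < 2 ^ i := by positivity
  have h : ((Ioc 0 x).filter (fun k => Bad S (k / 2 ^ i))).card ≤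
      (range (2 ^ i) ×ˢ (Ioc 0 (x / 2 ^ i)).filter (fun n => Bad S n)).card := by
    apply Finset.card_le_card_of_injOn (fun k => (k % 2 ^ i, k / 2 ^ i))
    · intro k hk
      simp only [Finset.coe_filter, Finset.mem_Ioc, Set.mem_setOf_eq] at hk
      simp only [Finset.coe_product, Finset.coe_range, Finset.coe_filter, Finset.mem_Ioc, Set.mem_prod,
        Set.mem_Iio, Set.mem_setOf_eq]
      refine ⟨Nat.mod_lt _ h2, ⟨?_, Nat.div_le_div_right hk.1.2⟩, hk.2⟩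
      rcases Nat.eq_zero_or_pos (k / 2 ^ i) with h0 | h0
      · rw [h0] at hk; exact absurd hk.2 (not_bad_zero S)
      · exact h0
    · intro a _ b _ hab
      simp only [Prod.mk.injEq] at hab
      rw [← Nat.mod_add_div a (2 ^ i), ← Nat.mod_add_div b (2 ^ i), hab.1, hab.2]
  rw [Finset.card_product, Finset.card_range] at h
  exact h

lemma Ex_card (ε : ℝ) (x J : ℕ) : (Ex ε x J).card ≤
    ∑ i ∈ range J, 2 ^ i * ga ⌊((x / 2 ^ i : ℕ) : ℝ) ^ ε⌋₊ (x / 2 ^ i) := by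
  classical
  have h : Ex ε x J ⊆ (range J).biUnion (fun i => (Ioc 0 x).filter
      (fun k => Bad ⌊((x / 2 ^ i : ℕ) : ℝ) ^ ε⌋₊ (k / 2 ^ i))) := by
    intro k hk
    unfold Ex at hk
    rw [Finset.mem_filter] at hk
    obtain ⟨hk1, i, hi, hb⟩ := hk
    rw [Finset.mem_biUnion]
    exact ⟨i, Finset.mem_range.2 hi, Finset.mem_filter.2 ⟨hk1, hb⟩⟩
  refine (Finset.card_le_card h).trans (Finset.card_biUnion_le.trans ?_)
  exact Finset.sum_le_sum fun i _ => lift_card _ x i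

/-- the number of levels -/
noncomputable def JJ (η : ℝ) (x : ℕ) : ℕ := Nat.log 2 ⌊(x : ℝ) ^ (1 - η)⌋₊ + 1

/-- **the number of exceptional weights** -/
theorem Ex_bound (ε η : ℝ) (hε : 0 < ε) (hε4 : ε ≤ 1 / 4) (hη : 0 < η) (hη1 : η ≤ 1) :
    ∃ C : ℝ, 0 < C ∧ ∀ᶠ x : ℕ in atTop,
      ((Ex ε x (JJ η x)).card : ℝ) ≤ C * (x * (Real.log x) ^ (-(1 / 2) : ℝ)) := by
  obtain ⟨N, hN⟩ := eventually_atTop.1 (ga_density ε hε hε4)
  refine ⟨3 * (6 * (η / 2) ^ (-(3 / 2) : ℝ)), by positivity, ?_⟩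
  filter_upwards [ev_log 1, eventually_ge_atTop 1, ev_rpow (η / 2) 2 (by positivity),
    ev_rpow (η / 2) N (by positivity)] with x hlog hx1 h2 hNx
  have hx0 : (0 : ℝ) < x := by exact_mod_cast hx1
  have hx1' : (1 : ℝ) ≤ x := by exact_mod_cast hx1
  have hL0 : 0 < Real.log x := by linarith
  set M := ⌊(x : ℝ) ^ (1 - η)⌋₊ with hM
  have hM1 : 1 ≤ M := Nat.le_floor (by
    rw [Nat.cast_one]; exact Real.one_le_rpow hx1' (by linarith))
  have hMle : (M : ℝ) ≤ (x : ℝ) ^ (1 - η) := Nat.floor_le (by positivity)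
  have hMx : M ≤ x := by
    have : (M : ℝ) ≤ x := hMle.trans (by
      calc (x : ℝ) ^ (1 - η) ≤ (x : ℝ) ^ (1 : ℝ) := Real.rpow_le_rpow_of_exponent_le hx1' (by linarith)
        _ = x := Real.rpow_one _)
    exact_mod_cast this
  have hterm : ∀ i ∈ range (JJ η x),
      ((2 ^ i * ga ⌊((x / 2 ^ i : ℕ) : ℝ) ^ ε⌋₊ (x / 2 ^ i) : ℕ) : ℝ) ≤
        6 * (η / 2) ^ (-(3 / 2) : ℝ) * x * (Real.log x) ^ (-(3 / 2) : ℝ) := by
    intro i hi
    rw [Finset.mem_range, JJ, ← hM] at hi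
    have h2i : 2 ^ i ≤ M := (Nat.pow_le_pow_right (by norm_num) (by omega)).trans
      (Nat.pow_log_le_self 2 (by omega))
    have h2iR : ((2 : ℝ) ^ i) ≤ (x : ℝ) ^ (1 - η) := le_trans (by exact_mod_cast h2i) hMle
    have h2i0 : (0 : ℝ) < 2 ^ i := by positivity
    set Z := x / 2 ^ i with hZ
    have hZle : (Z : ℝ) ≤ x / 2 ^ i := by
      have := Nat.cast_div_le (α := ℝ) (m := x) (n := 2 ^ i)
      push_cast at this
      exact this
    have hZge : (x : ℝ) ^ (η / 2) ≤ Z := by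
      have h5 : (x : ℝ) / 2 ^ i < Z + 1 := by
        rw [div_lt_iff₀ h2i0]
        have h6 : x < (Z + 1) * 2 ^ i := by
          rw [hZ, add_mul, one_mul, mul_comm]
          have := Nat.lt_mul_div_succ x (show 0 < 2 ^ i by positivity)
          rw [mul_add, mul_one] at this
          exact this
        exact_mod_cast h6
      have h7 : (x : ℝ) ^ η ≤ x / 2 ^ i := by
        rw [le_div_iff₀ h2i0]
        calc (x : ℝ) ^ η * 2 ^ i ≤ (x : ℝ) ^ η * (x : ℝ) ^ (1 - η) := by gcongr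
          _ = x := by rw [← Real.rpow_add hx0]; simp
      have h8 : (x : ℝ) ^ η = (x : ℝ) ^ (η / 2) * (x : ℝ) ^ (η / 2) := by
        rw [← Real.rpow_add hx0]; congr 1; ring
      nlinarith
    have hNZ : N ≤ Z := by exact_mod_cast hNx.trans hZge
    have hZ0 : (0 : ℝ) < Z := lt_of_lt_of_le (by positivity) hZge
    have h10 := hN Z hNZ
    have h14 : η / 2 * Real.log x ≤ Real.log Z := by
      rw [← Real.log_rpow hx0]
      exact Real.log_le_log (by positivity) hZge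
    have h15 : (Real.log Z) ^ (-(3 / 2) : ℝ) ≤ (η / 2) ^ (-(3 / 2) : ℝ) * (Real.log x) ^ (-(3 / 2) : ℝ) := by
      rw [← Real.mul_rpow (by positivity) hL0.le]
      exact Real.rpow_le_rpow_of_nonpos (by positivity) h14 (by norm_num)
    push_cast
    calc (2 : ℝ) ^ i * (ga ⌊(Z : ℝ) ^ ε⌋₊ Z : ℝ) ≤
          2 ^ i * (6 * (Z * (Real.log Z) ^ (-(3 / 2) : ℝ))) := by gcongr
      _ ≤ 2 ^ i * (6 * ((x / 2 ^ i) * ((η / 2) ^ (-(3 / 2) : ℝ) * (Real.log x) ^ (-(3 / 2) : ℝ)))) := by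
          gcongr
      _ = 6 * (η / 2) ^ (-(3 / 2) : ℝ) * x * (Real.log x) ^ (-(3 / 2) : ℝ) := by
          field_simp
  have hJ : ((JJ η x : ℕ) : ℝ) ≤ 3 * Real.log x := by
    rw [JJ, ← hM]
    push_cast
    have h5 : (Nat.log 2 M : ℝ) * Real.log 2 ≤ Real.log x := by
      have h6 : 2 ^ Nat.log 2 M ≤ x := (Nat.pow_log_le_self 2 (by omega)).trans hMx
      have h7 : ((2 : ℝ) ^ Nat.log 2 M) ≤ x := by exact_mod_cast h6
      have h8 := Real.log_le_log (by positivity) h7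
      rwa [Real.log_pow] at h8
    have h9 : (1 : ℝ) / 2 < Real.log 2 := by
      have := Real.log_two_gt_d9; linarith
    have h10 : (Nat.log 2 M : ℝ) * (1 / 2) ≤ (Nat.log 2 M : ℝ) * Real.log 2 := by gcongr
    linarith
  have hsum : ((Ex ε x (JJ η x)).card : ℝ) ≤ ∑ i ∈ range (JJ η x),
      ((2 ^ i * ga ⌊((x / 2 ^ i : ℕ) : ℝ) ^ ε⌋₊ (x / 2 ^ i) : ℕ) : ℝ) := by
    have := Ex_card ε x (JJ η x)
    exact_mod_cast this
  refine hsum.trans ((Finset.sum_le_sum hterm).trans ?_)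
  rw [Finset.sum_const, Finset.card_range, nsmul_eq_mul]
  have h5 : (Real.log x) ^ (-(1 / 2) : ℝ) = Real.log x * (Real.log x) ^ (-(3 / 2) : ℝ) := by
    rw [← Real.rpow_one_add' hL0.le (by norm_num)]; norm_num
  rw [h5]
  calc ((JJ η x : ℕ) : ℝ) * (6 * (η / 2) ^ (-(3 / 2) : ℝ) * x * (Real.log x) ^ (-(3 / 2) : ℝ)) ≤
        (3 * Real.log x) * (6 * (η / 2) ^ (-(3 / 2) : ℝ) * x * (Real.log x) ^ (-(3 / 2) : ℝ)) := by gcongr
    _ = 3 * (6 * (η / 2) ^ (-(3 / 2) : ℝ)) * (x * (Real.log x * (Real.log x) ^ (-(3 / 2) : ℝ))) := by ring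

end Pool.Agent.Lib.MP_be2ccc_co.AW
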