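import Mathlib
import Pool.Agent.Lib.MP_be2ccc_co.AW.Levels

/-!
# Almost all weights: conclusion
-/

set_option autoImplicit false

namespace Pool.Agent.Lib.MP_be2ccc_co.AW

open Finset Filter

open Pool.Agent.Lib.MP_be2ccc_co

lemma level_term (ε C η : ℝ) (m : ℕ → ℕ) (x k i : ℕ) (hε : 0 < ε) (hε1 : ε ≤ 1) (hη : η = 3 * ε)
    (hC1 : 1 ≤ C) (hx1 : 1 ≤ x) (hsq : ∀ j, 1 ≤ j → (m j : ℝ) ≤ C * (j : ℝ) ^ 2)
    (hdec : ∀ s₁ s₂ : ℕ, S2 s₁ → S2 s₂ → (m (s₁ + s₂) : ℝ) ≤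
      C * (max (s₁ : ℝ) 1) ^ (1 + ε) * (max (s₂ : ℝ) 1) ^ (1 + ε))
    (hk0 : 0 < k) (hkx : k ≤ x) (hE : k ∉ Ex ε x (JJ η x)) (hpos : 1 ≤ k / 2 ^ i) :
    (2 : ℝ) ^ i * (m (k / 2 ^ i) : ℝ) ≤ C * (x : ℝ) ^ (1 + η) := by
  classical
  have hx0 : (0 : ℝ) < x := by exact_mod_cast hx1
  have hx1' : (1 : ℝ) ≤ x := by exact_mod_cast hx1
  have h2i0 : (0 : ℝ) < 2 ^ i := by positivity
  set q := k / 2 ^ i with hq
  have hqR1 : (1 : ℝ) ≤ q := by exact_mod_cast hpos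
  have hqx : (2 : ℝ) ^ i * q ≤ x := by
    have h1 : 2 ^ i * q ≤ x := (Nat.mul_div_le k (2 ^ i)).trans hkx
    exact_mod_cast h1
  have hqx' : (q : ℝ) ≤ x := by
    have h1 : q ≤ x := (Nat.div_le_self _ _).trans hkx
    exact_mod_cast h1
  by_cases hi : i < JJ η x
  · have hnb : ¬ Bad ⌊((x / 2 ^ i : ℕ) : ℝ) ^ ε⌋₊ q := by
      intro hb
      apply hE
      unfold Ex
      rw [Finset.mem_filter, Finset.mem_Ioc]
      exact ⟨⟨hk0, hkx⟩, i, hi, hb⟩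
    unfold Bad at hnb
    rw [not_not] at hnb
    obtain ⟨s₁, s₂, h1, h2, h3, h4⟩ := hnb
    have hs2 : max (s₂ : ℝ) 1 ≤ (x : ℝ) ^ ε := by
      refine max_le ?_ (Real.one_le_rpow hx1' hε.le)
      calc (s₂ : ℝ) ≤ (⌊((x / 2 ^ i : ℕ) : ℝ) ^ ε⌋₊ : ℝ) := by exact_mod_cast h4
        _ ≤ ((x / 2 ^ i : ℕ) : ℝ) ^ ε := Nat.floor_le (by positivity)
        _ ≤ (x : ℝ) ^ ε := by
            apply Real.rpow_le_rpow (by positivity) _ hε.le
            exact_mod_cast Nat.div_le_self _ _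
    have hs1 : max (s₁ : ℝ) 1 ≤ q := by
      refine max_le ?_ hqR1
      have : s₁ ≤ q := by omega
      exact_mod_cast this
    have h5 := hdec s₁ s₂ h1 h2
    rw [h3] at h5
    have h6 : (q : ℝ) ^ (1 + ε) ≤ q * (x : ℝ) ^ ε := by
      rw [Real.rpow_add (by linarith), Real.rpow_one]
      gcongr
    have h7 : ((x : ℝ) ^ ε) ^ (1 + ε) ≤ (x : ℝ) ^ (2 * ε) := by
      rw [← Real.rpow_mul hx0.le]
      apply Real.rpow_le_rpow_of_exponent_le hx1'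
      nlinarith
    calc (2 : ℝ) ^ i * (m q : ℝ) ≤ 2 ^ i * (C * (max (s₁ : ℝ) 1) ^ (1 + ε) * (max (s₂ : ℝ) 1) ^ (1 + ε)) := by
          gcongr
      _ ≤ 2 ^ i * (C * (q : ℝ) ^ (1 + ε) * ((x : ℝ) ^ ε) ^ (1 + ε)) := by gcongr
      _ ≤ 2 ^ i * (C * (q * (x : ℝ) ^ ε) * (x : ℝ) ^ (2 * ε)) := by gcongr
      _ = C * (2 ^ i * q) * ((x : ℝ) ^ ε * (x : ℝ) ^ (2 * ε)) := by ring
      _ ≤ C * x * ((x : ℝ) ^ ε * (x : ℝ) ^ (2 * ε)) := by gcongr
      _ = C * ((x : ℝ) ^ (1 : ℝ) * ((x : ℝ) ^ ε * (x : ℝ) ^ (2 * ε))) := by rw [Real.rpow_one]; ring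
      _ = C * (x : ℝ) ^ (1 + η) := by
          rw [← Real.rpow_add hx0, ← Real.rpow_add hx0, hη]; congr 2; ring
  · push Not at hi
    have hη0 : 0 < η := by rw [hη]; positivity
    have h1 : (x : ℝ) ^ (1 - η) ≤ 2 ^ i := by
      set M := ⌊(x : ℝ) ^ (1 - η)⌋₊ with hM
      have h2 : M < 2 ^ (Nat.log 2 M + 1) := Nat.lt_pow_succ_log_self (by norm_num) M
      have h3 : M + 1 ≤ 2 ^ i := h2.trans_le (Nat.pow_le_pow_right (by norm_num) (by rw [JJ, ← hM] at hi; exact hi))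
      have h4 : (M : ℝ) + 1 ≤ 2 ^ i := by exact_mod_cast h3
      have h5 := Nat.lt_floor_add_one ((x : ℝ) ^ (1 - η))
      rw [← hM] at h5
      linarith
    have h2 : (q : ℝ) ≤ (x : ℝ) ^ η := by
      have h3 : (x : ℝ) ^ (1 - η) * q ≤ x := le_trans (by gcongr) hqx
      have h4 : (x : ℝ) = (x : ℝ) ^ (1 - η) * (x : ℝ) ^ η := by
        rw [← Real.rpow_add hx0]; simp
      have h5 : (0 : ℝ) < (x : ℝ) ^ (1 - η) := by positivity
      by_contra hlt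
      push Not at hlt
      have h6 : (x : ℝ) ^ (1 - η) * (x : ℝ) ^ η < (x : ℝ) ^ (1 - η) * q := by gcongr
      linarith
    have h3 := hsq q hpos
    calc (2 : ℝ) ^ i * (m q : ℝ) ≤ 2 ^ i * (C * (q : ℝ) ^ 2) := by gcongr
      _ = C * (2 ^ i * q) * q := by ring
      _ ≤ C * x * (x : ℝ) ^ η := by gcongr
      _ = C * ((x : ℝ) ^ (1 : ℝ) * (x : ℝ) ^ η) := by rw [Real.rpow_one]; ring
      _ = C * (x : ℝ) ^ (1 + η) := by rw [← Real.rpow_add hx0]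

/-- weights outside the exceptional set -/
theorem good_weights (ε : ℝ) (hε : 0 < ε) (hε4 : ε ≤ 1 / 4) : ∀ᶠ x : ℕ in atTop, ∀ k : ℕ, 0 < k → k ≤ x →
    (x : ℝ) ^ (1 - 3 * (ε / 16)) < k → k ∉ Ex (ε / 16) x (JJ (3 * (ε / 16)) x) →
    ∀ n : ℕ, 4 ∣ n → (k : ℝ) ^ (1 + ε) ≤ n → HasW n k := by
  obtain ⟨C, m, hC1, hm, hsq, hdec⟩ := exists_m (ε / 16) (by positivity)
  filter_upwards [ev_log_rpow 1 (48 * C) (ε / 16) (by positivity), ev_log 1, eventually_ge_atTop 1]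
    with x hl hlog hx1
  intro k hk0 hkx hk hE n hn hkn
  have hx0 : (0 : ℝ) < x := by exact_mod_cast hx1
  have hx1' : (1 : ℝ) ≤ x := by exact_mod_cast hx1
  have hC0 : 0 < C := by linarith
  set L := Nat.clog 2 k with hLdef
  by_cases hL : L ≤ 2
  · refine hasW_small k 2 n ?_ (by norm_num; exact hn)
    exact (Nat.le_pow_clog (by norm_num) k).trans (Nat.pow_le_pow_right (by norm_num) hL)
  push Not at hL
  refine hasW_large m hm k L 2 n le_rfl (Nat.le_pow_clog (by norm_num) k) (by omega) (by norm_num; exact hn) ?_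
  have hterm : ∀ j ∈ Finset.Ico 2 L, ((2 ^ j * m (k / 2 ^ (j - 4)) : ℕ) : ℝ) ≤
      16 * (C * (x : ℝ) ^ (1 + 3 * (ε / 16))) := by
    intro j hj
    rw [Finset.mem_Ico] at hj
    have h2j : 2 ^ j < k := Nat.pow_lt_of_lt_clog hj.2
    have hpos : 1 ≤ k / 2 ^ (j - 4) := by
      rw [Nat.one_le_div_iff (by positivity)]
      exact (Nat.pow_le_pow_right (by norm_num) (Nat.sub_le j 4)).trans h2j.le
    have h1 := level_term (ε / 16) C (3 * (ε / 16)) m x k (j - 4) (by positivity) (by linarith) rfl hC1 hx1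
      hsq hdec hk0 hkx hE hpos
    have h3 : (2 : ℝ) ^ j ≤ 16 * 2 ^ (j - 4) := by
      have : (2 : ℝ) ^ j ≤ 2 ^ (4 + (j - 4)) := pow_le_pow_right₀ (by norm_num) (by omega)
      rw [pow_add] at this
      norm_num at this
      exact this
    push_cast
    calc (2 : ℝ) ^ j * (m (k / 2 ^ (j - 4)) : ℝ) ≤ (16 * 2 ^ (j - 4)) * (m (k / 2 ^ (j - 4)) : ℝ) := by gcongr
      _ = 16 * (2 ^ (j - 4) * (m (k / 2 ^ (j - 4)) : ℝ)) := by ring
      _ ≤ 16 * (C * (x : ℝ) ^ (1 + 3 * (ε / 16))) := by gcongr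
  have hLb : (L : ℝ) ≤ 3 * Real.log x := by
    have h5 : 2 ^ (L - 1) < k := Nat.pow_lt_of_lt_clog (by omega)
    have h6 : ((2 : ℝ) ^ (L - 1)) ≤ x := by exact_mod_cast h5.le.trans hkx
    have h7 := Real.log_le_log (by positivity) h6
    rw [Real.log_pow] at h7
    have h9 : (1 : ℝ) / 2 < Real.log 2 := by
      have := Real.log_two_gt_d9; linarith
    have h10 : ((L - 1 : ℕ) : ℝ) * (1 / 2) ≤ ((L - 1 : ℕ) : ℝ) * Real.log 2 := by gcongr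
    have h11 : ((L - 1 : ℕ) : ℝ) = (L : ℝ) - 1 := by
      rw [Nat.cast_sub (by omega), Nat.cast_one]
    rw [h11] at h7 h10
    linarith
  have hsum : ((∑ j ∈ Finset.Ico 2 L, 2 ^ j * m (k / 2 ^ (j - 4)) : ℕ) : ℝ) ≤
      (x : ℝ) ^ (1 + ε / 4) := by
    rw [Nat.cast_sum]
    calc ∑ j ∈ Finset.Ico 2 L, ((2 ^ j * m (k / 2 ^ (j - 4)) : ℕ) : ℝ)
        ≤ ∑ j ∈ Finset.Ico 2 L, 16 * (C * (x : ℝ) ^ (1 + 3 * (ε / 16))) := Finset.sum_le_sum hterm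
      _ = ((L - 2 : ℕ) : ℝ) * (16 * (C * (x : ℝ) ^ (1 + 3 * (ε / 16)))) := by
          rw [Finset.sum_const, Nat.card_Ico, nsmul_eq_mul]
      _ ≤ (L : ℝ) * (16 * (C * (x : ℝ) ^ (1 + 3 * (ε / 16)))) := by
          gcongr
          omega
      _ ≤ (3 * Real.log x) * (16 * (C * (x : ℝ) ^ (1 + 3 * (ε / 16)))) := by gcongr
      _ = (48 * C * (Real.log x) ^ (1 : ℝ)) * (x : ℝ) ^ (1 + 3 * (ε / 16)) := by
          rw [Real.rpow_one]; ring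
      _ ≤ (x : ℝ) ^ (ε / 16) * (x : ℝ) ^ (1 + 3 * (ε / 16)) := by gcongr
      _ = (x : ℝ) ^ (1 + ε / 4) := by rw [← Real.rpow_add hx0]; congr 1; ring
  have hfin : (x : ℝ) ^ (1 + ε / 4) ≤ n := by
    refine le_trans ?_ hkn
    calc (x : ℝ) ^ (1 + ε / 4) ≤ (x : ℝ) ^ ((1 - 3 * (ε / 16)) * (1 + ε)) := by
          apply Real.rpow_le_rpow_of_exponent_le hx1'
          nlinarith
      _ = ((x : ℝ) ^ (1 - 3 * (ε / 16))) ^ (1 + ε) := by rw [Real.rpow_mul hx0.le]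
      _ ≤ (k : ℝ) ^ (1 + ε) := Real.rpow_le_rpow (by positivity) hk.le (by linarith)
  exact_mod_cast hsum.trans hfin

open Classical in
/-- **Almost all weights.** -/
theorem almost_all (ε : ℝ) (hε : 0 < ε) : ∃ C : ℝ, 0 < C ∧ ∀ x : ℕ, 2 ≤ x →
    (((Icc 1 x).filter (fun k : ℕ => ¬ ∀ n : ℕ, 4 ∣ n → (k : ℝ) ^ (1 + ε) ≤ n → HasW n k)).card : ℝ) ≤
      C * (x / Real.sqrt (Real.log x)) := by
  set δ := min ε (1 / 4) with hδ
  have hδ0 : 0 < δ := lt_min hε (by norm_num)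
  have hδ4 : δ ≤ 1 / 4 := min_le_right _ _
  obtain ⟨C, hC0, hC⟩ := Ex_bound (δ / 16) (3 * (δ / 16)) (by positivity) (by linarith) (by positivity) (by linarith)
  have hev : ∀ᶠ x : ℕ in atTop,
      (((Icc 1 x).filter (fun k : ℕ => ¬ ∀ n : ℕ, 4 ∣ n → (k : ℝ) ^ (1 + ε) ≤ n → HasW n k)).card : ℝ) ≤
        (C + 1) * (x / Real.sqrt (Real.log x)) := by
    filter_upwards [hC, good_weights δ hδ0 hδ4, ev_log_rpow (1 / 2) 1 (3 * (δ / 16)) (by positivity),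
      ev_log 1, eventually_ge_atTop 1] with x h1 h2 hl hlog hx1
    have hx0 : (0 : ℝ) < x := by exact_mod_cast hx1
    have hx1' : (1 : ℝ) ≤ x := by exact_mod_cast hx1
    have hL0 : 0 < Real.log x := by linarith
    have hsub : (Icc 1 x).filter (fun k : ℕ => ¬ ∀ n : ℕ, 4 ∣ n → (k : ℝ) ^ (1 + ε) ≤ n → HasW n k) ⊆
        Ex (δ / 16) x (JJ (3 * (δ / 16)) x) ∪ Icc 1 ⌊(x : ℝ) ^ (1 - 3 * (δ / 16))⌋₊ := by
      intro k hk
      rw [Finset.mem_filter, Finset.mem_Icc] at hk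
      rw [Finset.mem_union]
      by_contra hcon
      rw [not_or] at hcon
      apply hk.2
      intro n hn hkn
      refine h2 k hk.1.1 hk.1.2 ?_ hcon.1 n hn ?_
      · by_contra hle
        push Not at hle
        exact hcon.2 (Finset.mem_Icc.2 ⟨hk.1.1, Nat.le_floor hle⟩)
      · refine le_trans ?_ hkn
        apply Real.rpow_le_rpow_of_exponent_le (by exact_mod_cast hk.1.1)
        have : δ ≤ ε := min_le_left _ _
        linarith
    have h3 : (((Icc 1 x).filter (fun k : ℕ => ¬ ∀ n : ℕ, 4 ∣ n → (k : ℝ) ^ (1 + ε) ≤ n → HasW n k)).card : ℝ) ≤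
        ((Ex (δ / 16) x (JJ (3 * (δ / 16)) x)).card : ℝ) + (⌊(x : ℝ) ^ (1 - 3 * (δ / 16))⌋₊ : ℝ) := by
      have h4 := (Finset.card_le_card hsub).trans (Finset.card_union_le _ _)
      rw [Nat.card_Icc, Nat.add_sub_cancel] at h4
      exact_mod_cast h4
    have h4 : (⌊(x : ℝ) ^ (1 - 3 * (δ / 16))⌋₊ : ℝ) ≤ (x : ℝ) ^ (1 - 3 * (δ / 16)) :=
      Nat.floor_le (by positivity)
    have h5 : (x : ℝ) * (Real.log x) ^ (-(1 / 2) : ℝ) = x / Real.sqrt (Real.log x) := by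
      rw [Real.rpow_neg hL0.le, ← Real.sqrt_eq_rpow, div_eq_mul_inv]
    have h6 : (x : ℝ) ^ (1 - 3 * (δ / 16)) ≤ x / Real.sqrt (Real.log x) := by
      rw [le_div_iff₀ (Real.sqrt_pos.2 hL0), Real.sqrt_eq_rpow]
      rw [one_mul] at hl
      calc (x : ℝ) ^ (1 - 3 * (δ / 16)) * (Real.log x) ^ (1 / 2 : ℝ) ≤
            (x : ℝ) ^ (1 - 3 * (δ / 16)) * (x : ℝ) ^ (3 * (δ / 16)) := by gcongr
        _ = x := by rw [← Real.rpow_add hx0]; simp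
    rw [h5] at h1
    linarith
  obtain ⟨N, hN⟩ := eventually_atTop.1 hev
  refine ⟨C + 1 + Real.sqrt (Real.log (N + 2)), by positivity, ?_⟩
  intro x hx2
  have hx0 : (0 : ℝ) < x := by positivity
  have hxR : (2 : ℝ) ≤ x := by exact_mod_cast hx2
  have hlx : 0 < Real.log x := Real.log_pos (by linarith)
  have hq0 : 0 ≤ x / Real.sqrt (Real.log x) := by positivity
  have hs0 : 0 ≤ Real.sqrt (Real.log ((N : ℝ) + 2)) := Real.sqrt_nonneg _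
  by_cases hNx : N ≤ x
  · exact (hN x hNx).trans (mul_le_mul_of_nonneg_right (by linarith) hq0)
  · push Not at hNx
    have h1 : (((Icc 1 x).filter (fun k : ℕ => ¬ ∀ n : ℕ, 4 ∣ n → (k : ℝ) ^ (1 + ε) ≤ n → HasW n k)).card : ℝ) ≤ x := by
      have := (Finset.card_filter_le (Icc 1 x)
        (fun k : ℕ => ¬ ∀ n : ℕ, 4 ∣ n → (k : ℝ) ^ (1 + ε) ≤ n → HasW n k))
      rw [Nat.card_Icc, Nat.add_sub_cancel] at this
      exact_mod_cast this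
    have h2 : Real.sqrt (Real.log x) ≤ Real.sqrt (Real.log ((N : ℝ) + 2)) := by
      apply Real.sqrt_le_sqrt
      apply Real.log_le_log hx0
      have : (x : ℝ) ≤ N := by exact_mod_cast hNx.le
      linarith
    have h3 : (x : ℝ) ≤ Real.sqrt (Real.log ((N : ℝ) + 2)) * (x / Real.sqrt (Real.log x)) := by
      rw [mul_div_assoc', le_div_iff₀ (Real.sqrt_pos.2 hlx)]
      rw [mul_comm]
      gcongr
    have h4 : 0 ≤ (C + 1) * (x / Real.sqrt (Real.log x)) := by positivity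
    nlinarith

end Pool.Agent.Lib.MP_be2ccc_co.AW
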